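import Mathlib
import Pool.Agent.TH881.RQ.Defs2

set_option autoImplicit false

namespace Pool.Agent.TH126.J3003

open Finset Filter Topology Polynomial
open Pool.Agent.TH881
open Pool.Agent.TH881.RG
open Pool.Agent.TH881.RQ
open Pool.Agent.H373R2.T7

lemma AA_nonempty (pr : Bool) (w : ℕ) : (AA pr w).Nonempty := by
  classical
  refine ⟨1, ?_⟩
  unfold AA
  rw [mem_filter]
  exact ⟨mem_univ _, fun _ => isUnit_one⟩

lemma mq_lt {pr : Bool} {g : ℤ[X]} {p : ℕ} (hp : 2 ≤ p) : mq pr g p < Aq pr p := by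
  classical
  unfold mq
  rw [Finset.sup_lt_iff]
  · intro t ht
    exact (mem_filter.1 ht).2
  · unfold Aq
    rw [Nat.bot_eq_zero]
    split_ifs <;> omega

lemma uq_nonneg (pr : Bool) (g : ℤ[X]) (p : ℕ) : 0 ≤ uq pr g p := by
  unfold uq
  positivity

lemma uq_lt {pr : Bool} {g : ℤ[X]} {p : ℕ} (hp : 2 ≤ p) : uq pr g p < 1 := by
  have h1 : mq pr g p < Aq pr p := mq_lt hp
  have h2 : (mq pr g p : ℝ) < Aq pr p := by exact_mod_cast h1
  unfold uq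
  rw [div_lt_one]
  · exact h2
  · exact lt_of_le_of_lt (Nat.cast_nonneg _) h2

lemma MMq_nonneg (pr : Bool) (g : ℤ[X]) (K k w : ℕ) : 0 ≤ MMq (uq pr g) K k w := by
  classical
  unfold MMq
  apply prod_nonneg
  intro p hp
  have hp2 : 2 ≤ p := by
    unfold pz at hp
    exact ((mem_filter.1 hp).2).two_le
  have hp2r : (2 : ℝ) ≤ p := by exact_mod_cast hp2
  have h1 := uq_nonneg pr g p
  have h2 : uq pr g p < 1 := uq_lt hp2
  have h3 : 1 ≤ 1 / (1 - uq pr g p) := by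
    rw [le_div_iff₀ (by linarith)]
    linarith
  have h4 := one_le_pow₀ (n := k) h3
  have h5 : 0 ≤ ((K : ℝ) / ((p : ℝ) - 1)) * ((1 / (1 - uq pr g p)) ^ k - 1) := by
    apply mul_nonneg
    · apply div_nonneg (Nat.cast_nonneg _)
      linarith
    · linarith
  linarith

lemma tot_pos (w : ℕ) : (0 : ℝ) < Nat.totient (Wp w) := by
  have := Nat.totient_pos.2 (Wp_pos w)
  exact_mod_cast this

lemma sum_rrq (pr : Bool) (g : ℤ[X]) (σ : ℤ) (w : ℕ) (e : ZMod (Wp w) → ℝ) :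
    ∑ a ∈ AA pr w, rrq g σ w e a = (AA pr w).card * ∑ t, e t * wtq pr g σ w t := by
  classical
  have hφ : ((AA pr w).card : ℝ) ≠ 0 := by
    have := (AA_nonempty pr w).card_pos
    exact_mod_cast this.ne'
  unfold rrq
  rw [sum_comm, mul_sum]
  apply sum_congr rfl
  intro t _
  rw [← sum_filter, sum_const, nsmul_eq_mul]
  unfold wtq
  field_simp

/-- the main inequality -/
theorem key {pr : Bool} {g : ℤ[X]} {σ : ℤ} {c1 : ℝ} (hc1 : 0 < c1)
    (hMI : StMIq pr g σ)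
    (hWL : ∀ w : ℕ, ∀ e : ZMod (Wp w) → ℝ,
    (∀ t, 0 ≤ e t) → (∀ t, e t ≤ 1) → (∀ t, wtq pr g σ w t = 0 → e t = 0) →
    c1 * ((∑ t, e t) / Wp w) ^ 2 ≤ (∑ t, e t * wtq pr g σ w t) / Nat.totient (Wp w))
    {w : ℕ} {η : ℝ} (T : Finset (ZMod (Wp w))) (B : Finset (ZMod (Wp w))) (hB : B ⊆ AA pr w)
    (hBη : (1 - η) * (AA pr w).card ≤ B.card) (hη : 0 < η)
    (hT : ∀ t ∈ T, wtq pr g σ w t ≠ 0 ∧ ∀ a ∈ B, ¬ gd g σ w t a) (h : ℝ)
    (hh : h = (T.card : ℝ) / Wp w) (h0 : 0 < h) (k : ℕ) (hk : 1 ≤ k) :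
    1 ≤ η * ((1 / (c1 * h ^ 2)) ^ 2 * MMq (uq pr g) 2 k w) ^ (1 / (k : ℝ)) := by
  classical
  obtain ⟨e, he⟩ : ∃ e : ZMod (Wp w) → ℝ, e = fun t => if t ∈ T then 1 else 0 := ⟨_, rfl⟩
  have he0 : ∀ t, 0 ≤ e t := by
    intro t
    rw [he]
    dsimp only
    split_ifs <;> norm_num
  have he1 : ∀ t, e t ≤ 1 := by
    intro t
    rw [he]
    dsimp only
    split_ifs <;> norm_num
  have heT : ∀ t, t ∉ T → e t = 0 := by
    intro t ht
    rw [he]
    exact if_neg ht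
  have hes : ∑ t, e t = T.card := by
    rw [he]
    rw [Finset.sum_ite_mem, univ_inter, sum_const, nsmul_eq_mul, mul_one]
  have hew : ∀ t, wtq pr g σ w t = 0 → e t = 0 := by
    intro t ht
    apply heT
    intro htT
    exact (hT t htT).1 ht
  obtain ⟨S, hS⟩ : ∃ S : ℝ, S = ∑ t, e t * wtq pr g σ w t := ⟨_, rfl⟩
  have hφ := tot_pos w
  have hSl := hWL w e he0 he1 hew
  rw [hes, ← hh, ← hS] at hSl
  have hS0 : 0 < S := by
    have : 0 < S / Nat.totient (Wp w) := lt_of_lt_of_le (by positivity) hSl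
    rwa [lt_div_iff₀ hφ, zero_mul] at this
  have hM := hMI w 2 k (by norm_num) hk e he0 he1 S hS hS0
  have hN : (0 : ℝ) < (AA pr w).card := by
    have := (AA_nonempty pr w).card_pos
    exact_mod_cast this
  rw [div_le_iff₀ hN] at hM
  -- support
  have hsup : ∀ a ∈ B, rrq g σ w e a = 0 := by
    intro a ha
    unfold rrq
    apply sum_eq_zero
    intro t _
    split_ifs with hg
    · apply heT
      intro htT
      exact (hT t htT).2 a ha hg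
    · rfl
  have hsum : ∑ a ∈ AA pr w \ B, rrq g σ w e a = (AA pr w).card * S := by
    rw [hS, ← sum_rrq, ← sum_sdiff hB, sum_eq_zero hsup, add_zero]
  have hCS : (∑ a ∈ AA pr w \ B, rrq g σ w e a) ^ 2 ≤
      ((AA pr w \ B).card : ℝ) * ∑ a ∈ AA pr w \ B, rrq g σ w e a ^ 2 :=
    sq_sum_le_card_mul_sum_sq
  have hle : ∑ a ∈ AA pr w \ B, rrq g σ w e a ^ 2 ≤ ∑ a ∈ AA pr w, rrq g σ w e a ^ 2 :=
    sum_le_sum_of_subset_of_nonneg sdiff_subset fun a _ _ => sq_nonneg _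
  have hDc : ((AA pr w \ B).card : ℝ) ≤ η * (AA pr w).card := by
    rw [card_sdiff_of_subset hB, Nat.cast_sub (card_le_card hB)]
    linarith
  rw [hsum] at hCS
  have hX : ((Nat.totient (Wp w) : ℝ) / S) ^ 2 * MMq (uq pr g) 2 k w ^ (2 - 1) ≤
      (1 / (c1 * h ^ 2)) ^ 2 * MMq (uq pr g) 2 k w := by
    norm_num only
    rw [pow_one]
    apply mul_le_mul_of_nonneg_right _ (MMq_nonneg pr g 2 k w)
    apply pow_le_pow_left₀ (by positivity)
    rw [div_le_div_iff₀ hS0 (by positivity)]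
    rw [le_div_iff₀ hφ] at hSl
    linarith
  have hX0 : 0 ≤ ((Nat.totient (Wp w) : ℝ) / S) ^ 2 * MMq (uq pr g) 2 k w ^ (2 - 1) := by
    norm_num only
    rw [pow_one]
    exact mul_nonneg (by positivity) (MMq_nonneg pr g 2 k w)
  have hX2 := Real.rpow_le_rpow hX0 hX (show (0 : ℝ) ≤ 1 / (k : ℝ) by positivity)
  obtain ⟨Y, hY⟩ : ∃ Y : ℝ, Y = ((1 / (c1 * h ^ 2)) ^ 2 * MMq (uq pr g) 2 k w) ^ (1 / (k : ℝ)) :=
    ⟨_, rfl⟩
  rw [← hY] at hX2 ⊢
  have hY0 : 0 ≤ Y := by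
    rw [hY]
    exact Real.rpow_nonneg (mul_nonneg (by positivity) (MMq_nonneg pr g 2 k w)) _
  have h2 : ∑ a ∈ AA pr w, rrq g σ w e a ^ 2 ≤ S ^ 2 * Y * (AA pr w).card := by
    refine hM.trans ?_
    apply mul_le_mul_of_nonneg_right _ hN.le
    exact mul_le_mul_of_nonneg_left hX2 (by positivity)
  have h3 : ((AA pr w).card * S) ^ 2 ≤ (η * (AA pr w).card) * (S ^ 2 * Y * (AA pr w).card) := by
    refine hCS.trans ?_
    exact mul_le_mul hDc (hle.trans h2) (sum_nonneg fun a _ => sq_nonneg _) (by positivity)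
  have h4 : (η * (AA pr w).card) * (S ^ 2 * Y * (AA pr w).card) =
      (η * Y) * ((AA pr w).card * S) ^ 2 := by ring
  rw [h4] at h3
  have h5 : 0 < (((AA pr w).card : ℝ) * S) ^ 2 := by positivity
  by_contra hcon
  push Not at hcon
  have := mul_lt_mul_of_pos_right hcon h5
  linarith

lemma exists_eps {c δ : ℝ} (hδ : 0 < δ) (hδc : δ < c) : ∃ ε : ℝ, 0 < ε ∧ ε < 1 ∧ ε < c ∧
    (1 + ε) * (1 + ε) * (c - δ) < (1 - ε) * (c - ε) := by
  have hcont : ContinuousAt (fun ε : ℝ => (1 - ε) * (c - ε) - (1 + ε) * (1 + ε) * (c - δ)) 0 := by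
    fun_prop
  have h1 : ∀ᶠ ε : ℝ in 𝓝 0, 0 < (1 - ε) * (c - ε) - (1 + ε) * (1 + ε) * (c - δ) := by
    apply hcont.eventually (lt_mem_nhds _)
    norm_num
    linarith
  have h2 : ∀ᶠ ε : ℝ in 𝓝[>] 0, 0 < ε ∧ ε < 1 ∧ ε < c ∧
      0 < (1 - ε) * (c - ε) - (1 + ε) * (1 + ε) * (c - δ) := by
    filter_upwards [h1.filter_mono nhdsWithin_le_nhds, self_mem_nhdsWithin,
      (gt_mem_nhds (show (0 : ℝ) < 1 by norm_num)).filter_mono nhdsWithin_le_nhds,
      (gt_mem_nhds (show (0 : ℝ) < c by linarith)).filter_mono nhdsWithin_le_nhds]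
      with ε a1 a2 a3 a4
    exact ⟨a2, a3, a4, a1⟩
  obtain ⟨ε, a1, a2, a3, a4⟩ := h2.exists
  exact ⟨ε, a1, a2, a3, by linarith⟩

lemma pow_shift {ε : ℝ} (hε : 0 < ε) (a : ℝ) (τ : ℕ) :
    ∀ᶠ R : ℝ in atTop, (R + a) ^ τ ≤ (1 + ε) * R ^ τ := by
  have h1 : Tendsto (fun R : ℝ => (1 + a / R) ^ τ) atTop (𝓝 ((1 + 0) ^ τ)) :=
    (tendsto_const_nhds.add (tendsto_const_nhds.div_atTop tendsto_id)).pow τ
  rw [add_zero, one_pow] at h1
  filter_upwards [h1.eventually (gt_mem_nhds (show (1 : ℝ) < 1 + ε by linarith)),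
    eventually_gt_atTop 0] with R h2 h3
  have h4 : R + a = (1 + a / R) * R := by field_simp
  rw [h4, mul_pow]
  exact mul_le_mul_of_nonneg_right h2.le (by positivity)

theorem main (pr : Bool) (g : ℤ[X]) (σ : ℤ) (c : ℝ) (τ : ℕ) (hτ : 1 ≤ τ)
    (hΦ : Tendsto (fun w : ℕ => Phq (uq pr g) w * Real.log w ^ τ) atTop (𝓝 c))
    (hMI : StMIq pr g σ) (hMB : StMBq (uq pr g)) (hWL : StWLq pr g σ) (δ : ℝ) (hδ : 0 < δ)
    (hδc : δ < c) :
    ∃ η0 : ℝ, 0 < η0 ∧ ∀ η : ℝ, 0 < η → η ≤ η0 → ∀ w : ℕ, ∀ B ⊆ AA pr w,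
    (1 - η) * (AA pr w).card ≤ B.card → ∀ T : Finset (ZMod (Wp w)),
    (∀ t ∈ T, wtq pr g σ w t ≠ 0 ∧ ∀ a ∈ B, ¬ gd g σ w t a) →
    (T.card : ℝ) / Wp w ≤ Real.exp (-Real.exp (((c - δ) / η) ^ (1 / (τ : ℝ)))) := by
  obtain ⟨c1, hc1, hWL⟩ := hWL
  obtain ⟨ε, hε, hε1, hεc, hεm⟩ := exists_eps hδ hδc
  obtain ⟨k0, hk0⟩ := hMB 2 ε hε
  obtain ⟨k2, hk2⟩ := Filter.eventually_atTop.1
    (hΦ.eventually (lt_mem_nhds (show c - ε < c by linarith)))
  obtain ⟨L, hL⟩ : ∃ L : ℕ, 5 / ε < L := exists_nat_gt _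
  have hL0 : (0 : ℝ) < L := lt_trans (by positivity) hL
  have hL1 : (1 : ℝ) ≤ L := by
    have : 0 < L := by exact_mod_cast hL0
    exact_mod_cast this
  have h5L : 5 / (L : ℝ) ≤ ε := by
    rw [div_lt_iff₀ hε] at hL
    rw [div_le_iff₀ hL0]
    linarith
  have hev : ∀ᶠ R : ℝ in atTop, 0 < R ∧ 2 * |Real.log c1| ≤ Real.exp R ∧
      ((k0 + k2 + 3 : ℕ) : ℝ) ≤ L * Real.exp R ∧
      (R + Real.log (2 * L)) ^ τ ≤ (1 + ε) * R ^ τ := by
    filter_upwards [eventually_gt_atTop 0,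
      Real.tendsto_exp_atTop.eventually_ge_atTop (2 * |Real.log c1|),
      (Real.tendsto_exp_atTop.const_mul_atTop hL0).eventually_ge_atTop ((k0 + k2 + 3 : ℕ) : ℝ),
      pow_shift hε (Real.log (2 * L)) τ] with R a1 a2 a3 a4
    exact ⟨a1, a2, a3, a4⟩
  obtain ⟨R0, hR0⟩ := Filter.eventually_atTop.1 hev
  obtain ⟨R1, hR1⟩ : ∃ R1 : ℝ, R1 = max R0 1 := ⟨_, rfl⟩
  have hR1' : 1 ≤ R1 := by rw [hR1]; exact le_max_right _ _
  have hR1'' : R0 ≤ R1 := by rw [hR1]; exact le_max_left _ _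
  have hcd : 0 < c - δ := by linarith
  have hτ0 : τ ≠ 0 := by omega
  refine ⟨(c - δ) / R1 ^ τ, by positivity, ?_⟩
  intro η hη hη0 w B hB hBη T hT
  obtain ⟨R, hR⟩ : ∃ R : ℝ, R = ((c - δ) / η) ^ (1 / (τ : ℝ)) := ⟨_, rfl⟩
  rw [← hR]
  have hRτ : R ^ τ = (c - δ) / η := by
    rw [hR, one_div, Real.rpow_inv_natCast_pow (by positivity) hτ0]
  have hRR1 : R1 ≤ R := by
    have h1 : R1 ^ τ ≤ (c - δ) / η := by
      rw [le_div_iff₀ (by positivity)] at hη0 ⊢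
      linarith
    rw [← hRτ] at h1
    have hRn : 0 ≤ R := by rw [hR]; positivity
    exact le_of_pow_le_pow_left₀ hτ0 hRn h1
  obtain ⟨r1, r2, r3, r4⟩ := hR0 R (hR1''.trans hRR1)
  by_contra hcon
  push Not at hcon
  obtain ⟨h, hh⟩ : ∃ h : ℝ, h = (T.card : ℝ) / Wp w := ⟨_, rfl⟩
  rw [← hh] at hcon
  have h0 : 0 < h := lt_trans (Real.exp_pos _) hcon
  have hlog : Real.log (1 / h) ≤ Real.exp R := by
    have h1 := Real.log_lt_log (Real.exp_pos _) hcon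
    rw [Real.log_exp] at h1
    rw [one_div, Real.log_inv]
    linarith
  obtain ⟨k, hk⟩ : ∃ k : ℕ, k = ⌈(L : ℝ) * Real.exp R⌉₊ := ⟨_, rfl⟩
  have hkl : (L : ℝ) * Real.exp R ≤ k := by rw [hk]; exact Nat.le_ceil _
  have hku : (k : ℝ) ≤ (2 * L) * Real.exp R := by
    have h1 : (k : ℝ) < L * Real.exp R + 1 := by
      rw [hk]
      exact Nat.ceil_lt_add_one (by positivity)
    have h2 : (1 : ℝ) ≤ L * Real.exp R := by
      refine le_trans ?_ r3
      push_cast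
      have : (0 : ℝ) ≤ k0 := Nat.cast_nonneg _
      have : (0 : ℝ) ≤ k2 := Nat.cast_nonneg _
      linarith
    linarith
  have hk3 : k0 + k2 + 3 ≤ k := by
    have h1 : ((k0 + k2 + 3 : ℕ) : ℝ) ≤ k := r3.trans hkl
    exact_mod_cast h1
  have hkr : (3 : ℝ) ≤ k := by
    have : 3 ≤ k := by omega
    exact_mod_cast this
  have hkpos : (0 : ℝ) < k := by linarith
  have hlogk0 : 0 < Real.log k := Real.log_pos (by linarith)
  have hlogk : Real.log k ≤ R + Real.log (2 * L) := by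
    have h1 := Real.log_le_log hkpos hku
    rw [Real.log_mul (by positivity) (Real.exp_pos _).ne', Real.log_exp] at h1
    linarith
  have hlogτ : Real.log k ^ τ ≤ (1 + ε) * R ^ τ :=
    (pow_le_pow_left₀ hlogk0.le hlogk τ).trans r4
  have hPh := hk2 k (by omega)
  have hPh0 : 0 < Phq (uq pr g) k := by
    have h1 : 0 < Phq (uq pr g) k * Real.log k ^ τ := by
      refine lt_trans ?_ hPh
      linarith
    exact (pos_iff_pos_of_mul_pos h1).2 (by positivity)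
  have hinv : (Phq (uq pr g) k)⁻¹ ≤ (1 + ε) * R ^ τ / (c - ε) := by
    rw [inv_eq_one_div, div_le_div_iff₀ hPh0 (by linarith), one_mul]
    calc c - ε ≤ Phq (uq pr g) k * Real.log k ^ τ := hPh.le
      _ ≤ Phq (uq pr g) k * ((1 + ε) * R ^ τ) := mul_le_mul_of_nonneg_left hlogτ hPh0.le
      _ = _ := by ring
  have hkey := key hc1 hMI hWL T B hB hBη hη hT h hh h0 k (by omega)
  rw [Real.mul_rpow (by positivity) (MMq_nonneg pr g 2 k w)] at hkey
  have hMM := hk0 k (by omega) w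
  have hfac : ((1 / (c1 * h ^ 2)) ^ 2 : ℝ) ^ (1 / (k : ℝ)) ≤ 1 / (1 - ε) := by
    rw [Real.rpow_def_of_pos (by positivity), Real.log_pow]
    have h1 : Real.log (1 / (c1 * h ^ 2)) = -Real.log c1 + 2 * Real.log (1 / h) := by
      rw [one_div, one_div, Real.log_inv, Real.log_inv, Real.log_mul hc1.ne' (by positivity),
        Real.log_pow]
      push_cast
      ring
    have h2 : Real.log (1 / (c1 * h ^ 2)) ≤ 5 / 2 * Real.exp R := by
      rw [h1]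
      have := neg_abs_le (Real.log c1)
      linarith
    have h3 : ((2 : ℕ) : ℝ) * Real.log (1 / (c1 * h ^ 2)) * (1 / (k : ℝ)) ≤ ε := by
      refine le_trans ?_ h5L
      rw [mul_one_div, div_le_div_iff₀ hkpos hL0]
      push_cast
      calc 2 * Real.log (1 / (c1 * h ^ 2)) * L ≤ 2 * (5 / 2 * Real.exp R) * L := by
            apply mul_le_mul_of_nonneg_right _ hL0.le
            linarith
        _ = 5 * (L * Real.exp R) := by ring
        _ ≤ 5 * k := by linarith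
    calc Real.exp (((2 : ℕ) : ℝ) * Real.log (1 / (c1 * h ^ 2)) * (1 / (k : ℝ))) ≤ Real.exp ε :=
          Real.exp_le_exp.2 h3
      _ ≤ 1 / (1 - ε) := by
          rw [le_div_iff₀ (by linarith)]
          have h4 := Real.one_sub_le_exp_neg ε
          calc Real.exp ε * (1 - ε) ≤ Real.exp ε * Real.exp (-ε) :=
                mul_le_mul_of_nonneg_left h4 (Real.exp_pos _).le
            _ = 1 := by rw [← Real.exp_add]; simp
  have hfin : 1 ≤ η * (1 / (1 - ε) * ((1 + ε) * ((1 + ε) * R ^ τ / (c - ε)))) := by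
    refine hkey.trans ?_
    apply mul_le_mul_of_nonneg_left _ hη.le
    apply mul_le_mul hfac _ (Real.rpow_nonneg (MMq_nonneg pr g 2 k w) _)
      (one_div_nonneg.2 (by linarith))
    refine hMM.trans ?_
    exact mul_le_mul_of_nonneg_left hinv (by linarith)
  rw [hRτ] at hfin
  have he : η * (1 / (1 - ε) * ((1 + ε) * ((1 + ε) * ((c - δ) / η) / (c - ε)))) =
      ((1 + ε) * (1 + ε) * (c - δ)) / ((1 - ε) * (c - ε)) := by
    have a1 : (1 - ε) ≠ 0 := by linarith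
    have a2 : (c - ε) ≠ 0 := by linarith
    field_simp
  rw [he, le_div_iff₀ (mul_pos (by linarith) (by linarith))] at hfin
  linarith

open Classical in
theorem local_one (pr : Bool) (g : ℤ[X]) (σ : ℤ) (c : ℝ) (τ : ℕ) (_hc : 0 < c) (hτ : 1 ≤ τ)
    (hΦ : Tendsto (fun w : ℕ => Phq (uq pr g) w * Real.log w ^ τ) atTop (𝓝 c))
    (hMI : StMIq pr g σ) (hMB : StMBq (uq pr g)) (hWL : StWLq pr g σ) (δ : ℝ) (hδ : 0 < δ) (hδc : δ < c) :
    ∃ η0 : ℝ, 0 < η0 ∧ ∀ η : ℝ, 0 < η → η ≤ η0 → ∀ w : ℕ, ∀ B ⊆ AA pr w,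
    (1 - η) * (AA pr w).card ≤ B.card →
    ((univ.filter (fun t => wtq pr g σ w t ≠ 0 ∧ t ∉ sumq g σ w B)).card : ℝ) / Wp w ≤
      Real.exp (-Real.exp (((c - δ) / η) ^ (1 / (τ : ℝ)))) := by
  obtain ⟨η0, h0, h1⟩ := Pool.Agent.TH126.J3003.main pr g σ c τ hτ hΦ hMI hMB hWL δ hδ hδc
  refine ⟨η0, h0, ?_⟩
  intro η hη hη0 w B hB hBη
  apply h1 η hη hη0 w B hB hBη
  intro t ht
  rw [mem_filter] at ht
  refine ⟨ht.2.1, ?_⟩
  intro a ha hg
  apply ht.2.2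
  unfold sumq
  rw [mem_filter]
  exact ⟨mem_univ _, a, ha, hg⟩

end Pool.Agent.TH126.J3003
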