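import Mathlib
import Pool.Agent.TH881.RG.StD
import Pool.Agent.TH494.RgA

/-!
# The example for one restricted summand
-/

set_option autoImplicit false

namespace Pool.Agent.TH126.J2028

open Finset Filter Topology
open Pool.Agent.TH881 Pool.Agent.TH881.RG
open Pool.Agent.H373R2.T7
open Pool.Agent.TH494.RG (om om_pos om_log wt_two)

lemma om_lim : Tendsto om atTop (𝓝 0) := by
  have h1 := om_log
  have h2 : Tendsto (fun y : ℕ => (Real.log y)⁻¹) atTop (𝓝 0) :=
    (Real.tendsto_log_atTop.comp tendsto_natCast_atTop_atTop).inv_tendsto_atTop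
  have h3 := h1.mul h2
  rw [mul_zero] at h3
  refine h3.congr' ?_
  filter_upwards [eventually_ge_atTop 2] with y hy
  have h3 : (2 : ℝ) ≤ y := by exact_mod_cast hy
  have h4 : 0 < Real.log y := Real.log_pos (by linarith)
  field_simp

/-- the choice of the parameter -/
lemma choice1 (δ : ℝ) (hδ : 0 < δ) : ∃ η0 : ℝ, 0 < η0 ∧ ∀ η : ℝ, 0 < η → η ≤ η0 →
    ∃ y : ℕ, 2 ≤ y ∧ om y ≤ η ∧
      η * Real.log (Real.log (Wp y)) ≤ 2 * (C2 * Real.exp (-Real.eulerMascheroniConstant)) + δ := by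
  classical
  set c := 2 * (C2 * Real.exp (-Real.eulerMascheroniConstant)) with hc
  have hc' : 2 * C2 * Real.exp (-Real.eulerMascheroniConstant) = c := by rw [hc]; ring
  have h1 : ∀ᶠ y : ℕ in atTop, om y * Real.log y < c + δ / 2 :=
    om_log.eventually (gt_mem_nhds (by rw [hc']; linarith))
  obtain ⟨Y, hY⟩ := eventually_atTop.1 h1
  obtain ⟨m, hm0, hm⟩ : ∃ m : ℝ, 0 < m ∧ ∀ y ∈ range (Y + 4), m ≤ om y := by
    obtain ⟨x, hx, hmin⟩ := exists_min_image (range (Y + 4)) om ⟨0, mem_range.2 (by omega)⟩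
    exact ⟨om x, om_pos x, hmin⟩
  refine ⟨min (m / 2) (δ / 6), by positivity, fun η hη hη0 => ?_⟩
  have hη1 : η ≤ m / 2 := hη0.trans (min_le_left _ _)
  have hη2 : η ≤ δ / 6 := hη0.trans (min_le_right _ _)
  have hex : ∃ y : ℕ, om y ≤ η := by
    obtain ⟨y, hy⟩ := (om_lim.eventually (gt_mem_nhds hη)).exists
    exact ⟨y, hy.le⟩
  set y := Nat.find hex with hyd
  have hy1 : om y ≤ η := Nat.find_spec hex
  have hyY : Y + 4 ≤ y := by
    by_contra h
    have := hm y (mem_range.2 (by omega))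
    linarith
  have hy2 : η < om (y - 1) := by
    have := Nat.find_min hex (show y - 1 < Nat.find hex by omega)
    push Not at this
    exact this
  refine ⟨y, by omega, hy1, ?_⟩
  have h2 := hY (y - 1) (by omega)
  have hyR : (4 : ℝ) ≤ y := by exact_mod_cast (by omega : 4 ≤ y)
  have hc1 : ((y - 1 : ℕ) : ℝ) = y - 1 := by
    rw [Nat.cast_sub (by omega)]; norm_num
  rw [hc1] at h2
  have hlog1 : 0 < Real.log ((y : ℝ) - 1) := Real.log_pos (by linarith)
  have h3 : η * Real.log ((y : ℝ) - 1) ≤ c + δ / 2 := by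
    have : η * Real.log ((y : ℝ) - 1) ≤ om (y - 1) * Real.log ((y : ℝ) - 1) := by gcongr
    linarith
  have hWle : (Wp y : ℝ) ≤ 4 ^ y := by exact_mod_cast Wp_le y
  have hW2 : 2 ≤ Wp y := Nat.le_of_dvd (Wp_pos y) ((prime_dvd_Wp Nat.prime_two).2 (by omega))
  have hW2R : (2 : ℝ) ≤ Wp y := by exact_mod_cast hW2
  have hlogW : 0 < Real.log (Wp y) := Real.log_pos (by linarith)
  have h4 : Real.log (Wp y) ≤ y * Real.log 4 := by
    have := Real.log_le_log (by linarith) hWle
    rwa [Real.log_pow] at this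
  have hlog4 : Real.log 4 ≤ 2 := by
    have h5 : Real.log 4 = 2 * Real.log 2 := by
      rw [show (4 : ℝ) = 2 ^ 2 by norm_num, Real.log_pow]
      norm_num
    have := Real.log_two_lt_d9
    linarith
  have h5 : Real.log (Real.log (Wp y)) ≤ Real.log ((y : ℝ) - 1) + 3 := by
    have h6 : Real.log (Wp y) ≤ ((y : ℝ) - 1) * Real.exp 3 := by
      have he : (4 : ℝ) ≤ Real.exp 3 := by
        have := Real.add_one_le_exp (3 : ℝ)
        linarith
      calc Real.log (Wp y) ≤ y * 2 := h4.trans (by gcongr)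
        _ ≤ ((y : ℝ) - 1) * 4 := by linarith
        _ ≤ _ := by
          apply mul_le_mul_of_nonneg_left he
          linarith
    have h7 := Real.log_le_log hlogW h6
    rwa [Real.log_mul (by linarith) (Real.exp_pos 3).ne', Real.log_exp] at h7
  calc η * Real.log (Real.log (Wp y)) ≤ η * (Real.log ((y : ℝ) - 1) + 3) := by gcongr
    _ = η * Real.log ((y : ℝ) - 1) + 3 * η := by ring
    _ ≤ _ := by linarith

/-- the even classes -/
lemma even_card (W : ℕ) [NeZero W] (h2 : 2 ∣ W) :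
    2 * (univ.filter (fun t : ZMod W => ZMod.castHom h2 (ZMod 2) t = 0)).card ≤ W := by
  classical
  set K := univ.filter (fun t : ZMod W => ZMod.castHom h2 (ZMod 2) t = 0) with hK
  have h1 : Disjoint K (K.image (fun t => t + 1)) := by
    rw [disjoint_left]
    intro x hx hx'
    rw [hK, mem_filter] at hx
    rw [mem_image] at hx'
    obtain ⟨t, ht, rfl⟩ := hx'
    rw [hK, mem_filter] at ht
    have h3 := hx.2
    rw [map_add, ht.2, map_one, zero_add] at h3
    exact one_ne_zero h3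
  have h3 : (K.image (fun t => t + 1)).card = K.card :=
    card_image_of_injective _ (add_left_injective 1)
  have h4 := card_le_univ (K ∪ K.image (fun t => t + 1))
  rw [card_union_of_disjoint h1, h3, ZMod.card] at h4
  omega

/-- the classes `a` for which `2 - a` is not a unit -/
lemma sums_card (y : ℕ) (hy : 2 ≤ y) (B : Finset (ZMod (Wp y)))
    (hB : ∀ a ∈ B, IsUnit a ∧ ¬ IsUnit (2 - a)) :
    ((sums y B).card : ℝ) / Wp y ≤ 1 / 2 - 1 / Wp y := by
  classical
  have h2 : 2 ∣ Wp y := (prime_dvd_Wp Nat.prime_two).2 hy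
  have hu : ∀ a : ZMod (Wp y), IsUnit a → ZMod.castHom h2 (ZMod 2) a = 1 := by
    intro a ha
    have h3 := ha.map (ZMod.castHom h2 (ZMod 2))
    generalize ZMod.castHom h2 (ZMod 2) a = b at h3
    revert h3
    revert b
    decide
  have hsub : sums y B ⊆
      (univ.filter (fun t : ZMod (Wp y) => ZMod.castHom h2 (ZMod 2) t = 0)).erase 2 := by
    intro t ht
    unfold sums at ht
    rw [mem_filter] at ht
    obtain ⟨a, ha, hta⟩ := ht.2
    rw [mem_erase, mem_filter]
    refine ⟨?_, mem_univ _, ?_⟩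
    · rintro rfl
      exact (hB a ha).2 hta
    · have e : t = a + (t - a) := by ring
      rw [e, map_add, hu a (hB a ha).1, hu _ hta]
      decide
  have h3 := card_le_card hsub
  have hmem : (2 : ZMod (Wp y)) ∈
      univ.filter (fun t : ZMod (Wp y) => ZMod.castHom h2 (ZMod 2) t = 0) := by
    rw [mem_filter]
    refine ⟨mem_univ _, ?_⟩
    rw [map_ofNat]
    decide
  rw [card_erase_of_mem hmem] at h3
  have h4 := even_card (Wp y) h2
  have h5 : 0 < (univ.filter (fun t : ZMod (Wp y) => ZMod.castHom h2 (ZMod 2) t = 0)).card :=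
    card_pos.2 ⟨2, hmem⟩
  have h6 : 2 * (sums y B).card + 2 ≤ Wp y := by omega
  have h7 : 2 * ((sums y B).card : ℝ) + 2 ≤ Wp y := by exact_mod_cast h6
  have hW : (0 : ℝ) < Wp y := by exact_mod_cast Wp_pos y
  rw [div_le_iff₀ hW, sub_mul, one_div_mul_cancel hW.ne']
  linarith

theorem example_one (hcls : ∀ w : ℕ, 2 ≤ w → ∀ B : Finset (ZMod (Wp w)), B ⊆ UU w →
      ∃ A : Set ℕ, (B.card : ℝ) / Nat.totient (Wp w) ≤ relLower A ∧
        lowerDensity (oneSum A) ≤ ((sums w B).card : ℝ) / Wp w) (δ : ℝ) (hδ : 0 < δ) :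
    ∃ η0 : ℝ, 0 < η0 ∧ ∀ η : ℝ, 0 < η → η ≤ η0 → ∃ A : Set ℕ, 1 - η ≤ relLower A ∧
      lowerDensity (oneSum A) ≤ 1 / 2 -
        Real.exp (-Real.exp ((2 * (C2 * Real.exp (-Real.eulerMascheroniConstant)) + δ) / η)) := by
  classical
  obtain ⟨η0, hη0, h0⟩ := choice1 δ hδ
  refine ⟨η0, hη0, fun η hη hηle => ?_⟩
  obtain ⟨y, hy2, hyD, hyL⟩ := h0 η hη hηle
  have hφ := totient_Wp_pos y
  set S : Finset (ZMod (Wp y)) :=
    univ.filter (fun a : ZMod (Wp y) => IsUnit a ∧ IsUnit (2 - a)) with hS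
  have hwt : (S.card : ℝ) / Nat.totient (Wp y) = om y := by
    rw [← wt_two y hy2]
    unfold wt
    congr 3
  have hSU : S ⊆ UU y := by
    intro a ha
    rw [hS, mem_filter] at ha
    exact mem_UU.2 ha.2.1
  obtain ⟨A, hA1, hA2⟩ := hcls y hy2 (UU y \ S) sdiff_subset
  refine ⟨A, ?_, ?_⟩
  · refine le_trans ?_ hA1
    have h1 : (((UU y \ S).card : ℕ) : ℝ) = Nat.totient (Wp y) - S.card := by
      rw [card_sdiff_of_subset hSU, Nat.cast_sub (card_le_card hSU), card_UU]
    rw [h1, sub_div, div_self hφ.ne', hwt]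
    linarith
  · refine hA2.trans ((sums_card y hy2 _ ?_).trans ?_)
    · intro a ha
      obtain ⟨ha1, ha2⟩ := Finset.mem_sdiff.1 ha
      have h1 := mem_UU.1 ha1
      refine ⟨h1, fun h => ha2 ?_⟩
      rw [hS, mem_filter]
      exact ⟨mem_univ _, h1, h⟩
    · have hW2 : 2 ≤ Wp y := Nat.le_of_dvd (Wp_pos y) ((prime_dvd_Wp Nat.prime_two).2 (by omega))
      have hW2R : (2 : ℝ) ≤ Wp y := by exact_mod_cast hW2
      have hlogW : 0 < Real.log (Wp y) := Real.log_pos (by linarith)
      have h2 : Real.log (Real.log (Wp y)) ≤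
          (2 * (C2 * Real.exp (-Real.eulerMascheroniConstant)) + δ) / η := by
        rw [le_div_iff₀ hη]
        linarith
      have h3 : Real.log (Wp y) ≤
          Real.exp ((2 * (C2 * Real.exp (-Real.eulerMascheroniConstant)) + δ) / η) := by
        rw [← Real.log_le_iff_le_exp hlogW]
        exact h2
      apply sub_le_sub_left
      rw [Real.exp_neg, one_div]
      apply inv_anti₀ (by linarith)
      rw [← Real.log_le_iff_le_exp (by linarith)]
      exact h3

end Pool.Agent.TH126.J2028
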