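import Pool.Agent.TH451.MB.Stmt

/-!
# Bare paths in trees with few leaves
-/

set_option autoImplicit false

namespace Pool.Agent.TH126.MB

open Finset Pool.Agent.TH451.MB

section Rooted

variable {n : ℕ}

/-- a tree with root `r`, parent function `p` and depth `dep` -/
structure Rt (T : SimpleGraph (Fin n)) (r : Fin n) (p : Fin n → Fin n) (dep : Fin n → ℕ) :
    Prop where
  adj : ∀ v, v ≠ r → T.Adj v (p v)
  dp : ∀ v, v ≠ r → dep (p v) + 1 = dep v
  key : ∀ v w, T.Adj v w → (v ≠ r ∧ p v = w) ∨ (w ≠ r ∧ p w = v)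

theorem exists_rt (T : SimpleGraph (Fin n)) (hT : T.IsTree) (r : Fin n) :
    ∃ p dep, Rt T r p dep := by
  classical
  have hex : ∀ v : Fin n, ∃ w : Fin n, v ≠ r → T.Adj v w ∧ T.dist w r + 1 = T.dist v r := by
    intro v
    by_cases hv : v = r
    · exact ⟨r, fun h => absurd hv h⟩
    · obtain ⟨q, hq⟩ := hT.connected.exists_walk_length_eq_dist v r
      cases q with
      | nil => exact absurd rfl hv
      | @cons _ w _ h q' =>
        refine ⟨w, fun _ => ⟨h, ?_⟩⟩
        rw [SimpleGraph.Walk.length_cons] at hq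
        have h1 := SimpleGraph.dist_le q'
        have h2 : T.dist v r ≤ T.dist v w + T.dist w r := hT.connected.dist_triangle
        rw [SimpleGraph.dist_eq_one_iff_adj.2 h] at h2
        omega
  choose p hp using hex
  refine ⟨p, fun v => T.dist v r, fun v hv => (hp v hv).1, fun v hv => (hp v hv).2, ?_⟩
  intro v w hvw
  -- the map `u ↦ {u, p u}` from the vertices other than `r` to the edges is onto
  let f : {u : Fin n // u ≠ r} → T.edgeFinset := fun u =>
    ⟨s(u.1, p u.1), by rw [SimpleGraph.mem_edgeFinset, SimpleGraph.mem_edgeSet]; exact (hp u.1 u.2).1⟩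
  have hf : Function.Injective f := by
    rintro ⟨a, ha⟩ ⟨b, hb⟩ hab
    have h1 : s(a, p a) = s(b, p b) := congrArg Subtype.val hab
    rw [Sym2.eq_iff] at h1
    rcases h1 with h1 | h1
    · exact Subtype.ext h1.1
    · exfalso
      have h2 := (hp a ha).2
      have h3 := (hp b hb).2
      rw [h1.2] at h2
      rw [← h1.1] at h3
      omega
  have hcard : Fintype.card {u : Fin n // u ≠ r} = Fintype.card T.edgeFinset := by
    rw [Fintype.card_coe]
    have h1 := hT.card_edgeFinset
    have h2 : Fintype.card {u : Fin n // u ≠ r} = Fintype.card (Fin n) - 1 := by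
      rw [Fintype.card_subtype_compl, Fintype.card_subtype_eq]
    rw [h2]
    omega
  have hsurj : Function.Surjective f :=
    ((Fintype.bijective_iff_injective_and_card f).2 ⟨hf, hcard⟩).2
  obtain ⟨⟨u, hu⟩, hfu⟩ := hsurj ⟨s(v, w), by
    rw [SimpleGraph.mem_edgeFinset, SimpleGraph.mem_edgeSet]; exact hvw⟩
  have h1 : s(u, p u) = s(v, w) := congrArg Subtype.val hfu
  rw [Sym2.eq_iff] at h1
  rcases h1 with ⟨h1, h2⟩ | ⟨h1, h2⟩
  · left
    subst h1
    exact ⟨hu, h2⟩
  · right
    subst h1
    exact ⟨hu, h2⟩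

variable {T : SimpleGraph (Fin n)} {r : Fin n} {p : Fin n → Fin n} {dep : Fin n → ℕ}

/-- the children -/
def ch (r : Fin n) (p : Fin n → Fin n) (c : Fin n) : Finset (Fin n) :=
  univ.filter (fun v => v ≠ r ∧ p v = c)

lemma mem_ch {c v : Fin n} : v ∈ ch r p c ↔ v ≠ r ∧ p v = c := by
  unfold ch
  simp

lemma sum_ch (r : Fin n) (p : Fin n → Fin n) : ∑ c, (ch r p c).card + 1 = n := by
  have h1 : (univ.filter (fun v : Fin n => v ≠ r)).card = ∑ c, (ch r p c).card := by
    rw [card_eq_sum_card_fiberwise (f := p) (t := univ) (fun _ _ => mem_coe.2 (mem_univ _))]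
    refine sum_congr rfl fun c _ => ?_
    congr 1
    ext v
    rw [mem_ch, mem_filter, mem_filter]
    simp
  rw [← h1, filter_ne', card_erase_of_mem (mem_univ _), card_univ, Fintype.card_fin]
  have : 0 < n := r.pos
  omega

lemma Rt.deg_ne (h : Rt T r p dep) {c : Fin n} (hc : c ≠ r) :
    (nb T c univ).card = (ch r p c).card + 1 := by
  classical
  have h1 : nb T c univ = insert (p c) (ch r p c) := by
    ext z
    rw [mem_nb, mem_insert, mem_ch]
    constructor
    · rintro ⟨-, hz⟩
      rcases h.key c z hz with h1 | h1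
      · exact Or.inl h1.2.symm
      · exact Or.inr h1
    · rintro (rfl | hz)
      · exact ⟨mem_univ _, h.adj c hc⟩
      · refine ⟨mem_univ _, ?_⟩
        have := h.adj z hz.1
        rw [hz.2] at this
        exact this.symm
  have h2 : p c ∉ ch r p c := by
    intro h3
    rw [mem_ch] at h3
    have h4 := h.dp c hc
    have h5 := h.dp (p c) h3.1
    rw [h3.2] at h5
    omega
  rw [h1, card_insert_of_notMem h2]

lemma Rt.deg_r (h : Rt T r p dep) : (nb T r univ).card = (ch r p r).card := by
  congr 1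
  ext z
  rw [mem_nb, mem_ch]
  constructor
  · rintro ⟨-, hz⟩
    rcases h.key r z hz with h1 | h1
    · exact absurd rfl h1.1
    · exact h1
  · intro hz
    refine ⟨mem_univ _, ?_⟩
    have := h.adj z hz.1
    rw [hz.2] at this
    exact this.symm

lemma Rt.ch_le (h : Rt T r p dep) (c : Fin n) : (ch r p c).card ≤ (nb T c univ).card := by
  by_cases hc : c = r
  · subst hc
    rw [h.deg_r]
  · rw [h.deg_ne hc]
    omega

lemma Rt.uniq (h : Rt T r p dep) {c : Fin n} (hc : c ≠ r) (hd : (nb T c univ).card = 2)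
    {v w : Fin n} (hv : v ≠ r) (hpv : p v = c) (hw : w ≠ r) (hpw : p w = c) : v = w := by
  have h1 : (ch r p c).card = 1 := by
    have := h.deg_ne hc
    omega
  have h2 := card_le_one.1 (le_of_eq h1) v (mem_ch.2 ⟨hv, hpv⟩) w (mem_ch.2 ⟨hw, hpw⟩)
  exact h2

/-- the sum of the degrees -/
lemma Rt.sum_deg (h : Rt T r p dep) : ∑ c, (nb T c univ).card + 2 = 2 * n := by
  have h1 : ∑ c, (nb T c univ).card + 1 = ∑ c, (ch r p c).card + n := by
    have e1 : ∑ c, ((nb T c univ).card + if c = r then 1 else 0) =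
        ∑ c, ((ch r p c).card + 1) := by
      refine sum_congr rfl fun c _ => ?_
      split_ifs with hc
      · subst hc
        rw [h.deg_r]
      · rw [h.deg_ne hc]
    rw [sum_add_distrib, sum_add_distrib, sum_ite_eq' univ r, if_pos (mem_univ _)] at e1
    simpa using e1
  have h2 := sum_ch r p
  omega

end Rooted

/-- `StBare` -/
theorem bare : StBare := by
  classical
  intro n T hT N hn hN hL
  rcases Nat.eq_zero_or_pos N with rfl | hNpos
  · exact ⟨fun i => i.elim0, fun x => x.1.elim0, fun i => i.elim0, fun i => i.elim0⟩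
  have hn400 : 400 ≤ n := by omega
  obtain ⟨p, dep, h⟩ := exists_rt T hT (⟨0, by omega⟩ : Fin n)
  set r : Fin n := ⟨0, by omega⟩ with hr
  set L := (univ.filter (fun t => (nb T t univ).card = 1)).card with hLdef
  set S : Finset (Fin n) := univ.filter (fun c => (nb T c univ).card ≠ 2) with hS
  set S' : Finset (Fin n) := insert r S with hS'
  have hn0 : ∀ c, c ≠ r → 1 ≤ (nb T c univ).card := by
    intro c hc
    rw [h.deg_ne hc]
    omega
  -- the sum of the degrees over `S`
  have hsum := h.sum_deg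
  have hsumZ : ∑ c, (((nb T c univ).card : ℤ) - 2) = -2 := by
    rw [sum_sub_distrib, sum_const, card_univ, Fintype.card_fin]
    have : (∑ c, ((nb T c univ).card : ℤ)) + 2 = 2 * n := by exact_mod_cast hsum
    simp only [nsmul_eq_mul]
    linarith
  have hLsum : ∑ c : Fin n, (if (nb T c univ).card = 1 then (1 : ℤ) else 0) = L := by
    rw [hLdef, card_filter]
    push_cast
    rfl
  have hrsum : ∑ c : Fin n, (if c = r then (1 : ℤ) else 0) = 1 := by
    rw [sum_ite_eq' univ r, if_pos (mem_univ _)]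
  have hS1 : (S.card : ℤ) ≤ 2 * L + 1 := by
    have e1 : (S.card : ℤ) = ∑ c : Fin n, (if (nb T c univ).card ≠ 2 then (1 : ℤ) else 0) := by
      rw [hS, card_filter]
      push_cast
      rfl
    have e2 : ∑ c : Fin n, (if (nb T c univ).card ≠ 2 then (1 : ℤ) else 0) ≤
        ∑ c : Fin n, (2 * (if (nb T c univ).card = 1 then (1 : ℤ) else 0) +
          (((nb T c univ).card : ℤ) - 2) + 3 * (if c = r then (1 : ℤ) else 0)) := by
      refine sum_le_sum fun c _ => ?_
      by_cases hc : c = r
      · split_ifs <;> omega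
      · have := hn0 c hc
        split_ifs <;> omega
    rw [sum_add_distrib, sum_add_distrib, ← mul_sum, ← mul_sum, hLsum, hsumZ, hrsum] at e2
    linarith
  have hS2 : (∑ c ∈ S, (nb T c univ).card : ℕ) ≤ 4 * L := by
    have e1 : ((∑ c ∈ S, (nb T c univ).card : ℕ) : ℤ) =
        ∑ c : Fin n, (if (nb T c univ).card ≠ 2 then ((nb T c univ).card : ℤ) else 0) := by
      rw [hS, sum_filter]
      push_cast
      rfl
    have e2 : ∑ c : Fin n, (if (nb T c univ).card ≠ 2 then ((nb T c univ).card : ℤ) else 0) ≤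
        ∑ c : Fin n, (4 * (if (nb T c univ).card = 1 then (1 : ℤ) else 0) +
          3 * (((nb T c univ).card : ℤ) - 2) + 6 * (if c = r then (1 : ℤ) else 0)) := by
      refine sum_le_sum fun c _ => ?_
      by_cases hc : c = r
      · split_ifs <;> omega
      · have := hn0 c hc
        split_ifs <;> omega
    rw [sum_add_distrib, sum_add_distrib, ← mul_sum, ← mul_sum, ← mul_sum, hLsum, hsumZ,
      hrsum] at e2
    have : ((∑ c ∈ S, (nb T c univ).card : ℕ) : ℤ) ≤ 4 * L := by linarith
    exact_mod_cast this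
  have hmemS : ∀ c, c ∉ S' → c ≠ r ∧ (nb T c univ).card = 2 := by
    intro c hc
    rw [hS', mem_insert, not_or, hS, mem_filter] at hc
    refine ⟨hc.1, ?_⟩
    by_contra h1
    exact hc.2 ⟨mem_univ _, h1⟩
  have hS'1 : S'.card ≤ 2 * L + 2 := by
    have := card_insert_le r S
    rw [← hS'] at this
    omega
  have hS'2 : ∑ c ∈ S', (ch r p c).card ≤ 4 * L + 2 := by
    have e1 : ∑ c ∈ S', (ch r p c).card ≤ ∑ c ∈ S', (nb T c univ).card :=
      sum_le_sum fun c _ => h.ch_le c
    by_cases hrS : r ∈ S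
    · rw [hS', insert_eq_of_mem hrS] at e1 ⊢
      omega
    · rw [hS', sum_insert hrS, sum_insert hrS] at e1
      rw [hS', sum_insert hrS]
      have : (nb T r univ).card = 2 := by
        rw [hS, mem_filter] at hrS
        by_contra h1
        exact hrS ⟨mem_univ _, h1⟩
      omega
  -- the bad vertices
  set Bd : ℕ → Finset (Fin n) := fun k =>
    univ.filter (fun v => p^[k] v ∈ S' ∧ ∀ j < k, p^[j] v ∉ S') with hBd
  have hB0 : (Bd 0).card ≤ S'.card := by
    refine card_le_card fun v hv => ?_
    rw [hBd] at hv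
    simpa using hv
  have hB1 : (Bd 1).card ≤ ∑ c ∈ S', (ch r p c).card := by
    refine le_trans (card_le_card ?_) card_biUnion_le
    intro v hv
    simp only [hBd, mem_filter, mem_univ, true_and] at hv
    rw [mem_biUnion]
    refine ⟨p v, hv.1, ?_⟩
    rw [mem_ch]
    exact ⟨(hmemS v (hv.2 0 (by omega))).1, rfl⟩
  have hBs : ∀ k, 1 ≤ k → (Bd (k + 1)).card ≤ (Bd k).card := by
    intro k hk
    refine card_le_card_of_injOn p ?_ ?_
    · intro v hv
      rw [mem_coe] at hv ⊢
      simp only [hBd, mem_filter, mem_univ, true_and] at hv ⊢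
      refine ⟨hv.1, fun j hj => ?_⟩
      exact hv.2 (j + 1) (by omega)
    · intro v hv w hw hvw
      rw [mem_coe] at hv hw
      simp only [hBd, mem_filter, mem_univ, true_and] at hv hw
      have h1 := hmemS _ (hv.2 1 (by omega))
      exact h.uniq h1.1 h1.2 (hmemS v (hv.2 0 (by omega))).1 rfl
        (hmemS w (hw.2 0 (by omega))).1 hvw.symm
  have hBle : ∀ k, 1 ≤ k → (Bd k).card ≤ 4 * L + 2 := by
    intro k hk
    induction k, hk using Nat.le_induction with
    | base => exact hB1.trans hS'2
    | succ k hk ih => exact (hBs k hk).trans ih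
  -- the good vertices
  set Gd : Finset (Fin n) := univ.filter (fun v => ∀ k < 7, p^[k] v ∉ S') with hGd
  have hcover : (univ : Finset (Fin n)) ⊆ Gd ∪ (range 7).biUnion Bd := by
    intro v _
    rw [mem_union, mem_biUnion]
    by_cases hv : ∀ k < 7, p^[k] v ∉ S'
    · left
      simp only [hGd, mem_filter, mem_univ, true_and]
      exact hv
    · right
      push Not at hv
      have hex : ∃ k, p^[k] v ∈ S' := ⟨hv.choose, hv.choose_spec.2⟩
      refine ⟨Nat.find hex, ?_, ?_⟩
      · obtain ⟨k, hk, hk'⟩ := hv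
        rw [mem_range]
        exact lt_of_le_of_lt (Nat.find_min' hex hk') hk
      · simp only [hBd, mem_filter, mem_univ, true_and]
        exact ⟨Nat.find_spec hex, fun j hj => Nat.find_min hex hj⟩
  have hGcard : 7 * N ≤ Gd.card := by
    have h1 := card_le_card hcover
    rw [card_univ, Fintype.card_fin] at h1
    have h2 := h1.trans (card_union_le _ _)
    have h3 : ((range 7).biUnion Bd).card ≤ ∑ k ∈ range 7, (Bd k).card := card_biUnion_le
    have h4 : ∑ k ∈ range 7, (Bd k).card ≤ S'.card + 6 * (4 * L + 2) := by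
      rw [sum_range_succ']
      have h5 : ∑ k ∈ range 6, (Bd (k + 1)).card ≤ ∑ k ∈ range 6, (4 * L + 2) :=
        sum_le_sum fun k _ => hBle (k + 1) (by omega)
      rw [sum_const, card_range, smul_eq_mul] at h5
      omega
    omega
  -- a residue class of the depth
  obtain ⟨c, -, hc⟩ := exists_le_card_fiber_of_mul_le_card_of_maps_to
    (s := Gd) (t := range 7) (f := fun v => dep v % 7) (n := N)
    (fun v _ => mem_range.2 (Nat.mod_lt _ (by norm_num))) ⟨0, by simp⟩ (by
      rw [card_range]
      exact hGcard)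
  obtain ⟨G2, hG2, hG2c⟩ := exists_subset_card_eq hc
  have hG2mem : ∀ v ∈ G2, (∀ k < 7, p^[k] v ∉ S') ∧ dep v % 7 = c := by
    intro v hv
    have h1 := hG2 hv
    simp only [hGd, mem_filter, mem_univ, true_and] at h1
    exact h1
  set e : Fin N → Fin n := fun i => G2.orderEmbOfFin hG2c i with he
  have heinj : Function.Injective e := (G2.orderEmbOfFin hG2c).injective
  have hemem : ∀ i, e i ∈ G2 := fun i => G2.orderEmbOfFin_mem hG2c i
  have hdep : ∀ v, (∀ k < 7, p^[k] v ∉ S') → ∀ k < 7, dep (p^[k] v) + k = dep v := by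
    intro v hv k
    induction k with
    | zero => intro _; rfl
    | succ k ih =>
      intro hk
      have h1 := ih (by omega)
      have h2 := h.dp (p^[k] v) (hmemS _ (hv k (by omega))).1
      rw [Function.iterate_succ_apply']
      omega
  have hback : ∀ v w, (∀ k < 7, p^[k] v ∉ S') → (∀ k < 7, p^[k] w ∉ S') → ∀ k < 7,
      p^[k] v = p^[k] w → v = w := by
    intro v w hv hw k
    induction k with
    | zero => intro _ hk; exact hk
    | succ k ih =>
      intro hk hvw
      apply ih (by omega)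
      have h1 := hmemS _ (hv (k + 1) hk)
      rw [Function.iterate_succ_apply'] at h1
      rw [Function.iterate_succ_apply', Function.iterate_succ_apply'] at hvw
      exact h.uniq h1.1 h1.2 (hmemS _ (hv k (by omega))).1 rfl (hmemS _ (hw k (by omega))).1
        hvw.symm
  refine ⟨fun i k => p^[(k : ℕ)] (e i), ?_, ?_, ?_⟩
  · rintro ⟨i, k⟩ ⟨j, l⟩ hij
    have hij' : p^[(k : ℕ)] (e i) = p^[(l : ℕ)] (e j) := hij
    obtain ⟨hi1, hi2⟩ := hG2mem _ (hemem i)
    obtain ⟨hj1, hj2⟩ := hG2mem _ (hemem j)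
    have h1 := hdep _ hi1 k k.2
    have h2 := hdep _ hj1 l l.2
    rw [hij'] at h1
    have hk := k.2
    have hl := l.2
    have hkl : (k : ℕ) = l := by omega
    rw [← hkl] at hij'
    have h3 := heinj (hback _ _ hi1 hj1 k k.2 hij')
    rw [Prod.mk.injEq]
    exact ⟨h3, Fin.ext hkl⟩
  · intro i k
    obtain ⟨hi1, hi2⟩ := hG2mem _ (hemem i)
    show T.Adj (p^[((k.castSucc : Fin 7) : ℕ)] (e i)) (p^[((k.succ : Fin 7) : ℕ)] (e i))
    rw [Fin.val_succ, Fin.val_castSucc, Function.iterate_succ_apply']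
    exact h.adj _ (hmemS _ (hi1 k (by omega))).1
  · intro i k
    obtain ⟨hi1, hi2⟩ := hG2mem _ (hemem i)
    exact (hmemS _ (hi1 k k.2)).2

end Pool.Agent.TH126.MB
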