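import Mathlib
set_option autoImplicit false

/-!
Job 403 (helper202): the integral closure of a finitely generated `ℂ`-algebra in a finitely
generated field extension of `ℂ` is finitely generated.
-/

namespace Pool.Agent.TH126.C8_FG

attribute [local instance] FractionRing.liftAlgebra

/-- Finiteness of the integral closure of a finitely generated algebra. -/
theorem integralClosure_fg {K : Type} [Field K] [Algebra ℂ K] [Algebra.EssFiniteType ℂ K]
    (A : Subalgebra ℂ K) (hA : A.FG) (halg : ∀ f : K, IsAlgebraic A f) :
    ((integralClosure A K).restrictScalars ℂ).FG := by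
  classical
  have : Algebra.FiniteType ℂ A := (Subalgebra.fg_iff_finiteType A).mp hA
  obtain ⟨s, g, hg, hfin⟩ := exists_finite_inj_algHom_of_fg ℂ A
  let A0 := MvPolynomial (Fin s) ℂ
  let _ : Algebra A0 A := g.toRingHom.toAlgebra
  let _ : Algebra A0 K := (A.val.comp g).toRingHom.toAlgebra
  have : IsScalarTower ℂ A0 K := IsScalarTower.of_algebraMap_eq fun x =>
    ((A.val.comp g).commutes x).symm
  have : IsScalarTower A0 A K := IsScalarTower.of_algebraMap_eq fun x => rfl
  have hinj : Function.Injective (algebraMap A0 K) := Subtype.val_injective.comp hg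
  have : FaithfulSMul A0 K := (faithfulSMul_iff_algebraMap_injective A0 K).mpr hinj
  have : Module.Finite A0 A := hfin
  have : Algebra.IsIntegral A0 A := Algebra.IsIntegral.of_finite A0 A
  have : Algebra.IsAlgebraic A0 A := Algebra.IsIntegral.isAlgebraic
  have hK : Algebra.IsAlgebraic A0 K := ⟨fun f => (halg f).restrictScalars A0⟩
  let F0 := FractionRing A0
  have : IsScalarTower A0 F0 K := FractionRing.isScalarTower_liftAlgebra A0 K
  have : IsScalarTower ℂ F0 K := IsScalarTower.to₁₃₄ ℂ A0 F0 K
  have : Algebra.EssFiniteType F0 K := Algebra.EssFiniteType.of_comp ℂ F0 K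
  have : Algebra.IsAlgebraic F0 K := Algebra.IsAlgebraic.extendScalars
    (FaithfulSMul.algebraMap_injective A0 F0)
  have : FiniteDimensional F0 K := by
    obtain ⟨t, ht⟩ := IntermediateField.fg_top F0 K
    have := IntermediateField.finiteDimensional_adjoin (K := F0) (L := K) (S := (t : Set K))
      fun x _ => (Algebra.IsAlgebraic.isAlgebraic x).isIntegral
    refine Module.Finite.of_surjective
      (IntermediateField.adjoin F0 (t : Set K)).val.toLinearMap fun x => ⟨⟨x, ?_⟩, rfl⟩
    rw [ht]
    exact IntermediateField.mem_top
  have : CharZero F0 := inferInstance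
  have : Algebra.IsSeparable F0 K := inferInstance
  have hfin2 : Module.Finite A0 (integralClosure A0 K) :=
    IsIntegralClosure.finite A0 F0 K (integralClosure A0 K)
  -- the two integral closures agree
  have heq : ((integralClosure A K).restrictScalars ℂ) = (integralClosure A0 K).restrictScalars ℂ := by
    ext x
    simp only [Subalgebra.mem_restrictScalars, mem_integralClosure_iff]
    constructor
    · intro h
      exact isIntegral_trans x h
    · intro h
      exact h.tower_top
  rw [heq]
  have hft : Algebra.FiniteType A0 (integralClosure A0 K) := inferInstance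
  have hft2 : Algebra.FiniteType ℂ (integralClosure A0 K) :=
    Algebra.FiniteType.trans (S := A0) inferInstance hft
  exact (Subalgebra.fg_iff_finiteType _).mpr hft2

end Pool.Agent.TH126.C8_FG
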