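import Mathlib
import Pool.Agent.TH202.Dat
import Pool.Agent.W497.Mld.Dvr
set_option autoImplicit false

/-!
Job 409 (helper202): height-one primes of the normalization of `A^3` lie over principal primes.
-/

namespace Pool.Agent.TH126.C8_OVER
open Pool.Agent.H436R3.Fol Pool.Agent.TH202 MvPolynomial

/-- the centre of a valuation -/
def centre {K : Type} [Field K] [Algebra ℂ K] (S : Subalgebra ℂ K) (w : DVal K)
    (h : ∀ f ∈ S, w.Reg f) : Ideal S where
  carrier := {s | w.Pos (s : K)}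
  zero_mem' := Or.inl rfl
  add_mem' := fun ha hb => w.pos_add ha hb
  smul_mem' := fun a _ hb => w.pos_mul_left (h a a.2) hb

lemma mem_centre {K : Type} [Field K] [Algebra ℂ K] (S : Subalgebra ℂ K) (w : DVal K)
    (h : ∀ f ∈ S, w.Reg f) (s : S) : s ∈ centre S w h ↔ w.Pos (s : K) := Iff.rfl

lemma centre_prime {K : Type} [Field K] [Algebra ℂ K] (S : Subalgebra ℂ K) (w : DVal K)
    (h : ∀ f ∈ S, w.Reg f) : (centre S w h).IsPrime := by
  refine ⟨?_, fun {a b} hab => ?_⟩
  · intro htop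
    have h1 : (1 : S) ∈ centre S w h := by rw [htop]; trivial
    rcases h1 with h1 | h1
    · exact one_ne_zero h1
    · have : w.ord ((1 : S) : K) = 0 := w.ord_one
      omega
  · rcases eq_or_ne (a : K) 0 with ha | ha
    · exact Or.inl (Or.inl ha)
    rcases eq_or_ne (b : K) 0 with hb | hb
    · exact Or.inr (Or.inl hb)
    rcases hab with h0 | h0
    · exact absurd h0 (mul_ne_zero ha hb)
    · have h1 : w.ord ((a * b : S) : K) = w.ord (a : K) + w.ord (b : K) := w.map_mul _ _ ha hb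
      have h2 := w.ord_nonneg ha (h a a.2)
      have h3 := w.ord_nonneg hb (h b b.2)
      rcases lt_or_ge 0 (w.ord (a : K)) with h4 | h4
      · exact Or.inl (Or.inr h4)
      · refine Or.inr (Or.inr ?_)
        omega

lemma height_one {K : Type} [Field K] [Algebra ℂ K] (S : Subalgebra ℂ K) (w : DVal K)
    (hw : IsLocalRing' S w) (Q : Ideal S) (hQ : Q.IsPrime) (hlt : Q < centre S w hw.1) :
    Q = ⊥ := by
  by_contra hne
  obtain ⟨f, hfQ, hf0⟩ := Submodule.exists_mem_ne_zero_of_ne_bot hne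
  obtain ⟨g, hg, hgQ⟩ := SetLike.exists_of_lt hlt
  have hf0' : (f : K) ≠ 0 := fun h => hf0 (Subtype.ext h)
  have hg0 : (g : K) ≠ 0 := fun h => hgQ (by
    have : g = 0 := Subtype.ext h
    rw [this]
    exact Q.zero_mem)
  have hgpos : 0 < w.ord (g : K) := by
    rcases hg with h | h
    · exact absurd h hg0
    · exact h
  set N := (w.ord (f : K)).toNat with hN
  have hx : w.Reg ((g : K) ^ N / f) := by
    refine Or.inr ?_
    rw [w.ord_div (pow_ne_zero _ hg0) hf0', w.ord_pow hg0]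
    have h1 : w.ord (f : K) ≤ N := Int.self_le_toNat _
    nlinarith
  obtain ⟨a, b, ha, hb, hb0, hbo, hab⟩ := hw.2 _ hx
  have h2 : g ^ N * (⟨b, hb⟩ : S) = f * ⟨a, ha⟩ := by
    apply Subtype.ext
    change (g : K) ^ N * b = f * a
    rw [← hab]
    field_simp
  have h3 : g ^ N * (⟨b, hb⟩ : S) ∈ Q := by
    rw [h2]
    exact Q.mul_mem_right _ hfQ
  rcases hQ.mem_or_mem h3 with h4 | h4
  · exact hgQ (hQ.mem_of_pow_mem N h4)
  · have h5 := hlt.le h4
    rcases h5 with h6 | h6
    · exact hb0 h6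
    · change 0 < w.ord b at h6
      omega

/-- Prime divisors of the normalization of the affine space lie over irreducible hypersurfaces. -/
theorem prime_over {K : Type} [Field K] [Algebra ℂ K] (t : Fin 3 → K)
    (ht : AlgebraicIndependent ℂ t)
    (halg : ∀ f : K, IsAlgebraic (Algebra.adjoin ℂ (Set.range t)) f)
    (w : DVal K) (hw : IsLocalRing' (IC t) w) :
    ∃ π : MvPolynomial (Fin 3) ℂ, Prime π ∧ ∀ q, w.Pos (aeval t q) ↔ π ∣ q := by
  classical
  set B := Algebra.adjoin ℂ (Set.range t) with hB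
  set S := IC t with hS
  have hmem : ∀ q : MvPolynomial (Fin 3) ℂ, (aeval t q : K) ∈ B := by
    intro q
    rw [hB, Algebra.adjoin_range_eq_range_aeval]
    exact ⟨q, rfl⟩
  have hBS : ∀ x ∈ B, x ∈ S := by
    intro x hx
    rw [hS]
    unfold IC
    rw [Subalgebra.mem_restrictScalars, mem_integralClosure_iff]
    exact isIntegral_algebraMap (x := (⟨x, hx⟩ : B))
  let ψB : MvPolynomial (Fin 3) ℂ →ₐ[ℂ] B := (aeval t).codRestrict B hmem
  let ψ : MvPolynomial (Fin 3) ℂ →ₐ[ℂ] S := (aeval t).codRestrict S fun q => hBS _ (hmem q)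
  let _ : Algebra (MvPolynomial (Fin 3) ℂ) B := ψB.toRingHom.toAlgebra
  let _ : Algebra (MvPolynomial (Fin 3) ℂ) S := ψ.toRingHom.toAlgebra
  let _ : Algebra (MvPolynomial (Fin 3) ℂ) K := (aeval t : MvPolynomial (Fin 3) ℂ →ₐ[ℂ] K).toRingHom.toAlgebra
  have hT1 : IsScalarTower (MvPolynomial (Fin 3) ℂ) B K := IsScalarTower.of_algebraMap_eq fun x => rfl
  have hT2 : IsScalarTower (MvPolynomial (Fin 3) ℂ) S K := IsScalarTower.of_algebraMap_eq fun x => rfl
  have hinj : Function.Injective (algebraMap (MvPolynomial (Fin 3) ℂ) S) := by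
    intro x y hxy
    apply ht
    exact congrArg Subtype.val hxy
  have : FaithfulSMul (MvPolynomial (Fin 3) ℂ) S :=
    (faithfulSMul_iff_algebraMap_injective _ _).mpr hinj
  have hsurj : Function.Surjective (algebraMap (MvPolynomial (Fin 3) ℂ) B) := by
    rintro ⟨x, hx⟩
    rw [hB, Algebra.adjoin_range_eq_range_aeval] at hx
    obtain ⟨q, hq⟩ := hx
    exact ⟨q, Subtype.ext hq⟩
  have : Algebra.IsIntegral (MvPolynomial (Fin 3) ℂ) B := by
    refine ⟨fun x => ?_⟩
    obtain ⟨q, rfl⟩ := hsurj x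
    exact isIntegral_algebraMap
  have hint : Algebra.IsIntegral (MvPolynomial (Fin 3) ℂ) S := by
    refine ⟨fun x => ?_⟩
    have h1 : IsIntegral B (x : K) := by
      have h0 : (x : K) ∈ IC t := x.2
      unfold IC at h0
      rwa [Subalgebra.mem_restrictScalars, mem_integralClosure_iff] at h0
    have h2 : IsIntegral (MvPolynomial (Fin 3) ℂ) (x : K) := isIntegral_trans (x : K) h1
    exact (isIntegral_algebraMap_iff (R := MvPolynomial (Fin 3) ℂ) (A := S) (B := K)
      Subtype.val_injective).mp h2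
  set q := centre S w hw.1 with hq
  have hqp : q.IsPrime := centre_prime S w hw.1
  have hqne : q ≠ ⊥ := by
    obtain ⟨f, hf0, hf1⟩ := w.surj
    obtain ⟨a, b, ha, hb, hb0, hbo, hab⟩ := hw.2 f (Or.inr (by omega))
    have ha1 : w.ord a = 1 := by
      rw [← hab, w.map_mul _ _ hf0 hb0]
      omega
    have ha0 : a ≠ 0 := by
      rw [← hab]
      exact mul_ne_zero hf0 hb0
    intro h
    have h1 : (⟨a, ha⟩ : S) ∈ q := Or.inr (by change 0 < w.ord a; omega)
    rw [h, Ideal.mem_bot] at h1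
    exact ha0 (congrArg Subtype.val h1)
  set p0 := q.under (MvPolynomial (Fin 3) ℂ) with hp0
  have hp0p : p0.IsPrime := Ideal.IsPrime.under _ q
  have hp0ne : p0 ≠ ⊥ := fun h => hqne (Ideal.eq_bot_of_comap_eq_bot h)
  obtain ⟨π, hπ, hπp⟩ := hp0p.exists_mem_prime_of_ne_bot hp0ne
  refine ⟨π, hπp, ?_⟩
  have hle : Ideal.span {π} ≤ p0 := (Ideal.span_singleton_le_iff_mem _).mpr hπ
  have hspan : (Ideal.span {π}).IsPrime := (Ideal.span_singleton_prime hπp.ne_zero).mpr hπp
  have heq : Ideal.span {π} = p0 := by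
    by_contra hne
    have hlt : Ideal.span {π} < p0 := lt_of_le_of_ne hle hne
    obtain ⟨Q, hQlt, hQp, hQo⟩ := Ideal.exists_ideal_lt_liesOver_of_lt (S := S) q hlt
    have hQb := height_one S w hw Q hQp hQlt
    have h1 := hQo.over
    rw [hQb] at h1
    have h2 : π ∈ Ideal.span {π} := Ideal.mem_span_singleton_self π
    rw [h1] at h2
    have h3 : algebraMap (MvPolynomial (Fin 3) ℂ) S π = 0 := h2
    exact hπp.ne_zero (hinj (h3.trans (map_zero _).symm))
  intro x
  rw [← Ideal.mem_span_singleton, heq]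
  rfl

end Pool.Agent.TH126.C8_OVER
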