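import Pool.Agent.TH185.Zeta

/-! Job KAC-7: the values of words at rank two bundles are fixed combinations of the numbers of line
subbundles. -/

open scoped WithZero Matrix
open WithZero

set_option linter.unusedSectionVars false

namespace Pool.Agent.TH185

open Pool.Agent.TH185.C

namespace J383

variable {𝕜 K : Type} [Field 𝕜] [IsAlgClosed 𝕜] [Field K] [Algebra 𝕜 K] {n r : ℕ}

/-! ### rank and degree of a family -/

theorem exists_smul_mem (E : Bundle 𝕜 K r) (v : Point 𝕜 K) (x : Fin r → K) :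
    ∃ a : K, a ≠ 0 ∧ a • x ∈ E.stalk v := by
  rcases eq_or_ne x 0 with rfl | hx
  · exact ⟨1, one_ne_zero, by rw [smul_zero]; exact stalk_zero⟩
  obtain ⟨b, hb⟩ := v.surj (nval E v x)
  have hb0 : b ≠ 0 := by
    rintro rfl
    rw [map_zero] at hb
    exact nval_ne_zero E v hx hb.symm
  exact ⟨b⁻¹, inv_ne_zero hb0, (nval_le_val_iff E v x hb0).1 hb.ge⟩

theorem range_eq (E : Bundle 𝕜 K r) (j : (Fin r → K) →ₗ[K] (Fin n → K)) {F : Fam 𝕜 K n}
    {v : Point 𝕜 K} (h : F v = j '' E.stalk v) (x : Fin n → K) :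
    (∃ a : K, a ≠ 0 ∧ a • x ∈ F v) ↔ x ∈ LinearMap.range j := by
  constructor
  · rintro ⟨a, ha, hx⟩
    rw [h] at hx
    obtain ⟨y, -, hy⟩ := hx
    refine ⟨a⁻¹ • y, ?_⟩
    rw [map_smul, hy, smul_smul, inv_mul_cancel₀ ha, one_smul]
  · rintro ⟨y, rfl⟩
    obtain ⟨a, ha, hy⟩ := exists_smul_mem E v y
    refine ⟨a, ha, ?_⟩
    rw [h]
    exact ⟨a • y, hy, map_smul j a y⟩

/-- the matrix of a linear automorphism -/
noncomputable def toGL (A : (Fin r → K) ≃ₗ[K] (Fin r → K)) : GL (Fin r) K where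
  val := LinearMap.toMatrix' A.toLinearMap
  inv := LinearMap.toMatrix' A.symm.toLinearMap
  val_inv := by
    rw [← LinearMap.toMatrix'_comp]
    have : A.toLinearMap ∘ₗ A.symm.toLinearMap = LinearMap.id := by
      ext x
      simp
    rw [this, LinearMap.toMatrix'_id]
  inv_val := by
    rw [← LinearMap.toMatrix'_comp]
    have : A.symm.toLinearMap ∘ₗ A.toLinearMap = LinearMap.id := by
      ext x
      simp
    rw [this, LinearMap.toMatrix'_id]

theorem toGL_mulVec (A : (Fin r → K) ≃ₗ[K] (Fin r → K)) (x : Fin r → K) :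
    (toGL A).1 *ᵥ x = A x := by
  change LinearMap.toMatrix' A.toLinearMap *ᵥ x = A x
  rw [LinearMap.toMatrix'_mulVec]
  rfl

theorem unique (hK : IsCurve 𝕜 K) {r r' : ℕ} {d d' : ℤ} {F : Fam 𝕜 K n} (h : IsSheaf r d F)
    (h' : IsSheaf r' d' F) : r = r' ∧ d = d' := by
  obtain ⟨E, j, hj, hd, hF⟩ := h
  obtain ⟨E', j', hj', hd', hF'⟩ := h'
  obtain ⟨v⟩ := point_nonempty hK
  have hr : LinearMap.range j = LinearMap.range j' := by
    ext x
    rw [← range_eq E j (hF v), ← range_eq E' j' (hF' v)]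
  have hrr : r = r' := by
    have h1 := LinearMap.finrank_range_of_inj hj
    have h2 := LinearMap.finrank_range_of_inj hj'
    rw [hr, h2, Module.finrank_fintype_fun_eq_card, Module.finrank_fintype_fun_eq_card,
      Fintype.card_fin, Fintype.card_fin] at h1
    exact h1.symm
  subst hrr
  refine ⟨rfl, ?_⟩
  let A : (Fin r → K) ≃ₗ[K] (Fin r → K) := (LinearEquiv.ofInjective j hj).trans
    ((LinearEquiv.ofEq _ _ hr).trans (LinearEquiv.ofInjective j' hj').symm)
  have hA : ∀ x, j' (A x) = j x := by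
    intro x
    have h1 : ((LinearEquiv.ofInjective j' hj') (A x) : Fin n → K) = j x := by
      change ((LinearEquiv.ofInjective j' hj') ((LinearEquiv.ofInjective j' hj').symm
        ((LinearEquiv.ofEq _ _ hr) ((LinearEquiv.ofInjective j hj) x))) : Fin n → K) = j x
      rw [LinearEquiv.apply_symm_apply]
      rfl
    exact h1
  have key : ∀ (v : Point 𝕜 K) (x : Fin r → K), x ∈ E.stalk v ↔ A x ∈ E'.stalk v := by
    intro v x
    constructor
    · intro hx
      have h1 : j x ∈ F v := by rw [hF]; exact ⟨x, hx, rfl⟩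
      rw [hF', ← hA] at h1
      obtain ⟨y, hy, hyx⟩ := h1
      rwa [hj' hyx] at hy
    · intro hx
      have h1 : j' (A x) ∈ F v := by rw [hF']; exact ⟨A x, hx, rfl⟩
      rw [hF, hA] at h1
      obtain ⟨y, hy, hyx⟩ := h1
      rwa [hj hyx] at hy
  rw [← hd, ← hd']
  apply le_antisymm
  · refine (degree_compare hK (E := E') (F := E) (A := toGL A) fun v s hs => ?_).1
    rw [toGL_mulVec]
    exact (key v s).1 hs
  · refine (degree_compare hK (E := E) (F := E') (A := toGL A.symm) fun v s hs => ?_).1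
    rw [toGL_mulVec, key, LinearEquiv.apply_symm_apply]
    exact hs

theorem isSheaf_stalk (E : Bundle 𝕜 K n) : IsSheaf n E.degree E.stalk :=
  ⟨E, LinearMap.id, fun _ _ h => h, rfl, fun v => by simp⟩

/-- families of full rank -/
theorem full_rank (hK : IsCurve 𝕜 K) {d : ℤ} {F : Fam 𝕜 K n} (h : IsSheaf n d F) :
    ∃ E : Bundle 𝕜 K n, E.degree = d ∧ F = E.stalk := by
  obtain ⟨E, j, hj, hd, hF⟩ := id h
  let A : (Fin n → K) ≃ₗ[K] (Fin n → K) := LinearEquiv.ofInjectiveEndo j hj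
  have hA : ∀ x, A x = j x := fun x => rfl
  have hinj : Function.Injective (toGL A.symm).1.mulVec := by
    intro x y hxy
    rw [toGL_mulVec, toGL_mulVec] at hxy
    exact A.symm.injective hxy
  obtain ⟨E', hE'⟩ := exists_subbundle hK E (toGL A.symm).1 hinj
  have hst : F = E'.stalk := by
    funext v
    rw [hF]
    ext x
    rw [hE'.stalk v x, Matrix.mulVecLin_apply, toGL_mulVec]
    constructor
    · rintro ⟨y, hy, rfl⟩
      rw [← hA, LinearEquiv.symm_apply_apply]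
      exact hy
    · intro hx
      exact ⟨_, hx, by rw [← hA, LinearEquiv.apply_symm_apply]⟩
  refine ⟨E', ?_, hst⟩
  subst hst
  exact (unique hK (isSheaf_stalk E') h).2

/-! ### rank zero -/

/-- the zero family -/
def Z (𝕜 K : Type) [Field 𝕜] [Field K] [Algebra 𝕜 K] (n : ℕ) : Fam 𝕜 K n := fun _ => {0}

theorem isSheaf_Z : IsSheaf 0 0 (Z 𝕜 K n) := by
  refine ⟨trivialBundle 𝕜 K 0, 0, fun x y _ => Subsingleton.elim x y, trivialBundle_degree,
    fun v => ?_⟩
  ext x
  constructor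
  · intro hx
    exact ⟨0, stalk_zero, hx.symm⟩
  · rintro ⟨y, -, rfl⟩
    rfl

theorem rank_zero (hK : IsCurve 𝕜 K) {d : ℤ} {F : Fam 𝕜 K n} (h : IsSheaf 0 d F) :
    F = Z 𝕜 K n ∧ d = 0 := by
  have h1 : F = Z 𝕜 K n := by
    obtain ⟨E, j, hj, hd, hF⟩ := h
    funext v
    rw [hF]
    ext x
    constructor
    · rintro ⟨y, -, rfl⟩
      rw [Subsingleton.elim y 0, map_zero]
      rfl
    · intro hx
      exact ⟨0, stalk_zero, by rw [map_zero]; exact hx.symm⟩
  refine ⟨h1, ?_⟩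
  subst h1
  exact (unique hK h isSheaf_Z).2

/-! ### rank one -/

/-- the rank one family with generic fibre `K s` and divisor `M` -/
def Ln (s : Fin n → K) (M : Point 𝕜 K →₀ ℤ) : Fam 𝕜 K n :=
  fun v => {x | ∃ a : K, v.val a ≤ exp (M v) ∧ x = a • s}

theorem Ln_isSheaf {s : Fin n → K} (hs : s ≠ 0) (M : Point 𝕜 K →₀ ℤ) :
    IsSheaf 1 M.degree (Ln s M) := by
  refine ⟨tw (trivialBundle 𝕜 K 1) M,
    (LinearMap.toSpanSingleton K (Fin n → K) s) ∘ₗ (LinearMap.proj (0 : Fin 1)), ?_, ?_, ?_⟩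
  · intro x y hxy
    have h1 : x 0 • s = y 0 • s := hxy
    ext i
    rw [Subsingleton.elim i 0]
    exact smul_left_injective K hs h1
  · rw [tw_degree, trivialBundle_degree]
    simp
  · intro v
    ext x
    constructor
    · rintro ⟨a, ha, rfl⟩
      refine ⟨fun _ => a, ?_, rfl⟩
      rw [mem_tw_stalk, nval_trivial_one]
      exact ha
    · rintro ⟨y, hy, rfl⟩
      rw [mem_tw_stalk, nval_trivial_one] at hy
      exact ⟨y 0, hy, rfl⟩

theorem smul_eq {s t : Fin n → K} (hs : IsNorm s) (ht : IsNorm t) {a b : K} (ha : a ≠ 0)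
    (h : a • s = b • t) : a = b ∧ s = t := by
  have hb : b ≠ 0 := by
    rintro rfl
    rw [zero_smul, smul_eq_zero] at h
    rcases h with h | h
    · exact ha h
    · exact hs.ne_zero h
  have h1 : a = b := by
    rw [← lead_smul hs ha, h, lead_smul ht hb]
  subst h1
  exact ⟨rfl, smul_right_injective _ ha h⟩

theorem mem_Ln_self (s : Fin n → K) (M : Point 𝕜 K →₀ ℤ) (v : Point 𝕜 K) :
    ((upow v (M v) : Kˣ) : K) • s ∈ Ln s M v :=
  ⟨_, (upow_val v (M v)).le, rfl⟩

theorem Ln_le {s t : Fin n → K} (hs : IsNorm s) (ht : IsNorm t) {M N : Point 𝕜 K →₀ ℤ}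
    {v : Point 𝕜 K} (h : Ln s M v ⊆ Ln t N v) : s = t ∧ M v ≤ N v := by
  obtain ⟨b, hb, hbs⟩ := h (mem_Ln_self s M v)
  obtain ⟨h1, h2⟩ := smul_eq hs ht (upow v (M v)).ne_zero hbs
  refine ⟨h2, ?_⟩
  rw [← h1, upow_val, exp_le_exp] at hb
  exact hb

theorem Ln_mono (s : Fin n → K) {M N : Point 𝕜 K →₀ ℤ} {v : Point 𝕜 K} (h : M v ≤ N v) :
    Ln s M v ⊆ Ln s N v := by
  rintro x ⟨a, ha, rfl⟩
  exact ⟨a, ha.trans (exp_le_exp.2 h), rfl⟩

theorem Ln_inj (hK : IsCurve 𝕜 K) {s t : Fin n → K} (hs : IsNorm s) (ht : IsNorm t)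
    {M N : Point 𝕜 K →₀ ℤ} (h : Ln s M = Ln t N) : s = t ∧ M = N := by
  obtain ⟨v⟩ := point_nonempty hK
  refine ⟨(Ln_le hs ht (congrFun h v).le).1, ?_⟩
  ext v
  exact le_antisymm (Ln_le hs ht (congrFun h v).le).2 (Ln_le ht hs (congrFun h v).ge).2

theorem rank_one (hK : IsCurve 𝕜 K) {d : ℤ} {F : Fam 𝕜 K n} (h : IsSheaf 1 d F) :
    ∃ (s : Fin n → K) (M : Point 𝕜 K →₀ ℤ), IsNorm s ∧ M.degree = d ∧ F = Ln s M := by
  obtain ⟨E, j, hj, hd, hF⟩ := id h
  set u : Fin 1 → K := fun _ => 1 with hu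
  have hu0 : u ≠ 0 := fun h0 => one_ne_zero (congrFun h0 0)
  have hxu : ∀ x : Fin 1 → K, x = x 0 • u := by
    intro x
    ext i
    rw [Subsingleton.elim i 0, Pi.smul_apply, hu, smul_eq_mul, mul_one]
  have hju : j u ≠ 0 := fun h0 => hu0 (hj (by rw [h0, map_zero]))
  set l := lead (j u) with hl
  have hl0 : l ≠ 0 := lead_ne_zero hju
  set s := l⁻¹ • j u with hs
  have hsj : j u = l • s := by rw [hs, smul_smul, mul_inv_cancel₀ hl0, one_smul]
  have hsn : IsNorm s := isNorm_lead hju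
  set M := vd hK E u - pdiv hK l with hM
  have hMv : ∀ v : Point 𝕜 K, M v = vord E v u - v.ord l := fun v => rfl
  have hval : ∀ (v : Point 𝕜 K) (a : K), a • u ∈ E.stalk v ↔ v.val (a * l) ≤ exp (M v) := by
    intro v a
    rw [mem_stalk_iff_nval, nval_smul, vord_eq E v hu0, map_mul, v.val_eq_exp hl0, hMv,
      exp_neg, mul_inv_le_iff₀ (by rw [zero_lt_iff]; exact exp_ne_zero), one_mul, sub_eq_add_neg,
      exp_add]
    exact (mul_le_mul_iff_left₀ (by rw [zero_lt_iff]; exact exp_ne_zero)).symm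
  have hFL : F = Ln s M := by
    funext v
    rw [hF]
    ext x
    constructor
    · rintro ⟨y, hy, rfl⟩
      rw [hxu y, hval] at hy
      refine ⟨y 0 * l, hy, ?_⟩
      rw [mul_smul, ← hsj, ← map_smul, ← hxu]
    · rintro ⟨a, ha, rfl⟩
      refine ⟨(a * l⁻¹) • u, ?_, ?_⟩
      · rw [hval, mul_assoc, inv_mul_cancel₀ hl0, mul_one]
        exact ha
      · rw [map_smul, hsj, smul_smul, mul_assoc, inv_mul_cancel₀ hl0, mul_one]
  refine ⟨s, M, hsn, ?_, hFL⟩
  subst hFL
  exact (unique hK (Ln_isSheaf hsn.ne_zero M) h).2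

theorem isNorm_vec (S : FD 𝕜 K) {s : Fin n → K} (hs : IsNorm s) : IsNorm (S.vec s) := by
  obtain ⟨i, hi, h⟩ := hs
  refine ⟨i, ?_, fun j hj => ?_⟩
  · rw [S.vec_apply, hi, map_one]
  · rw [S.vec_apply, h j hj, map_zero]

theorem Ln_stable (hK : IsCurve 𝕜 K) (S : FD 𝕜 K) {s : Fin n → K} (hs : IsNorm s)
    (M : Point 𝕜 K →₀ ℤ) :
    Stable S.ψ (Ln s M) ↔ S.vec s = s ∧ ∀ v, M (S.pt v) = M v := by
  rw [S.stable_iff]
  constructor
  · intro h
    have h1 : ∀ v, S.vec s = s ∧ M v ≤ M (S.pt v) := by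
      intro v
      have h2 := (h v _).1 (mem_Ln_self s M v)
      rw [S.vec_smul] at h2
      obtain ⟨b, hb, hbs⟩ := h2
      obtain ⟨h3, h4⟩ := smul_eq (isNorm_vec S hs) hs
        ((map_ne_zero S.ψ).2 (upow v (M v)).ne_zero) hbs
      refine ⟨h4, ?_⟩
      rw [← h3, S.pt_val, upow_val, exp_le_exp] at hb
      exact hb
    obtain ⟨v0⟩ := point_nonempty hK
    have hvec := (h1 v0).1
    refine ⟨hvec, fun v => le_antisymm ?_ (h1 v).2⟩
    have h2 := mem_Ln_self s M (S.pt v)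
    obtain ⟨b, hb⟩ := S.ψ.surjective ((upow (S.pt v) (M (S.pt v)) : Kˣ) : K)
    have hb0 : b ≠ 0 := by
      rintro rfl
      rw [map_zero] at hb
      exact (upow (S.pt v) (M (S.pt v))).ne_zero hb.symm
    have h3 : S.vec (b • s) ∈ Ln s M (S.pt v) := by
      rw [S.vec_smul, hvec, hb]
      exact h2
    rw [← h] at h3
    obtain ⟨c, hc, hcs⟩ := h3
    have h4 := (smul_eq hs hs hb0 hcs).1
    rw [← h4, ← S.pt_val, hb, upow_val, exp_le_exp] at hc
    exact hc
  · rintro ⟨hvec, hM⟩ v x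
    constructor
    · rintro ⟨a, ha, rfl⟩
      refine ⟨S.ψ a, ?_, ?_⟩
      · rw [S.pt_val, hM]
        exact ha
      · rw [S.vec_smul, hvec]
    · rintro ⟨b, hb, hbx⟩
      obtain ⟨a, rfl⟩ := S.ψ.surjective b
      rw [S.pt_val, hM] at hb
      refine ⟨a, hb, S.vec_injective ?_⟩
      rw [hbx, S.vec_smul, hvec]

/-! ### sums over families -/

theorem word_cons (ψ : K ≃+* K) (x : Gen) (w : List Gen) (G : Fam 𝕜 K n)
    {T : Set (Fam 𝕜 K n)} (hT : ∀ F, (Stable ψ F ∧ x.Quot F G) ↔ F ∈ T) (hfin : T.Finite) :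
    wordPoints ψ (x :: w) G = ∑ F ∈ hfin.toFinset, wordPoints ψ w F := by
  have h1 : wordPoints ψ (x :: w) G = ∑ᶠ F ∈ T, wordPoints ψ w F := by
    change (∑ᶠ (F : Fam 𝕜 K n) (_ : Stable ψ F ∧ x.Quot F G), wordPoints ψ w F) = _
    refine finsum_congr fun F => ?_
    have h2 : (Stable ψ F ∧ x.Quot F G) = (F ∈ T) := propext (hT F)
    rw [h2]
  rw [h1, finsum_mem_eq_finite_toFinset_sum _ hfin]

theorem word_cons_const (ψ : K ≃+* K) (x : Gen) (w : List Gen) (G : Fam 𝕜 K n)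
    {T : Set (Fam 𝕜 K n)} (hT : ∀ F, (Stable ψ F ∧ x.Quot F G) ↔ F ∈ T) (hfin : T.Finite)
    {N : ℕ} (hN : ∀ F ∈ T, wordPoints ψ w F = N) :
    wordPoints ψ (x :: w) G = T.ncard * N := by
  rw [word_cons ψ x w G hT hfin, Set.ncard_eq_toFinset_card _ hfin,
    Finset.sum_congr rfl fun F hF => hN F (hfin.mem_toFinset.1 hF), Finset.sum_const, smul_eq_mul]

theorem not_zero_Ln (hK : IsCurve 𝕜 K) {s : Fin n → K} (hs : IsNorm s) (M : Point 𝕜 K →₀ ℤ) :
    ¬ ∀ v, Ln s M v = {0} := by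
  intro h
  obtain ⟨v⟩ := point_nonempty hK
  have h1 := mem_Ln_self s M v
  rw [h v] at h1
  rcases smul_eq_zero.1 h1 with h2 | h2
  · exact (upow v (M v)).ne_zero h2
  · exact hs.ne_zero h2

theorem Z_stable (ψ : K ≃+* K) : Stable ψ (Z 𝕜 K n) := by
  intro v w _ s
  constructor
  · intro h
    have h1 : s = 0 := h
    rw [h1]
    change (fun i => ψ ((0 : Fin n → K) i)) = 0
    ext i
    simp
  · intro h
    have h1 : (fun i => ψ (s i)) = 0 := h
    change s = 0
    ext i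
    have := congrFun h1 i
    simpa using this

/-- the stable subsheaves of a line bundle correspond to stable effective divisors -/
theorem sub_Ln (hK : IsCurve 𝕜 K) (S : FD 𝕜 K) {s : Fin n → K} (hs : IsNorm s)
    (M : Point 𝕜 K →₀ ℤ) (hS : Stable S.ψ (Ln s M)) (k : ℕ) (F : Fam 𝕜 K n) :
    (Stable S.ψ F ∧ (Gen.tor k).Quot F (Ln s M)) ↔
      F ∈ (fun D : Point 𝕜 K →₀ ℕ => Ln s (M - zd D)) ''
        {D : Point 𝕜 K →₀ ℕ | (D.degree : ℤ) = k ∧ D.mapDomain S.pt = D} := by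
  have hS' := (Ln_stable hK S hs M).1 hS
  constructor
  · rintro ⟨hF, hsub, r', d', h1, h2⟩
    obtain ⟨h3, h4⟩ := unique hK h2 (Ln_isSheaf hs.ne_zero M)
    subst h3
    obtain ⟨t, N, ht, hN, rfl⟩ := rank_one hK h1
    obtain ⟨v0⟩ := point_nonempty hK
    have hts : t = s := (Ln_le ht hs (hsub v0)).1
    subst hts
    have hle : ∀ v, N v ≤ M v := fun v => (Ln_le ht ht (hsub v)).2
    have hF' := (Ln_stable hK S ht N).1 hF
    have hz : zd (nd (M - N)) = M - N := by
      apply zd_nd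
      intro v
      rw [Finsupp.sub_apply]
      have := hle v
      omega
    refine ⟨nd (M - N), ⟨?_, ?_⟩, ?_⟩
    · rw [← zd_degree, hz, map_sub, hN]
      omega
    · rw [mapDomain_pt_iff]
      intro v
      rw [nd_apply, nd_apply, Finsupp.sub_apply, Finsupp.sub_apply, hS'.2, hF'.2]
    · dsimp only
      rw [hz, sub_sub_cancel]
  · rintro ⟨D, ⟨hD1, hD2⟩, rfl⟩
    rw [mapDomain_pt_iff] at hD2
    refine ⟨?_, fun v => ?_, 1, M.degree - k, ?_, ?_⟩
    · rw [Ln_stable hK S hs]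
      refine ⟨hS'.1, fun v => ?_⟩
      rw [Finsupp.sub_apply, Finsupp.sub_apply, zd_apply, zd_apply, hD2, hS'.2]
    · apply Ln_mono
      rw [Finsupp.sub_apply, zd_apply]
      omega
    · have h1 := Ln_isSheaf hs.ne_zero (M - zd D)
      rwa [map_sub, zd_degree, hD1] at h1
    · rw [sub_add_cancel]
      exact Ln_isSheaf hs.ne_zero M

theorem sub_Ln_inj (hK : IsCurve 𝕜 K) {s : Fin n → K} (hs : IsNorm s) (M : Point 𝕜 K →₀ ℤ) :
    Function.Injective (fun D : Point 𝕜 K →₀ ℕ => Ln s (M - zd D)) := by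
  intro D D' h
  have h1 := (Ln_inj hK hs hs h).2
  have h2 : zd D = zd D' := sub_right_injective h1
  rw [← nd_zd D, h2, nd_zd]

/-- the value at a line bundle depends only on the degree -/
theorem rank_one_const (hK : IsCurve 𝕜 K) (S : FD 𝕜 K) (w : List Gen) :
    ∀ d : ℤ, ∃ N : ℕ, ∀ F : Fam 𝕜 K n, Stable S.ψ F → IsSheaf 1 d F →
      wordPoints S.ψ w F = N := by
  classical
  induction w with
  | nil =>
    intro d
    refine ⟨0, fun F _ h => ?_⟩
    obtain ⟨s, M, hs, -, rfl⟩ := rank_one hK h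
    change (if ∀ v, Ln s M v = {0} then 1 else 0) = 0
    rw [if_neg (not_zero_Ln hK hs M)]
  | cons x w ih =>
    intro d
    cases x with
    | tor k =>
      obtain ⟨N', hN'⟩ := ih (d - k)
      refine ⟨ND S k * N', fun F hF h => ?_⟩
      obtain ⟨s, M, hs, hd, rfl⟩ := rank_one hK h
      have hfin := (ND_finite hK S (k : ℤ)).image (fun D : Point 𝕜 K →₀ ℕ => Ln s (M - zd D))
      rw [word_cons_const S.ψ _ w _ (sub_Ln hK S hs M hF k) hfin (N := N') ?_]
      · rw [Set.ncard_image_of_injective _ (sub_Ln_inj hK hs M)]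
        rfl
      · intro F' hF'
        obtain ⟨h1, h2⟩ := (sub_Ln hK S hs M hF k F').2 hF'
        refine hN' F' h1 ?_
        obtain ⟨D, ⟨hD1, hD2⟩, rfl⟩ := hF'
        have h3 := Ln_isSheaf hs.ne_zero (M - zd D)
        rwa [map_sub, zd_degree, hD1, hd] at h3
    | bun l =>
      refine ⟨(if d = l then 1 else 0) * wordPoints S.ψ w (Z 𝕜 K n), fun F hF h => ?_⟩
      have hT : ∀ F' : Fam 𝕜 K n, (Stable S.ψ F' ∧ (Gen.bun l).Quot F' F) ↔
          F' ∈ (if d = l then {Z 𝕜 K n} else ∅ : Set (Fam 𝕜 K n)) := by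
        intro F'
        constructor
        · rintro ⟨h1, h2, ⟨r', d', h3, h4⟩, h5⟩
          obtain ⟨h6, h7⟩ := unique hK h4 h
          have h8 : r' = 0 := by omega
          subst h8
          obtain ⟨h9, h10⟩ := rank_zero hK h3
          rw [if_pos (by omega), h9]
          rfl
        · intro h1
          by_cases hdl : d = l
          · rw [if_pos hdl] at h1
            have h2 : F' = Z 𝕜 K n := h1
            subst h2
            subst hdl
            refine ⟨Z_stable S.ψ, fun v => ?_, ⟨0, 0, isSheaf_Z, ?_⟩, fun v s hs a ha has => ?_⟩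
            · obtain ⟨E, j, -, -, hE⟩ := h
              rintro x rfl
              rw [hE]
              exact ⟨0, stalk_zero, map_zero j⟩
            · rw [zero_add, zero_add]
              exact h
            · have h3 : a • s = 0 := has
              rcases smul_eq_zero.1 h3 with h4 | h4
              · exact absurd h4 ha
              · exact h4
          · rw [if_neg hdl] at h1
            exact absurd h1 (Set.notMem_empty _)
      by_cases hdl : d = l
      · rw [if_pos hdl] at hT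
        rw [word_cons_const S.ψ _ w F hT (Set.finite_singleton _)
          (N := wordPoints S.ψ w (Z 𝕜 K n)) ?_]
        · rw [if_pos hdl, Set.ncard_singleton]
        · rintro F' rfl
          rfl
      · rw [if_neg hdl] at hT
        rw [word_cons_const S.ψ _ w F hT Set.finite_empty (N := 0) ?_]
        · rw [if_neg hdl, zero_mul, mul_zero]
        · intro F' hF'
          exact absurd hF' (Set.notMem_empty _)

/-! ### rank two -/

theorem mem_Ln_vd (hK : IsCurve 𝕜 K) (E : Bundle 𝕜 K n) {s : Fin n → K} (hs : s ≠ 0)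
    (v : Point 𝕜 K) (a : K) : a • s ∈ E.stalk v ↔ v.val a ≤ exp (vd hK E s v) := by
  rw [mem_stalk_iff_nval, nval_smul, vord_eq E v hs, vd_apply, exp_neg,
    mul_inv_le_iff₀ (by rw [zero_lt_iff]; exact exp_ne_zero), one_mul]

/-- the stable saturated line subbundles -/
theorem sat_lines (hK : IsCurve 𝕜 K) (S : FD 𝕜 K) {E : Bundle 𝕜 K 2} (hE : Stable S.ψ E.stalk)
    (l : ℤ) (F : Fam 𝕜 K 2) :
    (Stable S.ψ F ∧ (Gen.bun l).Quot F E.stalk) ↔
      F ∈ (fun s : Fin 2 → K => Ln s (vd hK E s)) ''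
        {s : Fin 2 → K | IsNorm s ∧ S.vec s = s ∧ vdeg E s = E.degree - l} := by
  constructor
  · rintro ⟨hF, hsub, ⟨r', d', h1, h2⟩, hsat⟩
    obtain ⟨h3, h4⟩ := unique hK h2 (isSheaf_stalk E)
    have h5 : r' = 1 := by omega
    subst h5
    obtain ⟨s, M, hs, hM, rfl⟩ := rank_one hK h1
    have hMv : M = vd hK E s := by
      ext v
      apply le_antisymm
      · have h6 := hsub v (mem_Ln_self s M v)
        rw [mem_Ln_vd hK E hs.ne_zero, upow_val, exp_le_exp] at h6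
        exact h6
      · have h6 : ((upow v (vd hK E s v) : Kˣ) : K) • s ∈ E.stalk v := by
          rw [mem_Ln_vd hK E hs.ne_zero, upow_val]
        have h7 := hsat v _ h6 (((upow v (M v) : Kˣ) : K) * ((upow v (vd hK E s v) : Kˣ) : K)⁻¹)
          (mul_ne_zero (Units.ne_zero _) (inv_ne_zero (Units.ne_zero _))) (by
            rw [smul_smul, mul_assoc, inv_mul_cancel₀ (Units.ne_zero _), mul_one]
            exact mem_Ln_self s M v)
        obtain ⟨b, hb, hbs⟩ := h7
        have h8 := (smul_eq hs hs (Units.ne_zero _) hbs).1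
        rw [← h8, upow_val, exp_le_exp] at hb
        exact hb
    have hst := (Ln_stable hK S hs M).1 hF
    refine ⟨s, ⟨hs, hst.1, ?_⟩, ?_⟩
    · rw [← vd_degree hK, ← hMv, hM]
      omega
    · dsimp only
      rw [← hMv]
  · rintro ⟨s, ⟨hs, hvec, hdeg⟩, rfl⟩
    refine ⟨?_, fun v => ?_, ⟨1, E.degree - l, ?_, ?_⟩, fun v x hx a ha hax => ?_⟩
    · rw [Ln_stable hK S hs]
      refine ⟨hvec, fun v => ?_⟩
      rw [vd_apply, vd_apply, vord_pt S hE hvec]
    · rintro x ⟨a, ha, rfl⟩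
      rwa [mem_Ln_vd hK E hs.ne_zero]
    · have h1 := Ln_isSheaf hs.ne_zero (vd hK E s)
      rwa [vd_degree, hdeg] at h1
    · rw [sub_add_cancel]
      exact isSheaf_stalk E
    · obtain ⟨b, hb, hbs⟩ := hax
      have h1 : x = (a⁻¹ * b) • s := by
        rw [mul_smul, ← hbs, smul_smul, inv_mul_cancel₀ ha, one_smul]
      rw [h1] at hx ⊢
      rw [mem_Ln_vd hK E hs.ne_zero] at hx
      exact ⟨_, hx, rfl⟩

/-- the stable subsheaves of full rank -/
theorem full_sub (hK : IsCurve 𝕜 K) (S : FD 𝕜 K) (E : Bundle 𝕜 K 2) (k : ℕ) (F : Fam 𝕜 K 2) :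
    (Stable S.ψ F ∧ (Gen.tor k).Quot F E.stalk) ↔
      F ∈ {F : Fam 𝕜 K 2 | Stable S.ψ F ∧ (∀ v, F v ⊆ E.stalk v) ∧
          ∃ E' : Bundle 𝕜 K 2, E'.degree = E.degree - k ∧ F = E'.stalk} := by
  constructor
  · rintro ⟨hF, hsub, r', d', h1, h2⟩
    obtain ⟨h3, h4⟩ := unique hK h2 (isSheaf_stalk E)
    subst h3
    obtain ⟨E', h5, h6⟩ := full_rank hK h1
    exact ⟨hF, hsub, E', by omega, h6⟩
  · rintro ⟨hF, hsub, E', h5, rfl⟩
    refine ⟨hF, hsub, 2, E.degree - k, ?_, ?_⟩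
    · rw [← h5]
      exact isSheaf_stalk E'
    · rw [sub_add_cancel]
      exact isSheaf_stalk E

theorem vdeg_congr {E F : Bundle 𝕜 K n} (h : E.stalk = F.stalk) (s : Fin n → K) :
    vdeg E s = vdeg F s := by
  rw [vdeg, vdeg]
  refine finsum_congr fun v => ?_
  rw [vord, vord, nval_congr (congrFun h v)]

/-- the double counting -/
theorem hecke_sum (S : FD 𝕜 K) (E : Bundle 𝕜 K 2)
    (hlines : ∀ b : ℤ, {s : Fin 2 → K | IsNorm s ∧ S.vec s = s ∧ vdeg E s = b}.Finite)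
    (k : ℕ) (H : ℤ → ℕ) (hH0 : ∀ j, j < 0 ∨ (k : ℤ) < j → H j = 0)
    (hfin : {F : Fam 𝕜 K 2 | Stable S.ψ F ∧ (∀ v, F v ⊆ E.stalk v) ∧
          ∃ E' : Bundle 𝕜 K 2, E'.degree = E.degree - k ∧ F = E'.stalk}.Finite)
    (hcount : ∀ s : Fin 2 → K, s ≠ 0 → S.vec s = s → ∀ j : ℤ,
          {F : Fam 𝕜 K 2 | Stable S.ψ F ∧ (∀ v, F v ⊆ E.stalk v) ∧
            ∃ E' : Bundle 𝕜 K 2, E'.degree = E.degree - k ∧ F = E'.stalk ∧
              vdeg E' s = vdeg E s - j}.ncard = H j)
    (ch : Fam 𝕜 K 2 → Bundle 𝕜 K 2) (hch : ∀ F ∈ hfin.toFinset, F = (ch F).stalk)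
    (b : ℤ) :
    ∑ F ∈ hfin.toFinset, nb S (ch F) b = ∑ j ∈ Finset.range (k + 1), H j * nb S E (b + j) := by
  classical
  set U : Finset (Fin 2 → K) := (Finset.range (k + 1)).biUnion fun j => (hlines (b + j)).toFinset
    with hU
  have hmemU : ∀ s, s ∈ U ↔ IsNorm s ∧ S.vec s = s ∧ ∃ j : ℕ, j < k + 1 ∧ vdeg E s = b + j := by
    intro s
    rw [hU, Finset.mem_biUnion]
    constructor
    · rintro ⟨j, hj, hs⟩
      rw [Finset.mem_range] at hj
      rw [Set.Finite.mem_toFinset] at hs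
      exact ⟨hs.1, hs.2.1, j, hj, hs.2.2⟩
    · rintro ⟨h1, h2, j, hj, h3⟩
      refine ⟨j, Finset.mem_range.2 hj, ?_⟩
      rw [Set.Finite.mem_toFinset]
      exact ⟨h1, h2, h3⟩
  have hset : ∀ (s : Fin 2 → K) (j : ℤ), {F : Fam 𝕜 K 2 | Stable S.ψ F ∧
        (∀ v, F v ⊆ E.stalk v) ∧ ∃ E' : Bundle 𝕜 K 2, E'.degree = E.degree - k ∧ F = E'.stalk ∧
        vdeg E' s = vdeg E s - j} =
      ((hfin.toFinset.filter fun F => vdeg (ch F) s = vdeg E s - j : Finset _) : Set _) := by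
    intro s j
    ext F
    rw [Finset.coe_filter]
    constructor
    · rintro ⟨h1, h2, E', h3, h4, h5⟩
      have hF : F ∈ hfin.toFinset := hfin.mem_toFinset.2 ⟨h1, h2, E', h3, h4⟩
      refine ⟨hF, ?_⟩
      rw [← h5]
      exact vdeg_congr ((hch F hF).symm.trans h4) s
    · rintro ⟨hF, h5⟩
      obtain ⟨h1, h2, E', h3, h4⟩ := hfin.mem_toFinset.1 hF
      refine ⟨h1, h2, E', h3, h4, ?_⟩
      rw [← h5]
      exact vdeg_congr (h4.symm.trans (hch F hF)) s
  have hcount' : ∀ s : Fin 2 → K, IsNorm s → S.vec s = s → ∀ j : ℤ,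
      (hfin.toFinset.filter fun F => vdeg (ch F) s = vdeg E s - j).card = H j := by
    intro s hs hv j
    rw [← hcount s hs.ne_zero hv j, hset, Set.ncard_coe_finset]
  -- the lines of degree `b` in the subsheaves
  have h1 : ∀ F ∈ hfin.toFinset, nb S (ch F) b = (U.filter fun s => vdeg (ch F) s = b).card := by
    intro F hF
    rw [nb, ← Set.ncard_coe_finset]
    congr 1
    ext s
    rw [Finset.coe_filter]
    constructor
    · rintro ⟨h1, h2, h3⟩
      refine ⟨(hmemU s).2 ⟨h1, h2, ?_⟩, h3⟩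
      have h4 := hcount' s h1 h2 (vdeg E s - b)
      have h5 : F ∈ hfin.toFinset.filter fun F => vdeg (ch F) s = vdeg E s - (vdeg E s - b) := by
        rw [Finset.mem_filter]
        exact ⟨hF, by omega⟩
      have h6 : 0 < H (vdeg E s - b) := by
        rw [← h4]
        exact Finset.card_pos.2 ⟨F, h5⟩
      have h7 : ¬ (vdeg E s - b < 0 ∨ (k : ℤ) < vdeg E s - b) := by
        intro h8
        rw [hH0 _ h8] at h6
        exact lt_irrefl _ h6
      push Not at h7
      exact ⟨(vdeg E s - b).toNat, by omega, by omega⟩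
    · rintro ⟨h1, h3⟩
      obtain ⟨h4, h5, -⟩ := (hmemU s).1 h1
      exact ⟨h4, h5, h3⟩
  rw [Finset.sum_congr rfl h1]
  have h2 : ∑ F ∈ hfin.toFinset, (U.filter fun s => vdeg (ch F) s = b).card =
      ∑ s ∈ U, (hfin.toFinset.filter fun F => vdeg (ch F) s = b).card := by
    simp only [Finset.card_filter]
    exact Finset.sum_comm
  rw [h2]
  have h3 : ∀ s ∈ U, (hfin.toFinset.filter fun F => vdeg (ch F) s = b).card =
      H (vdeg E s - b) := by
    intro s hs
    obtain ⟨h4, h5, -⟩ := (hmemU s).1 hs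
    rw [← hcount' s h4 h5, sub_sub_cancel]
  rw [Finset.sum_congr rfl h3, hU, Finset.sum_biUnion]
  · refine Finset.sum_congr rfl fun j _ => ?_
    have h4 : ∀ s ∈ (hlines (b + j)).toFinset, H (vdeg E s - b) = H j := by
      intro s hs
      rw [Set.Finite.mem_toFinset] at hs
      rw [hs.2.2, add_sub_cancel_left]
    rw [Finset.sum_congr rfl h4, Finset.sum_const, smul_eq_mul, nb,
      Set.ncard_eq_toFinset_card _ (hlines (b + j)), mul_comm]
  · intro i _ j _ hij
    rw [Function.onFun, Finset.disjoint_left]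
    intro s hi hj
    rw [Set.Finite.mem_toFinset] at hi hj
    have h4 := hi.2.2
    have h5 := hj.2.2
    apply hij
    omega

end J383

variable {𝕜 K : Type} [Field 𝕜] [IsAlgClosed 𝕜] [Field K] [Algebra 𝕜 K]

open J383 in
theorem word_formula (hK : IsCurve 𝕜 K)
    (hpts : ∀ S : FD 𝕜 K, {v : Point 𝕜 K | S.pt v = v}.Finite)
    (hlines : ∀ (S : FD 𝕜 K) (E : Bundle 𝕜 K 2) (b : ℤ), Stable S.ψ E.stalk →
      {s : Fin 2 → K | IsNorm s ∧ S.vec s = s ∧ vdeg E s = b}.Finite)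
    (hH : ∀ (S : FD 𝕜 K) (k : ℕ), ∃ H : ℤ → ℕ, (∀ j, j < 0 ∨ (k : ℤ) < j → H j = 0) ∧
      ∀ G : Bundle 𝕜 K 2, Stable S.ψ G.stalk →
        {F : Fam 𝕜 K 2 | Stable S.ψ F ∧ (∀ v, F v ⊆ G.stalk v) ∧
          ∃ E : Bundle 𝕜 K 2, E.degree = G.degree - k ∧ F = E.stalk}.Finite ∧
        ∀ s : Fin 2 → K, s ≠ 0 → S.vec s = s → ∀ j : ℤ,
          {F : Fam 𝕜 K 2 | Stable S.ψ F ∧ (∀ v, F v ⊆ G.stalk v) ∧
            ∃ E : Bundle 𝕜 K 2, E.degree = G.degree - k ∧ F = E.stalk ∧
              vdeg E s = vdeg G s - j}.ncard = H j)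
    (w : List Gen) (d : ℤ) :
    ∃ B : Finset ℤ, ∀ S : FD 𝕜 K, ∃ c : ℤ → ℕ, ∀ E : Bundle 𝕜 K 2, E.degree = d →
      Stable S.ψ E.stalk → wordPoints S.ψ w E.stalk = ∑ b ∈ B, c b * nb S E b := by
  classical
  induction w generalizing d with
  | nil =>
    refine ⟨∅, fun S => ⟨fun _ => 0, fun E _ _ => ?_⟩⟩
    rw [Finset.sum_empty]
    change (if ∀ v, E.stalk v = {0} then 1 else 0) = 0
    rw [if_neg]
    intro h
    obtain ⟨v⟩ := point_nonempty hK
    obtain ⟨a, ha, h1⟩ := exists_smul_mem E v ![1, 0]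
    rw [h v] at h1
    rcases smul_eq_zero.1 h1 with h2 | h2
    · exact ha h2
    · exact one_ne_zero (congrFun h2 0)
  | cons x w ih =>
    cases x with
    | bun l =>
      refine ⟨{d - l}, fun S => ?_⟩
      obtain ⟨N, hN⟩ := rank_one_const (n := 2) hK S w (d - l)
      refine ⟨fun _ => N, fun E hd hE => ?_⟩
      subst hd
      have hfin := (hlines S E (E.degree - l) hE).image (fun s : Fin 2 → K => Ln s (vd hK E s))
      rw [word_cons_const S.ψ _ w _ (sat_lines hK S hE l) hfin (N := N) ?_, Finset.sum_singleton,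
        mul_comm]
      · congr 1
        rw [Set.InjOn.ncard_image]
        · rfl
        · rintro s ⟨hs, -⟩ t ⟨ht, -⟩ hst
          exact (Ln_inj hK hs ht hst).1
      · rintro F hF
        have h1 := ((sat_lines hK S hE l F).2 hF).1
        refine hN F h1 ?_
        obtain ⟨s, ⟨hs, hvec, hdeg⟩, rfl⟩ := hF
        have h2 := Ln_isSheaf hs.ne_zero (vd hK E s)
        rwa [vd_degree, hdeg] at h2
    | tor k =>
      obtain ⟨B', hB'⟩ := ih (d - k)
      refine ⟨(B' ×ˢ Finset.range (k + 1)).image fun p => p.1 + (p.2 : ℤ), fun S => ?_⟩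
      obtain ⟨c', hc'⟩ := hB' S
      obtain ⟨H, hH0, hH1⟩ := hH S k
      refine ⟨fun b => ∑ p ∈ (B' ×ˢ Finset.range (k + 1)).filter fun p => p.1 + (p.2 : ℤ) = b,
        c' p.1 * H p.2, fun E hd hE => ?_⟩
      subst hd
      obtain ⟨hfin, hcount⟩ := hH1 E hE
      set ch : Fam 𝕜 K 2 → Bundle 𝕜 K 2 := fun F =>
        if h : ∃ E' : Bundle 𝕜 K 2, F = E'.stalk then h.choose else E with hchdef
      have hch0 : ∀ F : Fam 𝕜 K 2, (∃ E' : Bundle 𝕜 K 2, F = E'.stalk) → F = (ch F).stalk := by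
        intro F h
        have h1 : ch F = h.choose := by
          rw [hchdef]
          exact dif_pos h
        rw [h1]
        exact h.choose_spec
      have hch : ∀ F ∈ hfin.toFinset, F = (ch F).stalk := by
        intro F hF
        obtain ⟨h1, h2, E', h3, h4⟩ := hfin.mem_toFinset.1 hF
        exact hch0 F ⟨E', h4⟩
      rw [word_cons S.ψ _ w _ (full_sub hK S E k) hfin]
      have h1 : ∀ F ∈ hfin.toFinset, wordPoints S.ψ w F = ∑ b ∈ B', c' b * nb S (ch F) b := by
        intro F hF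
        have hF1 := hch F hF
        obtain ⟨h1, h2, E', h3, h4⟩ := hfin.mem_toFinset.1 hF
        have hdeg : (ch F).degree = E.degree - k := by
          have h6 : IsSheaf 2 E'.degree (ch F).stalk := by
            rw [← hF1, h4]
            exact isSheaf_stalk E'
          rw [← h3]
          exact (unique hK (isSheaf_stalk (ch F)) h6).2
        have h5 := hc' (ch F) hdeg (by rw [← hF1]; exact h1)
        rw [← h5]
        conv_lhs => rw [hF1]
      rw [Finset.sum_congr rfl h1, Finset.sum_comm]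
      have h2 : ∀ b ∈ B', ∑ F ∈ hfin.toFinset, c' b * nb S (ch F) b =
          ∑ j ∈ Finset.range (k + 1), c' b * H j * nb S E (b + j) := by
        intro b _
        rw [← Finset.mul_sum, hecke_sum S E (fun b => hlines S E b hE) k H hH0 hfin hcount ch hch b,
          Finset.mul_sum]
        refine Finset.sum_congr rfl fun j _ => ?_
        rw [mul_assoc]
      rw [Finset.sum_congr rfl h2, ← Finset.sum_product',
        ← Finset.sum_fiberwise_of_maps_to
          (fun p hp => Finset.mem_image_of_mem (fun p : ℤ × ℕ => p.1 + (p.2 : ℤ)) hp)]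
      refine Finset.sum_congr rfl fun b _ => ?_
      rw [Finset.sum_mul]
      refine Finset.sum_congr rfl fun p hp => ?_
      rw [(Finset.mem_filter.1 hp).2]

end Pool.Agent.TH185
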