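import Pool.Agent.TH185.Basic
import Pool.Agent.TH185.C.Duality
import Pool.Agent.TH126.KG.Frob

/-!
# KAC-8: curves of every genus `g ≥ 2` with a Frobenius structure

The curves are `y ^ 2 + y = x ^ (2 g + 1)` over the algebraic closure of `𝔽_2`.
-/

open scoped WithZero Matrix

namespace Pool.Agent.TH185

open Pool.Agent.TH185.C

theorem exists_curve (g : ℕ) (hg : 2 ≤ g) :
    ∃ (𝕜 K : Type) (_ : Field 𝕜) (_ : Field K) (_ : Algebra 𝕜 K), IsAlgClosed 𝕜 ∧ CharP 𝕜 2 ∧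
      IsCurve 𝕜 K ∧ genus 𝕜 K = g ∧ Nonempty (FrobeniusStructure 𝕜 K 2) := by
  have h2 : CharP (AlgebraicClosure (ZMod 2)) 2 := charP_of_injective_algebraMap
    (algebraMap (ZMod 2) (AlgebraicClosure (ZMod 2))).injective 2
  exact ⟨AlgebraicClosure (ZMod 2), TH126.KG.AK (AlgebraicClosure (ZMod 2)) g, inferInstance,
    inferInstance, inferInstance, inferInstance, h2, TH126.KG.AK_isCurve _ g,
    TH126.KG.AK_genus _ g, ⟨TH126.KG.frobStr g⟩⟩

end Pool.Agent.TH185
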