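import Pool.Agent.TH490.StmF

/-!
# MP325-RG: geometry of the blocks of a pool
-/

set_option autoImplicit false

namespace Pool.Agent.TH126.RG

open Finset Classical
open Pool.Agent.TH490

/-! ### vectors -/

lemma cr0 {a b : V3} : cr a b = 0 ↔ (a 1 * b 2 - a 2 * b 1 = 0 ∧ a 2 * b 0 - a 0 * b 2 = 0 ∧
    a 0 * b 1 - a 1 * b 0 = 0) := by
  constructor
  · intro h
    exact ⟨congrFun h 0, congrFun h 1, congrFun h 2⟩
  · rintro ⟨h0, h1, h2⟩
    funext i
    fin_cases i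
    · exact h0
    · exact h1
    · exact h2

lemma ne0 {a : V3} (h : a ≠ 0) : a 0 ≠ 0 ∨ a 1 ≠ 0 ∨ a 2 ≠ 0 := by
  by_contra hc
  push Not at hc
  apply h
  funext i
  fin_cases i
  · exact hc.1
  · exact hc.2.1
  · exact hc.2.2

lemma par_trans {c a b : V3} (hc : c ≠ 0) (h1 : cr c a = 0) (h2 : cr c b = 0) : cr a b = 0 := by
  rw [cr0] at *
  obtain ⟨p0, p1, p2⟩ := h1
  obtain ⟨q0, q1, q2⟩ := h2
  rcases ne0 hc with h | h | h
  · refine ⟨mul_left_cancel₀ h ?_, mul_left_cancel₀ h ?_, mul_left_cancel₀ h ?_⟩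
    · linear_combination b 2 * p2 + b 1 * p1 + a 0 * q0
    · linear_combination (-b 0) * p1 + a 0 * q1
    · linear_combination a 0 * q2 - b 0 * p2
  · refine ⟨mul_left_cancel₀ h ?_, mul_left_cancel₀ h ?_, mul_left_cancel₀ h ?_⟩
    · linear_combination a 1 * q0 - b 1 * p0
    · linear_combination b 0 * p0 + b 2 * p2 + a 1 * q1
    · linear_combination (-b 1) * p2 + a 1 * q2
  · refine ⟨mul_left_cancel₀ h ?_, mul_left_cancel₀ h ?_, mul_left_cancel₀ h ?_⟩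
    · linear_combination (-b 2) * p0 + a 2 * q0
    · linear_combination a 2 * q1 - b 2 * p1
    · linear_combination b 1 * p1 + b 0 * p0 + a 2 * q2

lemma orth_par {u w a : V3} (h1 : dot a u = 0) (h2 : dot a w = 0) : cr (cr u w) a = 0 := by
  rw [cr0]
  unfold dot at h1 h2
  simp only [cr, Matrix.cons_val_zero, Matrix.cons_val_one, Matrix.cons_val]
  refine ⟨?_, ?_, ?_⟩
  · linear_combination w 0 * h1 - u 0 * h2
  · linear_combination w 1 * h1 - u 1 * h2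
  · linear_combination w 2 * h1 - u 2 * h2

lemma par_of_orth {u w a b : V3} (h : cr u w ≠ 0) (a1 : dot a u = 0) (a2 : dot a w = 0)
    (b1 : dot b u = 0) (b2 : dot b w = 0) : cr a b = 0 :=
  par_trans h (orth_par a1 a2) (orth_par b1 b2)

lemma det_zero {ν u v w : V3} (hν : ν ≠ 0) (h1 : dot ν u = 0) (h2 : dot ν v = 0)
    (h3 : dot ν w = 0) : dot (cr u v) w = 0 := by
  have h := orth_par h1 h2
  rw [cr0] at h
  obtain ⟨p0, p1, p2⟩ := h
  unfold dot at h3 ⊢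
  rcases ne0 hν with h | h | h
  · apply mul_left_cancel₀ h
    linear_combination (cr u v 0) * h3 - w 1 * p2 + w 2 * p1
  · apply mul_left_cancel₀ h
    linear_combination (cr u v 1) * h3 - w 2 * p0 + w 0 * p2
  · apply mul_left_cancel₀ h
    linear_combination (cr u v 2) * h3 - w 0 * p1 + w 1 * p0

lemma prim_ne {a : V3} (h : Prim a) : a ≠ 0 := by
  rintro rfl
  unfold Prim cont at h
  simp at h

lemma prim_par {a b : V3} (ha : Prim a) (hb : Prim b) (h : cr a b = 0) : b = a ∨ b = -a := by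
  rw [cr0] at h
  obtain ⟨p0, p1, p2⟩ := h
  have hbez : ∃ x y z : ℤ, x * a 0 + y * a 1 + z * a 2 = 1 := by
    have h1 : IsCoprime (a 0) ((Int.gcd (a 1) (a 2) : ℕ) : ℤ) := by
      rw [Int.isCoprime_iff_gcd_eq_one]
      exact ha
    obtain ⟨s, t, hst⟩ := h1
    rw [Int.gcd_eq_gcd_ab] at hst
    exact ⟨s, t * Int.gcdA (a 1) (a 2), t * Int.gcdB (a 1) (a 2), by linear_combination hst⟩
  obtain ⟨x, y, z, hxyz⟩ := hbez
  obtain ⟨T, hT⟩ : ∃ T : ℤ, T = x * b 0 + y * b 1 + z * b 2 := ⟨_, rfl⟩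
  have e0 : b 0 = a 0 * T := by
    rw [hT]; linear_combination (-b 0) * hxyz + y * (-p2) + z * p1
  have e1 : b 1 = a 1 * T := by
    rw [hT]; linear_combination (-b 1) * hxyz + x * p2 - z * p0
  have e2 : b 2 = a 2 * T := by
    rw [hT]; linear_combination (-b 2) * hxyz - x * p1 + y * p0
  have hdvd : T.natAbs ∣ cont b := by
    unfold cont
    refine Nat.dvd_gcd ?_ (Nat.dvd_gcd ?_ ?_)
    · rw [e0, Int.natAbs_mul]; exact Dvd.intro_left _ rfl
    · rw [e1, Int.natAbs_mul]; exact Dvd.intro_left _ rfl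
    · rw [e2, Int.natAbs_mul]; exact Dvd.intro_left _ rfl
  rw [show cont b = 1 from hb, Nat.dvd_one, Int.natAbs_eq_iff] at hdvd
  rcases hdvd with h | h
  · left
    funext i
    fin_cases i
    · change b 0 = a 0; rw [e0, h]; simp
    · change b 1 = a 1; rw [e1, h]; simp
    · change b 2 = a 2; rw [e2, h]; simp
  · right
    funext i
    fin_cases i
    · change b 0 = -a 0; rw [e0, h]; simp
    · change b 1 = -a 1; rw [e1, h]; simp
    · change b 2 = -a 2; rw [e2, h]; simp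

lemma nrm_neg (a : V3) : nrm (-a) = nrm a := by
  unfold nrm
  simp

lemma dot_sub (a u v : V3) : dot a (u - v) = dot a u - dot a v := by
  unfold dot
  simp only [Pi.sub_apply]
  ring

lemma dot_neg_left (a u : V3) : dot (-a) u = -dot a u := by
  unfold dot
  simp only [Pi.neg_apply]
  ring

/-- the primitive vector in a direction -/
lemma exists_prim {c : V3} (hc : c ≠ 0) : ∃ ν : V3, Prim ν ∧ ∃ g : ℤ, g ≠ 0 ∧ c = g • ν := by
  have hg : 0 < cont c := by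
    rw [Nat.pos_iff_ne_zero]
    intro h
    unfold cont at h
    rw [Nat.gcd_eq_zero_iff, Nat.gcd_eq_zero_iff] at h
    simp only [Int.natAbs_eq_zero] at h
    apply hc
    funext i
    fin_cases i
    · exact h.1
    · exact h.2.1
    · exact h.2.2
  have d0 : (cont c : ℤ) ∣ c 0 := by
    rw [Int.natCast_dvd]
    exact Nat.gcd_dvd_left _ _
  have d1 : (cont c : ℤ) ∣ c 1 := by
    rw [Int.natCast_dvd]
    exact (Nat.gcd_dvd_right _ _).trans (Nat.gcd_dvd_left _ _)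
  have d2 : (cont c : ℤ) ∣ c 2 := by
    rw [Int.natCast_dvd]
    exact (Nat.gcd_dvd_right _ _).trans (Nat.gcd_dvd_right _ _)
  obtain ⟨x, hx⟩ := d0
  obtain ⟨y, hy⟩ := d1
  obtain ⟨z, hz⟩ := d2
  refine ⟨![x, y, z], ?_, (cont c : ℤ), by exact_mod_cast hg.ne', ?_⟩
  · have h1 : cont c = cont c * cont ![x, y, z] := by
      conv_lhs => rw [cont, hx, hy, hz]
      rw [Int.natAbs_mul, Int.natAbs_mul, Int.natAbs_mul, Int.natAbs_natCast, Nat.gcd_mul_left,
        Nat.gcd_mul_left]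
      rfl
    have h2 : cont c * 1 = cont c * cont ![x, y, z] := by rw [mul_one]; exact h1
    exact (Nat.eq_of_mul_eq_mul_left hg h2).symm
  · funext i
    fin_cases i
    · exact hx
    · exact hy
    · exact hz

/-! ### tuples -/

lemma inj_cons {α : Type} {n : ℕ} {a : α} {v : Fin n → α} (h : ∀ i, v i ≠ a)
    (hv : Function.Injective v) : Function.Injective (Matrix.vecCons a v) := by
  have h1 : Function.Injective (Fin.cons a v : Fin (n + 1) → α) := by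
    rw [Fin.cons_injective_iff]
    exact ⟨fun ⟨i, hi⟩ => h i hi, hv⟩
  exact h1

lemma inj_nil {α : Type} : Function.Injective (![] : Fin 0 → α) := fun i => i.elim0

section

variable {I : Type} [Fintype I] {N M Q : ℕ} {f : I → Pos N} {Z : Finset I}

lemma bad_mem {q : ℕ} {T : (Fin q → Pos N) → Prop} (hsub : BadTup q T f ⊆ Z) (τ : Fin q → I)
    (hτ : Function.Injective τ) (hT : T (fun j => f (τ j))) (j : Fin q) : τ j ∈ Z := by
  apply hsub
  unfold BadTup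
  rw [mem_filter]
  exact ⟨mem_univ _, τ, hτ, ⟨j, rfl⟩, hT⟩

/-- the bad tuples are in `Z` -/
structure Good (M : ℕ) (f : I → Pos N) (Z : Finset I) : Prop where
  eq2 : BadTup 2 (fun t => t 0 = t 1) f ⊆ Z
  col3 : BadTup 3 (fun t => Col (t 0) (t 1) (t 2)) f ⊆ Z
  ll : BadTup 6 (TLL M) f ⊆ Z
  ls : BadTup 4 (TLS M) f ⊆ Z
  ss : BadTup 2 (TSS M) f ⊆ Z
  sss : BadTup 3 (TSSS M) f ⊆ Z
  lss : BadTup 5 (TLSS M) f ⊆ Z
  lls : BadTup 7 (TLLS M) f ⊆ Z
  lll : BadTup 9 (TLLL M) f ⊆ Z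

lemma good_of (h : Zg M Q f ⊆ Z) : Good M f Z := by
  unfold Zg at h
  simp only [union_subset_iff] at h
  obtain ⟨⟨⟨⟨⟨⟨⟨⟨⟨h1, h2⟩, h3⟩, h4⟩, h5⟩, h6⟩, h7⟩, h8⟩, h9⟩, -⟩ := h
  exact ⟨h1, h2, h3, h4, h5, h6, h7, h8, h9⟩

lemma Good.inj (G : Good M f Z) {x y : I} (hx : x ∉ Z) (h : f x = f y) : x = y := by
  by_contra hxy
  exact hx (bad_mem G.eq2 ![x, y] (inj_cons (by simpa using Ne.symm hxy)
    (inj_cons (fun i => i.elim0) inj_nil)) h 0)

lemma Good.nocol (G : Good M f Z) {x y z : I} (hx : x ∉ Z) (hxy : x ≠ y) (hxz : x ≠ z)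
    (hyz : y ≠ z) : ¬ Col (f x) (f y) (f z) := by
  intro h
  refine hx (bad_mem G.col3 ![x, y, z] ?_ h 0)
  refine inj_cons ?_ (inj_cons ?_ (inj_cons (fun i => i.elim0) inj_nil))
  · simp only [Fin.forall_fin_succ]
    exact ⟨hxy.symm, hxz.symm, fun i => i.elim0⟩
  · simp only [Fin.forall_fin_succ]
    exact ⟨hyz.symm, fun i => i.elim0⟩

/-- a block with its plane -/
structure PB (f : I → Pos N) (Z : Finset I) (ν : V3) (e : ℤ) (S : Finset I) : Prop where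
  card : 4 ≤ S.card
  prim : Prim ν
  eq : S = inPlane f Z ν e

lemma blk_iff {S : Finset I} : Blk f Z S ↔ ∃ ν e, PB f Z ν e S :=
  ⟨fun ⟨h1, ν, e, h2, h3⟩ => ⟨ν, e, h1, h2, h3⟩, fun ⟨ν, e, h1, h2, h3⟩ => ⟨h1, ν, e, h2, h3⟩⟩

lemma mem_inPlane {ν : V3} {e : ℤ} {x : I} :
    x ∈ inPlane f Z ν e ↔ x ∉ Z ∧ dot ν (toZ (f x)) = e := by
  unfold inPlane
  rw [mem_filter]
  exact ⟨fun h => h.2, fun h => ⟨mem_univ _, h⟩⟩

variable {ν ν' : V3} {e e' : ℤ} {S S' : Finset I}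

lemma PB.notMem (h : PB f Z ν e S) {x : I} (hx : x ∈ S) : x ∉ Z := by
  rw [h.eq] at hx
  exact (mem_inPlane.1 hx).1

lemma PB.orth (h : PB f Z ν e S) {x y : I} (hx : x ∈ S) (hy : y ∈ S) :
    dot ν (toZ (f y) - toZ (f x)) = 0 := by
  rw [h.eq] at hx hy
  rw [dot_sub, (mem_inPlane.1 hx).2, (mem_inPlane.1 hy).2, sub_self]

lemma PB.same (h : PB f Z ν e S) (h' : PB f Z ν' e' S') (hp : cr ν ν' = 0) {x : I}
    (hx : x ∈ S) (hx' : x ∈ S') : S = S' := by
  have e1 := hx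
  have e2 := hx'
  rw [h.eq] at e1
  rw [h'.eq] at e2
  have e3 := (mem_inPlane.1 e1).2
  have e4 := (mem_inPlane.1 e2).2
  rcases prim_par h.prim h'.prim hp with h1 | h1
  · rw [h.eq, h'.eq, ← e3, ← e4, h1]
  · rw [h.eq, h'.eq, ← e3, ← e4, h1]
    ext y
    rw [mem_inPlane, mem_inPlane, dot_neg_left, dot_neg_left, neg_inj]

lemma Good.three (G : Good M f Z) (h : PB f Z ν e S) (h' : PB f Z ν' e' S') {x y z : I}
    (hx : x ∈ S) (hy : y ∈ S) (hz : z ∈ S) (hx' : x ∈ S') (hy' : y ∈ S') (hz' : z ∈ S')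
    (hxy : x ≠ y) (hxz : x ≠ z) (hyz : y ≠ z) : S = S' :=
  h.same h' (par_of_orth (G.nocol (h.notMem hx) hxy hxz hyz) (h.orth hx hy) (h.orth hx hz)
    (h'.orth hx' hy') (h'.orth hx' hz')) hx hx'

lemma two_more (h : 4 ≤ S.card) (x y : I) : ∃ a b, a ∈ S ∧ b ∈ S ∧ a ≠ x ∧ a ≠ y ∧ b ≠ x ∧
    b ≠ y ∧ a ≠ b := by
  have h1 : 1 < (S \ {x, y}).card := by
    have h2 := le_card_sdiff ({x, y} : Finset I) S
    have h3 : ({x, y} : Finset I).card ≤ 2 := card_le_two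
    omega
  obtain ⟨a, ha, b, hb, hab⟩ := one_lt_card.1 h1
  simp only [mem_sdiff, mem_insert, mem_singleton, not_or] at ha hb
  exact ⟨a, b, ha.1, hb.1, ha.2.1, ha.2.2, hb.2.1, hb.2.2, hab⟩

lemma Good.lcop (G : Good M f Z) (h : PB f Z ν e S) (hM : M < nrm ν) {x y a b : I}
    (hx : x ∈ S) (hy : y ∈ S) (ha : a ∈ S) (hb : b ∈ S) (hxy : x ≠ y) (hxa : x ≠ a)
    (hya : y ≠ a) : LCop M (f x) (f y) (f a) (f b) := by
  refine ⟨det_zero (prim_ne h.prim) (h.orth hx hy) (h.orth hx ha) (h.orth hx hb),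
    G.nocol (h.notMem hx) hxy hxa hya, ?_⟩
  rintro ⟨c, c1, c2, c3, c4, -⟩
  have h1 : cr ν c = 0 := par_of_orth (G.nocol (h.notMem hx) hxy hxa hya) (h.orth hx hy)
    (h.orth hx ha) c3 c4
  rcases prim_par h.prim c1 h1 with h2 | h2
  · rw [h2] at c2; omega
  · rw [h2, nrm_neg] at c2; omega

lemma PB.rs (h : PB f Z ν e S) (hM : nrm ν ≤ M) {x y : I} (hx : x ∈ S) (hy : y ∈ S) :
    RS M (f x) (f y) := ⟨ν, h.prim, hM, h.orth hx hy⟩

lemma Good.ls' (G : Good M f Z) (h : PB f Z ν e S) (h' : PB f Z ν' e' S') (hM : M < nrm ν)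
    (hM' : nrm ν' ≤ M) {x y : I} (hx : x ∈ S) (hy : y ∈ S) (hx' : x ∈ S') (hy' : y ∈ S')
    (hxy : x ≠ y) : False := by
  obtain ⟨a, b, ha, hb, ax, ay, bx, bY, ab⟩ := two_more h.card x y
  refine h.notMem hx (bad_mem G.ls ![x, y, a, b] ?_
    ⟨G.lcop h hM hx hy ha hb hxy ax.symm ay.symm, h'.rs hM' hx' hy'⟩ 0)
  refine inj_cons ?_ (inj_cons ?_ (inj_cons ?_ (inj_cons (fun i => i.elim0) inj_nil)))
  · simp only [Fin.forall_fin_succ]
    exact ⟨hxy.symm, ax, bx, fun i => i.elim0⟩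
  · simp only [Fin.forall_fin_succ]
    exact ⟨ay, bY, fun i => i.elim0⟩
  · simp only [Fin.forall_fin_succ]
    exact ⟨ab.symm, fun i => i.elim0⟩

/-- two different blocks share at most one item -/
lemma Good.two (G : Good M f Z) (h : PB f Z ν e S) (h' : PB f Z ν' e' S') {x y : I}
    (hx : x ∈ S) (hy : y ∈ S) (hx' : x ∈ S') (hy' : y ∈ S') (hxy : x ≠ y) : S = S' := by
  by_contra hne
  have hcr : cr ν ν' ≠ 0 := fun hc => hne (h.same h' hc hx hx')
  rcases Nat.lt_or_ge M (nrm ν) with h1 | h1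
  · rcases Nat.lt_or_ge M (nrm ν') with h2 | h2
    · obtain ⟨a, b, ha, hb, ax, ay, bx, bY, ab⟩ := two_more h.card x y
      obtain ⟨c, d, hc, hd, cx, cy, dx, dy, cd⟩ := two_more h'.card x y
      have ha' : a ∉ S' := fun h3 => hne (G.three h h' hx hy ha hx' hy' h3 hxy ax.symm ay.symm)
      have hb' : b ∉ S' := fun h3 => hne (G.three h h' hx hy hb hx' hy' h3 hxy bx.symm bY.symm)
      have ca : c ≠ a := fun h3 => ha' (h3 ▸ hc)
      have da : d ≠ a := fun h3 => ha' (h3 ▸ hd)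
      have cb : c ≠ b := fun h3 => hb' (h3 ▸ hc)
      have db : d ≠ b := fun h3 => hb' (h3 ▸ hd)
      refine h.notMem hx (bad_mem G.ll ![x, y, a, b, c, d] ?_
        ⟨G.lcop h h1 hx hy ha hb hxy ax.symm ay.symm,
          G.lcop h' h2 hx' hy' hc hd hxy cx.symm cy.symm⟩ 0)
      refine inj_cons ?_ (inj_cons ?_ (inj_cons ?_ (inj_cons ?_ (inj_cons ?_
        (inj_cons (fun i => i.elim0) inj_nil)))))
      · simp only [Fin.forall_fin_succ]
        exact ⟨hxy.symm, ax, bx, cx, dx, fun i => i.elim0⟩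
      · simp only [Fin.forall_fin_succ]
        exact ⟨ay, bY, cy, dy, fun i => i.elim0⟩
      · simp only [Fin.forall_fin_succ]
        exact ⟨ab.symm, ca, da, fun i => i.elim0⟩
      · simp only [Fin.forall_fin_succ]
        exact ⟨cb, db, fun i => i.elim0⟩
      · simp only [Fin.forall_fin_succ]
        exact ⟨cd.symm, fun i => i.elim0⟩
    · exact G.ls' h h' h1 h2 hx hy hx' hy' hxy
  · rcases Nat.lt_or_ge M (nrm ν') with h2 | h2
    · exact G.ls' h' h h2 h1 hx' hy' hx hy hxy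
    · refine h.notMem hx (bad_mem G.ss ![x, y] (inj_cons (by simpa using hxy.symm)
        (inj_cons (fun i => i.elim0) inj_nil)) ?_ 0)
      exact ⟨fun h3 => hxy (G.inj (h.notMem hx) h3), ν, ν', h1, h2, hcr, h.orth hx hy,
        h'.orth hx' hy'⟩

/-- the data of a triangle -/
structure Tri (f : I → Pos N) (Z : Finset I) (νA νB νC : V3) (eA eB eC : ℤ) (A B C : Finset I)
    (p q r : I) : Prop where
  hA : PB f Z νA eA A
  hB : PB f Z νB eB B
  hC : PB f Z νC eC C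
  qA : q ∈ A
  rA : r ∈ A
  pB : p ∈ B
  rB : r ∈ B
  pC : p ∈ C
  qC : q ∈ C
  pq : p ≠ q
  pr : p ≠ r
  qr : q ≠ r
  AB : A ≠ B
  AC : A ≠ C
  BC : B ≠ C

variable {νA νB νC : V3} {eA eB eC : ℤ} {A B C : Finset I} {p q r : I}

/-- exchange `B` and `C` -/
lemma Tri.swap (T : Tri f Z νA νB νC eA eB eC A B C p q r) :
    Tri f Z νA νC νB eA eC eB A C B p r q :=
  ⟨T.hA, T.hC, T.hB, T.rA, T.qA, T.pC, T.qC, T.pB, T.rB, T.pr, T.pq, T.qr.symm, T.AC, T.AB,
    T.BC.symm⟩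

/-- rotate -/
lemma Tri.rot (T : Tri f Z νA νB νC eA eB eC A B C p q r) :
    Tri f Z νB νC νA eB eC eA B C A q r p :=
  ⟨T.hB, T.hC, T.hA, T.rB, T.pB, T.qC, T.pC, T.qA, T.rA, T.qr, T.pq.symm, T.pr.symm,
    T.BC, T.AB.symm, T.AC.symm⟩

lemma Good.tri0 (G : Good M f Z) (T : Tri f Z νA νB νC eA eB eC A B C p q r)
    (hA : nrm νA ≤ M) (hB : nrm νB ≤ M) (hC : nrm νC ≤ M) : False := by
  have hcr : cr νB νA ≠ 0 := fun h => T.AB.symm (T.hB.same T.hA h T.rB T.rA)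
  refine T.hA.notMem T.qA (bad_mem G.sss ![p, q, r] ?_
    ⟨νC, νB, νA, hC, hB, hA, prim_ne T.hC.prim, hcr, T.hC.orth T.pC T.qC, T.hB.orth T.pB T.rB,
      T.hA.orth T.qA T.rA⟩ 1)
  refine inj_cons ?_ (inj_cons ?_ (inj_cons (fun i => i.elim0) inj_nil))
  · simp only [Fin.forall_fin_succ]
    exact ⟨T.pq.symm, T.pr.symm, fun i => i.elim0⟩
  · simp only [Fin.forall_fin_succ]
    exact ⟨T.qr.symm, fun i => i.elim0⟩

lemma Good.tri1 (G : Good M f Z) (T : Tri f Z νA νB νC eA eB eC A B C p q r)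
    (hA : nrm νA ≤ M) (hB : nrm νB ≤ M) (hC : M < nrm νC) : False := by
  have hcr : cr νB νA ≠ 0 := fun h => T.AB.symm (T.hB.same T.hA h T.rB T.rA)
  obtain ⟨c, d, hc, hd, cp, cq, dp, dq, cd⟩ := two_more T.hC.card p q
  have rC : r ∉ C := fun h => T.BC (G.two T.hB T.hC T.pB T.rB T.pC h T.pr)
  have rc : r ≠ c := fun h => rC (h ▸ hc)
  have rd : r ≠ d := fun h => rC (h ▸ hd)
  refine T.hA.notMem T.qA (bad_mem G.lss ![p, q, c, d, r] ?_
    ⟨G.lcop T.hC hC T.pC T.qC hc hd T.pq cp.symm cq.symm, νB, νA, hB, hA, hcr,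
      T.hB.orth T.pB T.rB, T.hA.orth T.qA T.rA⟩ 1)
  refine inj_cons ?_ (inj_cons ?_ (inj_cons ?_ (inj_cons ?_
    (inj_cons (fun i => i.elim0) inj_nil))))
  · simp only [Fin.forall_fin_succ]
    exact ⟨T.pq.symm, cp, dp, T.pr.symm, fun i => i.elim0⟩
  · simp only [Fin.forall_fin_succ]
    exact ⟨cq, dq, T.qr.symm, fun i => i.elim0⟩
  · simp only [Fin.forall_fin_succ]
    exact ⟨cd.symm, rc, fun i => i.elim0⟩
  · simp only [Fin.forall_fin_succ]
    exact ⟨rd, fun i => i.elim0⟩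

lemma Good.tri2 (G : Good M f Z) (T : Tri f Z νA νB νC eA eB eC A B C p q r)
    (hA : nrm νA ≤ M) (hB : M < nrm νB) (hC : M < nrm νC) : False := by
  obtain ⟨c, d, hc, hd, cp, cq, dp, dq, cd⟩ := two_more T.hC.card p q
  obtain ⟨a, b, ha, hb, ap, ar, bp, br, ab⟩ := two_more T.hB.card p r
  have hBC : ∀ x, x ∈ B → x ≠ p → x ∉ C := fun x hx hxp h =>
    T.BC (G.two T.hB T.hC T.pB hx T.pC h (Ne.symm hxp))
  have rC : r ∉ C := hBC r T.rB T.pr.symm
  have aC : a ∉ C := hBC a ha ap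
  have bC : b ∉ C := hBC b hb bp
  have nC : ∀ x y, x ∉ C → y ∈ C → x ≠ y := fun x y hx hy h => hx (h ▸ hy)
  refine T.hA.notMem T.qA (bad_mem G.lls ![p, q, c, d, r, a, b] ?_
    ⟨G.lcop T.hC hC T.pC T.qC hc hd T.pq cp.symm cq.symm,
      G.lcop T.hB hB T.pB T.rB ha hb T.pr ap.symm ar.symm, T.hA.rs hA T.qA T.rA⟩ 1)
  refine inj_cons ?_ (inj_cons ?_ (inj_cons ?_ (inj_cons ?_ (inj_cons ?_ (inj_cons ?_
    (inj_cons (fun i => i.elim0) inj_nil))))))
  · simp only [Fin.forall_fin_succ]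
    exact ⟨T.pq.symm, cp, dp, T.pr.symm, ap, bp, fun i => i.elim0⟩
  · simp only [Fin.forall_fin_succ]
    exact ⟨cq, dq, T.qr.symm, nC _ _ aC T.qC, nC _ _ bC T.qC, fun i => i.elim0⟩
  · simp only [Fin.forall_fin_succ]
    exact ⟨cd.symm, nC _ _ rC hc, nC _ _ aC hc, nC _ _ bC hc, fun i => i.elim0⟩
  · simp only [Fin.forall_fin_succ]
    exact ⟨nC _ _ rC hd, nC _ _ aC hd, nC _ _ bC hd, fun i => i.elim0⟩
  · simp only [Fin.forall_fin_succ]
    exact ⟨ar, br, fun i => i.elim0⟩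
  · simp only [Fin.forall_fin_succ]
    exact ⟨ab.symm, fun i => i.elim0⟩

lemma Good.tri3 (G : Good M f Z) (T : Tri f Z νA νB νC eA eB eC A B C p q r)
    (hA : M < nrm νA) (hB : M < nrm νB) (hC : M < nrm νC) : False := by
  obtain ⟨c, d, hc, hd, cp, cq, dp, dq, cd⟩ := two_more T.hC.card p q
  obtain ⟨a, b, ha, hb, ap, ar, bp, br, ab⟩ := two_more T.hB.card p r
  obtain ⟨g, h, hg, hh, gq, gr, hq, hr, gh⟩ := two_more T.hA.card q r
  have hBC : ∀ x, x ∈ B → x ≠ p → x ∉ C := fun x hx hxp h =>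
    T.BC (G.two T.hB T.hC T.pB hx T.pC h (Ne.symm hxp))
  have hAC : ∀ x, x ∈ A → x ≠ q → x ∉ C := fun x hx hxq h =>
    T.AC (G.two T.hA T.hC T.qA hx T.qC h (Ne.symm hxq))
  have hAB : ∀ x, x ∈ A → x ≠ r → x ∉ B := fun x hx hxr h =>
    T.AB (G.two T.hA T.hB T.rA hx T.rB h (Ne.symm hxr))
  have rC : r ∉ C := hBC r T.rB T.pr.symm
  have aC : a ∉ C := hBC a ha ap
  have bC : b ∉ C := hBC b hb bp
  have gC : g ∉ C := hAC g hg gq
  have hC' : h ∉ C := hAC h hh hq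
  have gB : g ∉ B := hAB g hg gr
  have hB' : h ∉ B := hAB h hh hr
  have nC : ∀ x y, x ∉ C → y ∈ C → x ≠ y := fun x y hx hy h => hx (h ▸ hy)
  have nB : ∀ x y, x ∉ B → y ∈ B → x ≠ y := fun x y hx hy h => hx (h ▸ hy)
  refine T.hA.notMem T.qA (bad_mem G.lll ![p, q, c, d, r, a, b, g, h] ?_
    ⟨G.lcop T.hC hC T.pC T.qC hc hd T.pq cp.symm cq.symm,
      G.lcop T.hB hB T.pB T.rB ha hb T.pr ap.symm ar.symm,
      G.lcop T.hA hA T.qA T.rA hg hh T.qr gq.symm gr.symm⟩ 1)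
  refine inj_cons ?_ (inj_cons ?_ (inj_cons ?_ (inj_cons ?_ (inj_cons ?_ (inj_cons ?_
    (inj_cons ?_ (inj_cons ?_ (inj_cons (fun i => i.elim0) inj_nil))))))))
  · simp only [Fin.forall_fin_succ]
    exact ⟨T.pq.symm, cp, dp, T.pr.symm, ap, bp, nC _ _ gC T.pC, nC _ _ hC' T.pC,
      fun i => i.elim0⟩
  · simp only [Fin.forall_fin_succ]
    exact ⟨cq, dq, T.qr.symm, nC _ _ aC T.qC, nC _ _ bC T.qC, gq, hq, fun i => i.elim0⟩
  · simp only [Fin.forall_fin_succ]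
    exact ⟨cd.symm, nC _ _ rC hc, nC _ _ aC hc, nC _ _ bC hc, nC _ _ gC hc, nC _ _ hC' hc,
      fun i => i.elim0⟩
  · simp only [Fin.forall_fin_succ]
    exact ⟨nC _ _ rC hd, nC _ _ aC hd, nC _ _ bC hd, nC _ _ gC hd, nC _ _ hC' hd,
      fun i => i.elim0⟩
  · simp only [Fin.forall_fin_succ]
    exact ⟨ar, br, gr, hr, fun i => i.elim0⟩
  · simp only [Fin.forall_fin_succ]
    exact ⟨ab.symm, nB _ _ gB ha, nB _ _ hB' ha, fun i => i.elim0⟩
  · simp only [Fin.forall_fin_succ]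
    exact ⟨nB _ _ gB hb, nB _ _ hB' hb, fun i => i.elim0⟩
  · simp only [Fin.forall_fin_succ]
    exact ⟨gh.symm, fun i => i.elim0⟩

lemma Good.tri (G : Good M f Z) (T : Tri f Z νA νB νC eA eB eC A B C p q r) : False := by
  rcases Nat.lt_or_ge M (nrm νA) with hA | hA <;> rcases Nat.lt_or_ge M (nrm νB) with hB | hB <;>
    rcases Nat.lt_or_ge M (nrm νC) with hC | hC
  · exact G.tri3 T hA hB hC
  · exact G.tri2 T.rot.rot hC hA hB
  · exact G.tri2 T.rot hB hC hA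
  · exact G.tri1 T.rot hB hC hA
  · exact G.tri2 T hA hB hC
  · exact G.tri1 T.swap hA hC hB
  · exact G.tri1 T hA hB hC
  · exact G.tri0 T hA hB hC

lemma PB.rel (h : PB f Z ν e S) (G : Good M f Z) {u v : I} (hu : u ∈ S) (hv : v ∈ S) :
    relf M f u v := by
  by_cases huv : u = v
  · exact Or.inl huv
  right
  rcases Nat.lt_or_ge M (nrm ν) with h1 | h1
  · right
    obtain ⟨a, b, ha, hb, au, av, bu, bv, ab⟩ := two_more h.card u v
    exact ⟨a, b, au, av, bu, bv, ab, G.lcop h h1 hu hv ha hb huv au.symm av.symm⟩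
  · left
    exact h.rs h1 hu hv

end

end Pool.Agent.TH126.RG

namespace Pool.Agent.TH490

open Finset Classical
open Pool.Agent.TH126.RG

theorem rgeo : R_geo := by
  intro n Gr N R M₀ f Z hR hP
  have G : Good (R ^ 5) f Z := good_of hP.geo
  refine ⟨fun x y hx _ h => G.inj hx h, fun x y z hx _ _ hxy hxz hyz => G.nocol hx hxy hxz hyz,
    ?_, ?_, ?_, ?_, ?_, ?_, ?_, ?_⟩
  · intro S S' hS hS' hne
    obtain ⟨ν, e, h⟩ := blk_iff.1 hS
    obtain ⟨ν', e', h'⟩ := blk_iff.1 hS'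
    by_contra hc
    obtain ⟨x, hx, y, hy, hxy⟩ := one_lt_card.1 (not_le.1 hc)
    rw [mem_inter] at hx hy
    exact hne (G.two h h' hx.1 hy.1 hx.2 hy.2 hxy)
  · rintro S x v v' hS hx hxS hv hv' ⟨S₁, hS₁, hx₁, hv₁⟩ ⟨S₂, hS₂, hx₂, hv₂⟩
    by_contra hne
    obtain ⟨ν, e, h⟩ := blk_iff.1 hS
    obtain ⟨ν₁, e₁, h₁⟩ := blk_iff.1 hS₁
    obtain ⟨ν₂, e₂, h₂⟩ := blk_iff.1 hS₂
    have n1 : S₁ ≠ S := fun hh => hxS (hh ▸ hx₁)
    have n2 : S₂ ≠ S := fun hh => hxS (hh ▸ hx₂)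
    have n3 : S₂ ≠ S₁ := fun hh => n1 (G.two h₁ h hv₁ (hh ▸ hv₂) hv hv' hne)
    have n4 : x ≠ v := fun hh => hxS (hh ▸ hv)
    have n5 : x ≠ v' := fun hh => hxS (hh ▸ hv')
    exact G.tri (νA := ν₂) (νB := ν₁) (νC := ν) (p := v) (q := v') (r := x)
      ⟨h₂, h₁, h, hv₂, hx₂, hv₁, hx₁, hv, hv', hne, n4.symm, n5.symm, n3, n2, n1⟩
  · intro S u v hS hu hv
    obtain ⟨ν, e, h⟩ := blk_iff.1 hS
    exact h.rel G hu hv
  · intro S hS hT
    obtain ⟨ν, e, h⟩ := blk_iff.1 hS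
    have h1 : M₀ < nrm ν := by
      by_contra hc
      exact hT ⟨ν, e, h.prim, not_lt.1 hc, h.eq⟩
    obtain ⟨x, hx, y, hy, z, hz, hxy, hxz, hyz⟩ := two_lt_card.1 (show 2 < S.card by
      have := h.card
      omega)
    have h2 := hP.rich ν h.prim h1 (f x) (f y) (f z) (h.orth hx hy) (h.orth hx hz)
      (G.nocol (h.notMem hx) hxy hxz hyz)
    have h3 : S.card ≤
        (univ.filter (fun w : Fin n × Fin (2 * R) => dot ν (toZ (f w) - toZ (f x)) = 0)).card := by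
      apply card_le_card
      intro w hw
      rw [mem_filter]
      exact ⟨mem_univ _, h.orth hx hw⟩
    omega
  · intro S a b c d hS ha hb hc hd
    obtain ⟨ν, e, h⟩ := blk_iff.1 hS
    exact det_zero (prim_ne h.prim) (h.orth ha hb) (h.orth ha hc) (h.orth ha hd)
  · rintro S a b c d ⟨ν, e, h1, h2, rfl⟩ ha hb hc hd
    have key : ∀ x y, x ∈ inPlane f Z ν e → y ∈ inPlane f Z ν e →
        dot ν (toZ (f y) - toZ (f x)) = 0 := by
      intro x y hx hy
      rw [dot_sub, (mem_inPlane.1 hx).2, (mem_inPlane.1 hy).2, sub_self]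
    exact ⟨ν, h1, h2, key _ _ ha hb, key _ _ ha hc, key _ _ ha hd⟩
  · intro a b c d ha hb hc hd hab hac had hbc hbd hcd hcop
    have hnc := G.nocol ha hab hac hbc
    obtain ⟨ν, hν, g, hg, hgν⟩ := exists_prim (c := cr (toZ (f b) - toZ (f a))
      (toZ (f c) - toZ (f a))) hnc
    have hdot : ∀ u : V3, dot (cr (toZ (f b) - toZ (f a)) (toZ (f c) - toZ (f a))) u = 0 →
        dot ν u = 0 := by
      intro u hu
      rw [hgν] at hu
      have : g * dot ν u = 0 := by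
        rw [← hu]
        unfold dot
        simp only [Pi.smul_apply, smul_eq_mul]
        ring
      exact (mul_eq_zero.1 this).resolve_left hg
    have k1 : dot ν (toZ (f b) - toZ (f a)) = 0 := hdot _ (by
      simp only [dot, cr, Matrix.cons_val_zero, Matrix.cons_val_one, Matrix.cons_val]; ring)
    have k2 : dot ν (toZ (f c) - toZ (f a)) = 0 := hdot _ (by
      simp only [dot, cr, Matrix.cons_val_zero, Matrix.cons_val_one, Matrix.cons_val]; ring)
    have k3 : dot ν (toZ (f d) - toZ (f a)) = 0 := hdot _ hcop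
    set S := inPlane f Z ν (dot ν (toZ (f a))) with hS
    have mem : ∀ x, x ∉ Z → dot ν (toZ (f x) - toZ (f a)) = 0 → x ∈ S := by
      intro x hx h
      rw [dot_sub, sub_eq_zero] at h
      exact mem_inPlane.2 ⟨hx, h⟩
    have ma : a ∈ S := mem_inPlane.2 ⟨ha, rfl⟩
    have mb := mem b hb k1
    have mc := mem c hc k2
    have md := mem d hd k3
    have hcard : 4 ≤ S.card := by
      have h4 : ({a, b, c, d} : Finset (Fin n × Fin (2 * R))).card = 4 := by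
        rw [card_insert_of_notMem (by simp [hab, hac, had]),
          card_insert_of_notMem (by simp [hbc, hbd]), card_insert_of_notMem (by simp [hcd]),
          card_singleton]
      rw [← h4]
      apply card_le_card
      intro x hx
      simp only [mem_insert, mem_singleton] at hx
      rcases hx with rfl | rfl | rfl | rfl
      · exact ma
      · exact mb
      · exact mc
      · exact md
    exact ⟨S, ⟨hcard, ν, _, hν, rfl⟩, ma, mb, mc, md⟩
  · have h3 : ∀ S : {S : Finset (Fin n × Fin (2 * R)) // Blk f Z S}, ∃ t : (Fin n × Fin (2 * R)) ×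
        (Fin n × Fin (2 * R)) × (Fin n × Fin (2 * R)), t.1 ∈ S.1 ∧ t.2.1 ∈ S.1 ∧ t.2.2 ∈ S.1 ∧
        t.1 ≠ t.2.1 ∧ t.1 ≠ t.2.2 ∧ t.2.1 ≠ t.2.2 := by
      intro S
      obtain ⟨x, hx, y, hy, z, hz, hxy, hxz, hyz⟩ := two_lt_card.1 (show 2 < S.1.card by
        have := S.2.1
        omega)
      exact ⟨(x, y, z), hx, hy, hz, hxy, hxz, hyz⟩
    choose t t1 t2 t3 t4 t5 t6 using h3
    have hinj : Function.Injective (fun S : {S : Finset (Fin n × Fin (2 * R)) // Blk f Z S} =>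
        ((f (t S).1, f (t S).2.1, f (t S).2.2) : Pos N × Pos N × Pos N)) := by
      intro S S' hSS
      simp only [Prod.mk.injEq] at hSS
      obtain ⟨s1, s2, s3⟩ := hSS
      obtain ⟨ν, e, h⟩ := blk_iff.1 S.2
      obtain ⟨ν', e', h'⟩ := blk_iff.1 S'.2
      have r1 := G.inj (h.notMem (t1 S)) s1
      have r2 := G.inj (h.notMem (t2 S)) s2
      have r3 := G.inj (h.notMem (t3 S)) s3
      apply Subtype.ext
      refine G.three h h' (t1 S) (t2 S) (t3 S) ?_ ?_ ?_ (t4 S) (t5 S) (t6 S)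
      · rw [r1]; exact t1 S'
      · rw [r2]; exact t2 S'
      · rw [r3]; exact t3 S'
    have hle := Fintype.card_le_of_injective _ hinj
    rw [Fintype.card_prod, Fintype.card_prod, Fintype.card_pi, Finset.prod_const, card_univ,
      Fintype.card_fin, Fintype.card_fin] at hle
    rw [← Fintype.card_subtype]
    calc Fintype.card {S // Blk f Z S} ≤ N ^ 3 * (N ^ 3 * N ^ 3) := hle
      _ = N ^ 9 := by ring

end Pool.Agent.TH490
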