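import Pool.Agent.TH490.StmG
import Pool.Agent.TH126.MP325_RG

/-!
# MP325-G3: coplanar quadruples of box points
-/

set_option autoImplicit false

namespace Pool.Agent.TH126.G3

open Finset Classical
open Pool.Agent.TH490
open Pool.Agent.TH126.RG

lemma mem_cube {N : ℕ} {a : V3} : a ∈ cube N ↔ nrm a ≤ N := by
  unfold cube nrm
  rw [Fintype.mem_piFinset]
  constructor
  · intro h
    have h0 := h 0
    have h1 := h 1
    have h2 := h 2
    rw [mem_Icc] at h0 h1 h2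
    omega
  · intro h i
    fin_cases i
    · change a 0 ∈ _
      rw [mem_Icc]; omega
    · change a 1 ∈ _
      rw [mem_Icc]; omega
    · change a 2 ∈ _
      rw [mem_Icc]; omega

lemma card_cube (N : ℕ) : (cube N).card = (2 * N + 1) ^ 3 := by
  unfold cube
  rw [Fintype.card_piFinset, prod_const, card_univ, Fintype.card_fin, Int.card_Icc]
  congr 1
  omega

lemma card_shell {s : ℕ} (hs : 1 ≤ s) : ((cube s).filter (fun a => nrm a = s)).card ≤ 26 * s ^ 2 := by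
  obtain ⟨k, rfl⟩ : ∃ k, s = k + 1 := ⟨s - 1, by omega⟩
  have hdisj : Disjoint ((cube (k + 1)).filter (fun a => nrm a = k + 1)) (cube k) := by
    rw [Finset.disjoint_left]
    intro a ha ha'
    rw [mem_filter] at ha
    rw [mem_cube] at ha'
    omega
  have hsub : (cube (k + 1)).filter (fun a => nrm a = k + 1) ∪ cube k ⊆ cube (k + 1) := by
    apply union_subset (filter_subset _ _)
    intro a ha
    rw [mem_cube] at ha ⊢
    omega
  have h := card_le_card hsub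
  rw [card_union_of_disjoint hdisj, card_cube, card_cube] at h
  have e : (2 * (k + 1) + 1) ^ 3 = (2 * k + 1) ^ 3 + (24 * (k + 1) ^ 2 + 2) := by ring
  rw [e] at h
  have h2 : 1 ≤ (k + 1) ^ 2 := Nat.one_le_pow _ _ (by omega)
  omega

lemma nrm_pos {a : V3} (h : Prim a) : 1 ≤ nrm a := by
  have h1 := prim_ne h
  by_contra hc
  apply h1
  unfold nrm at hc
  funext i
  fin_cases i
  · change a 0 = 0; omega
  · change a 1 = 0; omega
  · change a 2 = 0; omega

theorem sum_shell (m : ℕ) (g : ℕ → ℝ) (hg : ∀ s, 1 ≤ s → s ≤ m → 0 ≤ g s) :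
    ∑ ν ∈ (cube m).filter (fun a => Prim a), g (nrm ν) ≤ ∑ s ∈ Icc 1 m, 26 * (s : ℝ) ^ 2 * g s := by
  have hmaps : ∀ ν ∈ (cube m).filter (fun a => Prim a), nrm ν ∈ Icc 1 m := by
    intro ν hν
    rw [mem_filter, mem_cube] at hν
    rw [mem_Icc]
    exact ⟨nrm_pos hν.2, hν.1⟩
  rw [← sum_fiberwise_of_maps_to hmaps]
  refine sum_le_sum fun s hs => ?_
  rw [mem_Icc] at hs
  have h1 : ∑ ν ∈ ((cube m).filter (fun a => Prim a)).filter (fun ν => nrm ν = s), g (nrm ν) =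
      ((((cube m).filter (fun a => Prim a)).filter (fun ν => nrm ν = s)).card : ℝ) * g s := by
    rw [← nsmul_eq_mul, ← sum_const]
    refine sum_congr rfl fun ν hν => ?_
    rw [mem_filter] at hν
    rw [hν.2]
  rw [h1]
  refine mul_le_mul_of_nonneg_right ?_ (hg s hs.1 hs.2)
  have h2 : (((cube m).filter (fun a => Prim a)).filter (fun ν => nrm ν = s)).card ≤ 26 * s ^ 2 := by
    refine le_trans (card_le_card ?_) (card_shell hs.1)
    intro ν hν
    rw [mem_filter] at hν ⊢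
    exact ⟨mem_cube.2 hν.2.le, hν.2⟩
  exact_mod_cast h2

lemma harm (m : ℕ) (hm : 1 ≤ m) : ∑ s ∈ Icc 1 m, 1 / (s : ℝ) ≤ 1 + Real.log m := by
  have h := harmonic_le_one_add_log m
  rw [harmonic_eq_sum_Icc] at h
  push_cast at h
  simpa only [one_div] using h

lemma cover {T : Type} (m : ℕ) (F : Finset T) (B : V3 → Finset T)
    (h : ∀ t ∈ F, ∃ ν, Prim ν ∧ nrm ν ≤ m ∧ t ∈ B ν) (g : ℕ → ℝ)
    (hg : ∀ s, 1 ≤ s → s ≤ m → 0 ≤ g s) (hB : ∀ ν, Prim ν → nrm ν ≤ m →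
      ((B ν).card : ℝ) ≤ g (nrm ν)) :
    (F.card : ℝ) ≤ ∑ s ∈ Icc 1 m, 26 * (s : ℝ) ^ 2 * g s := by
  have hsub : F ⊆ ((cube m).filter (fun a => Prim a)).biUnion B := by
    intro t ht
    obtain ⟨ν, h1, h2, h3⟩ := h t ht
    rw [mem_biUnion]
    exact ⟨ν, mem_filter.2 ⟨mem_cube.2 h2, h1⟩, h3⟩
  calc (F.card : ℝ) ≤ ((((cube m).filter (fun a => Prim a)).biUnion B).card : ℝ) := by
        exact_mod_cast card_le_card hsub
    _ ≤ ∑ ν ∈ (cube m).filter (fun a => Prim a), ((B ν).card : ℝ) := by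
        exact_mod_cast card_biUnion_le
    _ ≤ ∑ ν ∈ (cube m).filter (fun a => Prim a), g (nrm ν) := by
        refine sum_le_sum fun ν hν => ?_
        rw [mem_filter, mem_cube] at hν
        exact hB ν hν.2 hν.1
    _ ≤ _ := sum_shell m g hg

/-- points of a plane -/
noncomputable def Pl {N : ℕ} (ν : V3) (y : Pos N) : Finset (Pos N) :=
  univ.filter (fun w : Pos N => dot ν (toZ w - toZ y) = 0)

lemma card_pos_le {N : ℕ} {ν : V3} (hν : Prim ν) {y : Pos N}
    (h : (Pl ν y).card * nrm ν ≤ 18 * N ^ 2) : ((Pl ν y).card : ℝ) ≤ 18 * (N : ℝ) ^ 2 / nrm ν := by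
  have h1 : (0 : ℝ) < nrm ν := by exact_mod_cast nrm_pos hν
  rw [le_div_iff₀ h1]
  exact_mod_cast h

lemma card_cube_le {N : ℕ} {ν : V3} (hν : Prim ν) {y : Pos N}
    (h : (Pl ν y).card * nrm ν ≤ 18 * N ^ 2) (B : Finset (Pos N × Pos N × Pos N))
    (hB : B ⊆ Pl ν y ×ˢ (Pl ν y ×ˢ Pl ν y)) :
    (B.card : ℝ) ≤ (18 * (N : ℝ) ^ 2 / nrm ν) ^ 3 := by
  have h1 := card_le_card hB
  rw [card_product, card_product] at h1
  have h2 := card_pos_le hν h
  have h3 : (B.card : ℝ) ≤ ((Pl ν y).card : ℝ) ^ 3 := by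
    calc (B.card : ℝ) ≤ (((Pl ν y).card * ((Pl ν y).card * (Pl ν y).card) : ℕ) : ℝ) := by
          exact_mod_cast h1
      _ = ((Pl ν y).card : ℝ) ^ 3 := by push_cast; ring
  exact h3.trans (pow_le_pow_left₀ (by positivity) h2 3)

lemma sum_cube (N m : ℕ) (hm : 1 ≤ m) :
    ∑ s ∈ Icc 1 m, 26 * (s : ℝ) ^ 2 * (18 * (N : ℝ) ^ 2 / s) ^ 3 ≤
      26 * 18 ^ 3 * (N : ℝ) ^ 6 * (1 + Real.log m) := by
  have h : ∑ s ∈ Icc 1 m, 26 * (s : ℝ) ^ 2 * (18 * (N : ℝ) ^ 2 / s) ^ 3 =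
      26 * 18 ^ 3 * (N : ℝ) ^ 6 * ∑ s ∈ Icc 1 m, 1 / (s : ℝ) := by
    rw [mul_sum]
    refine sum_congr rfl fun s hs => ?_
    rw [mem_Icc] at hs
    have : (s : ℝ) ≠ 0 := by
      have : (0 : ℝ) < s := by exact_mod_cast hs.1
      exact this.ne'
    field_simp
  rw [h]
  exact mul_le_mul_of_nonneg_left (harm m hm) (by positivity)

theorem tiny (h2 : G1_possmall) : G3_tiny := by
  refine ⟨26 * 18 ^ 3, by norm_num, fun N hN M hM hMN y => ?_⟩
  refine le_trans (cover M _ (fun ν => Pl ν y ×ˢ (Pl ν y ×ˢ Pl ν y)) ?_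
    (fun s => (18 * (N : ℝ) ^ 2 / s) ^ 3) (fun s _ _ => by positivity) ?_) (sum_cube N M hM)
  · intro t ht
    rw [mem_filter] at ht
    obtain ⟨-, a, a1, a2, a3, a4, a5⟩ := ht
    refine ⟨a, a1, a2, ?_⟩
    rw [mem_product, mem_product]
    exact ⟨mem_filter.2 ⟨mem_univ _, a3⟩, mem_filter.2 ⟨mem_univ _, a4⟩,
      mem_filter.2 ⟨mem_univ _, a5⟩⟩
  · intro ν hν hνM
    exact card_cube_le hν (h2 N ν hν (hνM.trans hMN) y) _ (Subset.refl _)

theorem rs (h2 : G1_possmall) : G3_rs := by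
  refine ⟨26 * 18, by norm_num, fun N hN M hM hMN y => ?_⟩
  refine le_trans (cover M _ (fun ν => Pl ν y) ?_ (fun s => 18 * (N : ℝ) ^ 2 / s)
    (fun s _ _ => by positivity) ?_) ?_
  · intro t ht
    rw [mem_filter] at ht
    obtain ⟨-, a, a1, a2, a3⟩ := ht
    exact ⟨a, a1, a2, mem_filter.2 ⟨mem_univ _, a3⟩⟩
  · intro ν hν hνM
    exact card_pos_le hν (h2 N ν hν (hνM.trans hMN) y)
  · calc ∑ s ∈ Icc 1 M, 26 * (s : ℝ) ^ 2 * (18 * (N : ℝ) ^ 2 / s) ≤
        ∑ _s ∈ Icc 1 M, 26 * 18 * (N : ℝ) ^ 2 * M := by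
          refine sum_le_sum fun s hs => ?_
          rw [mem_Icc] at hs
          have h0 : (0 : ℝ) < s := by exact_mod_cast hs.1
          have h1 : (s : ℝ) ≤ M := by exact_mod_cast hs.2
          have e : 26 * (s : ℝ) ^ 2 * (18 * (N : ℝ) ^ 2 / s) = 26 * 18 * (N : ℝ) ^ 2 * s := by
            field_simp
          rw [e]
          exact mul_le_mul_of_nonneg_left h1 (by positivity)
      _ = _ := by
          rw [sum_const, Nat.card_Icc, nsmul_eq_mul]
          push_cast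
          ring

theorem cop (h1 : G1_pos) (h3 : G1_span) (h4 : G2_col) : G3_cop := by
  obtain ⟨c, hc, hcol⟩ := h4
  refine ⟨26 * 18 ^ 3 * 5 + 2 * c, by positivity, fun N hN y => ?_⟩
  have hN0 : (0 : ℝ) < N := by exact_mod_cast (by omega : 0 < N)
  have hlog2 : (1 / 2 : ℝ) ≤ Real.log 2 := by
    have := Real.log_two_gt_d9
    linarith
  have hlog : Real.log 2 ≤ Real.log N := Real.log_le_log (by norm_num) (by exact_mod_cast hN)
  set T := univ.filter (fun t : Pos N × Pos N × Pos N => Cop y t.1 t.2.1 t.2.2) with hT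
  set T1 := univ.filter (fun t : Pos N × Pos N × Pos N => Col y t.1 t.2.1) with hT1
  set T2 := T.filter (fun t => ¬ Col y t.1 t.2.1) with hT2
  have hsub : T ⊆ T1 ∪ T2 := by
    intro t ht
    rw [mem_union]
    by_cases h : Col y t.1 t.2.1
    · exact Or.inl (mem_filter.2 ⟨mem_univ _, h⟩)
    · exact Or.inr (mem_filter.2 ⟨ht, h⟩)
  have b1 : (T1.card : ℝ) ≤ c * (N : ℝ) ^ 6 := by
    have e1 : T1.card ≤ ((univ.filter (fun t : Pos N × Pos N => Col y t.1 t.2)) ×ˢ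
        (univ : Finset (Pos N))).card := by
      apply card_le_card_of_injOn (fun t => ((t.1, t.2.1), t.2.2))
      · intro t ht
        rw [mem_coe, mem_filter] at ht
        rw [mem_coe, mem_product]
        exact ⟨mem_filter.2 ⟨mem_univ _, ht.2⟩, mem_univ _⟩
      · rintro ⟨a, b, d⟩ _ ⟨a', b', d'⟩ _ h
        simp only [Prod.mk.injEq] at h
        obtain ⟨⟨rfl, rfl⟩, rfl⟩ := h
        rfl
    rw [card_product, card_univ, Fintype.card_pi, prod_const, card_univ, Fintype.card_fin,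
      Fintype.card_fin] at e1
    calc (T1.card : ℝ) ≤ (((univ.filter (fun t : Pos N × Pos N => Col y t.1 t.2)).card *
          N ^ 3 : ℕ) : ℝ) := by exact_mod_cast e1
      _ = ((univ.filter (fun t : Pos N × Pos N => Col y t.1 t.2)).card : ℝ) * (N : ℝ) ^ 3 := by
          push_cast; ring
      _ ≤ c * (N : ℝ) ^ 3 * (N : ℝ) ^ 3 :=
          mul_le_mul_of_nonneg_right (hcol N y) (by positivity)
      _ = _ := by ring
  have b2 : (T2.card : ℝ) ≤ 26 * 18 ^ 3 * (N : ℝ) ^ 6 * (1 + Real.log ((2 * N ^ 2 : ℕ) : ℝ)) := by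
    refine le_trans (cover (2 * N ^ 2) T2 (fun ν => univ.filter
      (fun t : Pos N × Pos N × Pos N => dot ν (toZ t.1 - toZ y) = 0 ∧
        dot ν (toZ t.2.1 - toZ y) = 0 ∧ dot ν (toZ t.2.2 - toZ y) = 0 ∧ ¬ Col y t.1 t.2.1)) ?_
      (fun s => (18 * (N : ℝ) ^ 2 / s) ^ 3) (fun s _ _ => by positivity) ?_)
      (sum_cube N (2 * N ^ 2) (by nlinarith))
    · intro t ht
      rw [hT2, hT, mem_filter, mem_filter] at ht
      obtain ⟨⟨-, hcop⟩, hnc⟩ := ht
      obtain ⟨ν, hν, g, hg, hgν⟩ := exists_prim (c := cr (toZ t.1 - toZ y) (toZ t.2.1 - toZ y)) hnc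
      have hdot : ∀ u : V3, dot (cr (toZ t.1 - toZ y) (toZ t.2.1 - toZ y)) u = 0 →
          dot ν u = 0 := by
        intro u hu
        rw [hgν] at hu
        have : g * dot ν u = 0 := by
          rw [← hu]
          unfold dot
          simp only [Pi.smul_apply, smul_eq_mul]
          ring
        exact (mul_eq_zero.1 this).resolve_left hg
      have k1 : dot ν (toZ t.1 - toZ y) = 0 := hdot _ (by
        simp only [dot, cr, Matrix.cons_val_zero, Matrix.cons_val_one, Matrix.cons_val]; ring)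
      have k2 : dot ν (toZ t.2.1 - toZ y) = 0 := hdot _ (by
        simp only [dot, cr, Matrix.cons_val_zero, Matrix.cons_val_one, Matrix.cons_val]; ring)
      have k3 : dot ν (toZ t.2.2 - toZ y) = 0 := hdot _ hcop
      exact ⟨ν, hν, h3 N ν hν y t.1 t.2.1 k1 k2 hnc, mem_filter.2 ⟨mem_univ _, k1, k2, k3, hnc⟩⟩
    · intro ν hν _
      rcases (univ.filter (fun t : Pos N × Pos N × Pos N => dot ν (toZ t.1 - toZ y) = 0 ∧
        dot ν (toZ t.2.1 - toZ y) = 0 ∧ dot ν (toZ t.2.2 - toZ y) = 0 ∧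
        ¬ Col y t.1 t.2.1)).eq_empty_or_nonempty with h0 | ⟨t, ht⟩
      · rw [h0, card_empty, Nat.cast_zero]
        positivity
      · rw [mem_filter] at ht
        obtain ⟨-, t1, t2, -, t4⟩ := ht
        refine card_cube_le hν (h1 N ν hν y t.1 t.2.1 t1 t2 t4) _ ?_
        intro u hu
        rw [mem_filter] at hu
        obtain ⟨-, u1, u2, u3, -⟩ := hu
        rw [mem_product, mem_product]
        exact ⟨mem_filter.2 ⟨mem_univ _, u1⟩, mem_filter.2 ⟨mem_univ _, u2⟩,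
          mem_filter.2 ⟨mem_univ _, u3⟩⟩
  have b3 : 1 + Real.log ((2 * N ^ 2 : ℕ) : ℝ) ≤ 5 * Real.log N := by
    push_cast
    rw [Real.log_mul (by norm_num) (by positivity), Real.log_pow]
    push_cast
    linarith
  have hcard : (T.card : ℝ) ≤ T1.card + T2.card := by
    exact_mod_cast (card_le_card hsub).trans (card_union_le _ _)
  have b4 : 26 * 18 ^ 3 * (N : ℝ) ^ 6 * (1 + Real.log ((2 * N ^ 2 : ℕ) : ℝ)) ≤
      26 * 18 ^ 3 * (N : ℝ) ^ 6 * (5 * Real.log N) :=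
    mul_le_mul_of_nonneg_left b3 (by positivity)
  have b5 : c * (N : ℝ) ^ 6 ≤ c * (N : ℝ) ^ 6 * (2 * Real.log N) :=
    le_mul_of_one_le_right (by positivity) (by linarith)
  calc (T.card : ℝ) ≤ T1.card + T2.card := hcard
    _ ≤ c * (N : ℝ) ^ 6 * (2 * Real.log N) + 26 * 18 ^ 3 * (N : ℝ) ^ 6 * (5 * Real.log N) :=
        add_le_add (b1.trans b5) (b2.trans b4)
    _ = _ := by ring

end Pool.Agent.TH126.G3

namespace Pool.Agent.TH490

theorem g3 : G1_pos → G1_possmall → G1_span → G2_col → G3_cop ∧ G3_tiny ∧ G3_rs :=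
  fun h1 h2 h3 h4 => ⟨TH126.G3.cop h1 h3 h4, TH126.G3.tiny h2, TH126.G3.rs h2⟩

end Pool.Agent.TH490
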