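import Pool.Agent.TH371.Apy.Defs

/-!
# APY4: finite computation for the log-convexity iterates
-/

set_option autoImplicit false

namespace Pool.Agent.TH126.Apy

open Finset
open Pool.Agent.TH371.Apy

/-- one step of the log-convexity operator, on lists of natural numbers -/
def go (x y : ℕ) : List ℕ → List ℕ
  | [] => []
  | z :: l => (x * z - y * y) :: go y z l

/-- one step of the log-convexity operator, on lists of natural numbers -/
def stepL : List ℕ → List ℕ
  | x :: y :: l => go x y l
  | _ => []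

/-- log-convexity of a list -/
def okGo (x y : ℕ) : List ℕ → Bool
  | [] => true
  | z :: l => Nat.blt (y * y) (x * z) && okGo y z l

/-- log-convexity of a list -/
def okL : List ℕ → Bool
  | x :: y :: l => okGo x y l
  | _ => true

/-- the final test -/
def finGo (x y : ℕ) : List ℕ → Bool
  | [] => true
  | z :: l => Nat.ble (2619 * (y * y)) (1000 * (x * z)) && finGo y z l

/-- the final test -/
def finL : List ℕ → Bool
  | x :: y :: l => finGo x y l
  | _ => true

/-- all tests -/
def chk : ℕ → List ℕ → Bool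
  | 0, l => finL l
  | k + 1, l => okL l && chk k (stepL l)

/-- the terms of the sum, computed recursively: `c = C(n, j)`, `d = C(n + j, j)` -/
def sumA (n : ℕ) : ℕ → ℕ → ℕ → ℕ → ℕ
  | 0, _, _, _ => 0
  | i + 1, j, c, d => c * c * (d * d) + sumA n i (j + 1) (c * (n - j) / (j + 1)) (d * (n + j + 1) / (j + 1))

/-- the terms of the sum, computed recursively: `c = C(n, j)`, `d = C(n + j, j)` -/
def sumB (n : ℕ) : ℕ → ℕ → ℕ → ℕ → ℕ
  | 0, _, _, _ => 0
  | i + 1, j, c, d => c * c * d + sumB n i (j + 1) (c * (n - j) / (j + 1)) (d * (n + j + 1) / (j + 1))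

def fastA (n : ℕ) : ℕ := sumA n (n + 1) 0 1 1
def fastB (n : ℕ) : ℕ := sumB n (n + 1) 0 1 1

/-- the list represents the sequence from `m` on -/
def Rep (a : ℕ → ℝ) : ℕ → List ℕ → Prop
  | _, [] => True
  | m, x :: l => a m = x ∧ Rep a (m + 1) l

lemma rep_of {a : ℕ → ℝ} : ∀ (l : List ℕ) (m : ℕ), (∀ (i : ℕ) (h : i < l.length),
    a (m + i) = (l[i] : ℝ)) → Rep a m l := by
  intro l
  induction l with
  | nil => intro m _; trivial
  | cons x l ih =>
    intro m h
    refine ⟨h 0 (by simp), ih (m + 1) fun i hi => ?_⟩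
    have := h (i + 1) (by simpa using hi)
    rw [show m + 1 + i = m + (i + 1) by ring]
    simpa using this

lemma go_spec {a : ℕ → ℝ} : ∀ (l : List ℕ) (m x y : ℕ), Rep a m (x :: y :: l) →
    okGo x y l = true → Rep (L a) m (go x y l) ∧ ∀ i, i < l.length → 0 < L a (m + i) := by
  intro l
  induction l with
  | nil => intro m x y _ _; exact ⟨trivial, fun i hi => by simp at hi⟩
  | cons z l ih =>
    rintro m x y ⟨h1, h2, h3, h4⟩ hok
    simp only [okGo, Bool.and_eq_true, Nat.blt_eq] at hok
    obtain ⟨k1, k2⟩ := hok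
    obtain ⟨g1, g2⟩ := ih (m + 1) y z ⟨h2, h3, h4⟩ k2
    have e : L a m = ((x * z - y * y : ℕ) : ℝ) := by
      rw [Nat.cast_sub k1.le]
      unfold L
      rw [h1, h2, show m + 2 = m + 1 + 1 by ring, h3]
      push_cast
      ring
    refine ⟨⟨e, g1⟩, fun i hi => ?_⟩
    rcases i with _ | i
    · rw [add_zero, e]
      have : 0 < x * z - y * y := Nat.sub_pos_of_lt k1
      exact_mod_cast this
    · have := g2 i (by simpa using hi)
      rwa [show m + (i + 1) = m + 1 + i by ring]

lemma go_length : ∀ (l : List ℕ) (x y : ℕ), (go x y l).length = l.length := by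
  intro l
  induction l with
  | nil => intro x y; rfl
  | cons z l ih => intro x y; simp [go, ih]

lemma step_spec {a : ℕ → ℝ} (l : List ℕ) (h : Rep a 0 l) (hok : okL l = true) :
    Rep (L a) 0 (stepL l) ∧ (∀ i, i + 2 < l.length → 0 < L a i) ∧
      (stepL l).length = l.length - 2 := by
  rcases l with _ | ⟨x, _ | ⟨y, l⟩⟩
  · exact ⟨trivial, fun i hi => by simp at hi, rfl⟩
  · exact ⟨trivial, fun i hi => by simp at hi, rfl⟩
  · obtain ⟨h1, h2⟩ := go_spec l 0 x y h hok
    refine ⟨h1, fun i hi => ?_, ?_⟩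
    · have := h2 i (by simpa using hi)
      rwa [zero_add] at this
    · simp [stepL, go_length]

lemma fin_spec {a : ℕ → ℝ} : ∀ (l : List ℕ) (m x y : ℕ), Rep a m (x :: y :: l) →
    finGo x y l = true → ∀ i, i < l.length →
      2619 * (a (m + i + 1)) ^ 2 ≤ 1000 * (a (m + i) * a (m + i + 2)) := by
  intro l
  induction l with
  | nil => intro m x y _ _ i hi; simp at hi
  | cons z l ih =>
    rintro m x y ⟨h1, h2, h3, h4⟩ hok
    simp only [finGo, Bool.and_eq_true, Nat.ble_eq] at hok
    obtain ⟨k1, k2⟩ := hok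
    intro i hi
    rcases i with _ | i
    · have k3 : (2619 * (y * y) : ℝ) ≤ 1000 * (x * z) := by exact_mod_cast k1
      rw [add_zero, h1, h2, show m + 2 = m + 1 + 1 by ring, h3, pow_two]
      exact k3
    · have := ih (m + 1) y z ⟨h2, h3, h4⟩ k2 i (by simpa using hi)
      rwa [show m + (i + 1) = m + 1 + i by ring]

lemma chk_spec : ∀ (k : ℕ) (l : List ℕ) (a : ℕ → ℝ), Rep a 0 l → chk k l = true →
    (∀ j, 1 ≤ j → j ≤ k → ∀ m, m + 2 * j < l.length → 0 < (L^[j]) a m) ∧
    ∀ m, m + 2 * k + 2 < l.length →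
      2619 * ((L^[k]) a (m + 1)) ^ 2 ≤ 1000 * ((L^[k]) a m * (L^[k]) a (m + 2)) := by
  intro k
  induction k with
  | zero =>
    intro l a h hc
    refine ⟨fun j h1 h2 => by omega, fun m hm => ?_⟩
    rcases l with _ | ⟨x, _ | ⟨y, l⟩⟩
    · simp at hm
    · simp at hm
    · have := fin_spec l 0 x y h hc m (by simpa using hm)
      simpa using this
  | succ k ih =>
    intro l a h hc
    simp only [chk, Bool.and_eq_true] at hc
    obtain ⟨h1, h2, h3⟩ := step_spec l h hc.1
    obtain ⟨g1, g2⟩ := ih (stepL l) (L a) h1 hc.2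
    refine ⟨fun j hj1 hj2 m hm => ?_, fun m hm => ?_⟩
    · rcases j with _ | _ | j
      · omega
      · exact h2 m (by omega)
      · rw [Function.iterate_succ_apply]
        exact g1 (j + 1) (by omega) (by omega) m (by omega)
    · rw [Function.iterate_succ_apply]
      exact g2 m (by omega)

lemma choose_step (n j : ℕ) : n.choose j * (n - j) / (j + 1) = n.choose (j + 1) :=
  Nat.div_eq_of_eq_mul_left (Nat.succ_pos j) (Nat.choose_succ_right_eq n j).symm

lemma choose_step' (n j : ℕ) : (n + j).choose j * (n + j + 1) / (j + 1) =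
    (n + (j + 1)).choose (j + 1) := by
  apply Nat.div_eq_of_eq_mul_left (Nat.succ_pos j)
  have := Nat.add_one_mul_choose_eq (n + j) j
  rw [mul_comm]
  exact this

lemma sumA_eq (n : ℕ) : ∀ i j : ℕ, sumA n i j (n.choose j) ((n + j).choose j) =
    ∑ t ∈ range i, (n.choose (j + t)) ^ 2 * ((n + (j + t)).choose (j + t)) ^ 2 := by
  intro i
  induction i with
  | zero => intro j; simp [sumA]
  | succ i ih =>
    intro j
    rw [sumA, choose_step, choose_step', ih (j + 1), sum_range_succ', add_comm]
    congr 1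
    · refine sum_congr rfl fun t _ => ?_
      rw [show j + 1 + t = j + (t + 1) by ring]
    · rw [add_zero]
      ring

lemma sumB_eq (n : ℕ) : ∀ i j : ℕ, sumB n i j (n.choose j) ((n + j).choose j) =
    ∑ t ∈ range i, (n.choose (j + t)) ^ 2 * ((n + (j + t)).choose (j + t)) := by
  intro i
  induction i with
  | zero => intro j; simp [sumB]
  | succ i ih =>
    intro j
    rw [sumB, choose_step, choose_step', ih (j + 1), sum_range_succ', add_comm]
    congr 1
    · refine sum_congr rfl fun t _ => ?_
      rw [show j + 1 + t = j + (t + 1) by ring]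
    · rw [add_zero]
      ring

lemma fastA_eq (n : ℕ) : ((fastA n : ℕ) : ℤ) = apA n := by
  have h := sumA_eq n (n + 1) 0
  rw [Nat.choose_zero_right, add_zero, Nat.choose_zero_right] at h
  rw [fastA, h, apA]
  push_cast
  simp only [zero_add]

lemma fastB_eq (n : ℕ) : ((fastB n : ℕ) : ℤ) = apB n := by
  have h := sumB_eq n (n + 1) 0
  rw [Nat.choose_zero_right, add_zero, Nat.choose_zero_right] at h
  rw [fastB, h, apB]
  push_cast
  simp only [zero_add]

lemma fastA_pos (n : ℕ) : 0 < fastA n := by
  simp only [fastA, sumA]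
  omega

lemma fastB_pos (n : ℕ) : 0 < fastB n := by
  simp only [fastB, sumB]
  omega

lemma fin_of {f : ℕ → ℕ} {a : ℕ → ℝ} (ha : ∀ n, a n = (f n : ℝ)) (hpos : ∀ n, 0 < f n)
    (hc : chk 11 ((List.range 76).map f) = true) : FinCheck a := by
  have hrep : Rep a 0 ((List.range 76).map f) := by
    apply rep_of
    intro i hi
    rw [zero_add, ha, List.getElem_map, List.getElem_range]
  obtain ⟨h1, h2⟩ := chk_spec 11 _ a hrep hc
  have hl : ((List.range 76).map f).length = 76 := by simp
  rw [hl] at h1 h2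
  refine ⟨fun k hk m hm => ?_, fun m hm => ?_⟩
  · rcases k with _ | k
    · change 0 < a m
      rw [ha]
      exact_mod_cast hpos m
    · exact h1 (k + 1) (by omega) hk m (by omega)
  · exact h2 m (by omega)

set_option maxRecDepth 100000 in
theorem chkA : chk 11 ((List.range 76).map fastA) = true := by decide +kernel

set_option maxRecDepth 100000 in
theorem chkB : chk 11 ((List.range 76).map fastB) = true := by decide +kernel

theorem finA : FinCheck (fun n => ((apA n : ℤ) : ℝ)) := by
  refine fin_of (f := fastA) (fun n => ?_) fastA_pos chkA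
  simp only [← fastA_eq, Int.cast_natCast]

theorem finB : FinCheck (fun n => ((apB n : ℤ) : ℝ)) := by
  refine fin_of (f := fastB) (fun n => ?_) fastB_pos chkB
  simp only [← fastB_eq, Int.cast_natCast]

end Pool.Agent.TH126.Apy
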