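import Pool.Agent.TH387.EI.Defs
set_option autoImplicit false
open scoped ComplexOrder InnerProductSpace
noncomputable section

namespace Pool.Agent.TH126.EINet
universe u

variable {E : Type u} [NormedAddCommGroup E] [InnerProductSpace ℂ E]

/-- `g` and `s` are within `r` -/
def Cl (r : ℝ) (g s : E ≃ₗᵢ[ℂ] E) : Prop := ∀ v : E, ‖g v - s v‖ ≤ r * ‖v‖

theorem exists_cover [FiniteDimensional ℂ E] (r : ℝ) (hr : 0 < r) :
    ∃ S : Finset (E ≃ₗᵢ[ℂ] E), ∀ g : E ≃ₗᵢ[ℂ] E, ∃ s ∈ S, Cl r g s := by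
  classical
  obtain ⟨c, hc⟩ : ∃ c : (E ≃ₗᵢ[ℂ] E) → (E →L[ℂ] E),
    c = fun g => (g.toContinuousLinearEquiv : E →L[ℂ] E) := ⟨_, rfl⟩
  have hcv : ∀ g v, c g v = g v := by
    intro g v
    rw [hc]
    rfl
  have : ProperSpace (E →L[ℂ] E) := FiniteDimensional.proper ℂ _
  have h1 : TotallyBounded (Set.range c) := by
    refine (isCompact_closedBall (0 : E →L[ℂ] E) 1).totallyBounded.subset ?_
    rintro _ ⟨g, rfl⟩
    rw [mem_closedBall_zero_iff]
    refine ContinuousLinearMap.opNorm_le_bound _ zero_le_one fun v => ?_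
    rw [hcv, one_mul, g.norm_map]
  obtain ⟨t, ht, htf, hcov⟩ := Metric.finite_approx_of_totallyBounded h1 r hr
  obtain ⟨t', rfl⟩ := htf.exists_finset_coe
  rw [← Set.image_univ] at ht
  obtain ⟨S, -, hS⟩ := Finset.subset_set_image_iff.1 ht
  refine ⟨S, fun g => ?_⟩
  have h2 := hcov (Set.mem_range_self g)
  simp only [Set.mem_iUnion, Metric.mem_ball, exists_prop] at h2
  obtain ⟨y, hy, hyr⟩ := h2
  rw [Finset.mem_coe, ← hS, Finset.mem_image] at hy
  obtain ⟨s, hs, rfl⟩ := hy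
  refine ⟨s, hs, fun v => ?_⟩
  rw [dist_eq_norm] at hyr
  have h3 := (c g - c s).le_opNorm v
  rw [sub_apply, hcv, hcv] at h3
  exact h3.trans (mul_le_mul_of_nonneg_right hyr.le (norm_nonneg _))

end Pool.Agent.TH126.EINet

namespace Pool.Agent.TH387.EI
universe u

open Pool.Agent.TH126.EINet in
theorem exists_net : NetP.{u} := by
  classical
  intro E _ _ _ ρ hρ
  have hex : ∃ n : ℕ, ∃ S : Finset (E ≃ₗᵢ[ℂ] E), S.card = n ∧
      ∀ g : E ≃ₗᵢ[ℂ] E, ∃ s ∈ S, Cl (ρ / 2) g s := by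
    obtain ⟨S, hS⟩ := exists_cover (E := E) (ρ / 2) (half_pos hρ)
    exact ⟨_, S, rfl, hS⟩
  obtain ⟨S, hSc, hS⟩ := Nat.find_spec hex
  have hmin : ∀ T : Finset (E ≃ₗᵢ[ℂ] E), (∀ g : E ≃ₗᵢ[ℂ] E, ∃ s ∈ T, Cl (ρ / 2) g s) →
      S.card ≤ T.card := by
    intro T hT
    rw [hSc]
    exact Nat.find_min' hex ⟨T, rfl, hT⟩
  refine ⟨S, ?_, ?_⟩
  · obtain ⟨s, hs, -⟩ := hS (LinearIsometryEquiv.refl ℂ E)
    exact ⟨s, hs⟩
  intro u
  obtain ⟨N, hN⟩ : ∃ N : S → Finset (E ≃ₗᵢ[ℂ] E), N = fun s =>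
    S.filter (fun t => ∀ v : E, ‖u (s.1 v) - t v‖ ≤ ρ * ‖v‖) := ⟨_, rfl⟩
  have hall : ∀ X : Finset S, X.card ≤ (X.biUnion N).card := by
    intro X
    by_contra hX
    push Not at hX
    obtain ⟨X', hX'⟩ : ∃ X' : Finset (E ≃ₗᵢ[ℂ] E), X' = X.image Subtype.val := ⟨_, rfl⟩
    have hXc : X'.card = X.card := by
      rw [hX']
      exact Finset.card_image_of_injective _ Subtype.val_injective
    have hXS : X' ⊆ S := by
      rw [hX']
      intro s hs
      obtain ⟨a, -, rfl⟩ := Finset.mem_image.1 hs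
      exact a.2
    have h1 := hmin (((S \ X').image (fun s => s.trans u)) ∪ X.biUnion N) (by
      intro g
      obtain ⟨s, hs, hgs⟩ := hS (g.trans u.symm)
      have hgs' : Cl (ρ / 2) g (s.trans u) := by
        intro v
        have h2 := hgs v
        have h3 : ‖g v - u (s v)‖ = ‖u.symm (g v) - s v‖ := by
          rw [← u.norm_map (u.symm (g v) - s v), map_sub, u.apply_symm_apply]
        change ‖g v - u (s v)‖ ≤ _
        rw [h3]
        exact h2
      by_cases hsX : s ∈ X'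
      · obtain ⟨t, ht, hgt⟩ := hS g
        refine ⟨t, Finset.mem_union_right _ ?_, hgt⟩
        rw [hX', Finset.mem_image] at hsX
        obtain ⟨a, ha, rfl⟩ := hsX
        rw [Finset.mem_biUnion]
        refine ⟨a, ha, ?_⟩
        rw [hN, Finset.mem_filter]
        refine ⟨ht, fun v => ?_⟩
        have h4 := hgs' v
        have h5 := hgt v
        change ‖g v - u (a.1 v)‖ ≤ _ at h4
        have h6 : u (a.1 v) - t v = -(g v - u (a.1 v)) + (g v - t v) := by abel
        rw [h6]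
        refine (norm_add_le _ _).trans ?_
        rw [norm_neg]
        linarith
      · refine ⟨s.trans u, Finset.mem_union_left _ ?_, hgs'⟩
        rw [Finset.mem_image]
        exact ⟨s, Finset.mem_sdiff.2 ⟨hs, hsX⟩, rfl⟩)
    have h2 := Finset.card_union_le ((S \ X').image (fun s => s.trans u)) (X.biUnion N)
    have h3 : ((S \ X').image (fun s => s.trans u)).card ≤ (S \ X').card :=
      Finset.card_image_le
    have h4 : (S \ X').card = S.card - X'.card := Finset.card_sdiff_of_subset hXS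
    have h5 := Finset.card_le_card hXS
    omega
  obtain ⟨f, hf, hfN⟩ := (Finset.all_card_le_biUnion_card_iff_exists_injective N).1 hall
  have hfS : ∀ s, f s ∈ S ∧ ∀ v : E, ‖u (s.1 v) - f s v‖ ≤ ρ * ‖v‖ := by
    intro s
    have := hfN s
    rw [hN, Finset.mem_filter] at this
    exact this
  have hinj : Function.Injective (fun s : S => (⟨f s, (hfS s).1⟩ : S)) := by
    intro s s' h
    exact hf (congrArg Subtype.val h)
  refine ⟨Equiv.ofBijective _ (Finite.injective_iff_bijective.1 hinj), ?_⟩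
  intro s v
  exact (hfS s).2 v

end Pool.Agent.TH387.EI
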