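import Pool.Agent.TH597.FD.Stm

set_option autoImplicit false

/-!
The exceptional set of lines for a planar density (job for helper597, project FD).
-/

namespace Pool.Agent.TH126.FD_PROJ

open MeasureTheory Set Metric Filter
open scoped ENNReal Real Topology
open Pool.Agent.TH597.FD (avg PROJ)

lemma cs {α : Type*} [MeasurableSpace α] (μ : Measure α) (g : α → ℝ≥0∞)
    (hg : AEMeasurable g μ) : (∫⁻ x, g x ∂μ) ^ 2 ≤ μ univ * ∫⁻ x, g x ^ 2 ∂μ := by
  have h := ENNReal.lintegral_mul_le_Lp_mul_Lq μ Real.HolderConjugate.two_two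
    (f := fun _ => 1) (g := g) aemeasurable_const hg
  simp only [Pi.mul_apply, one_mul, ENNReal.one_rpow, lintegral_one] at h
  calc (∫⁻ x, g x ∂μ) ^ 2
      ≤ ((μ univ) ^ (1 / 2 : ℝ) * (∫⁻ x, g x ^ (2 : ℝ) ∂μ) ^ (1 / 2 : ℝ)) ^ 2 :=
        pow_le_pow_left' h 2
    _ = μ univ * ∫⁻ x, g x ^ 2 ∂μ := by
        rw [mul_pow, ← ENNReal.rpow_natCast, ← ENNReal.rpow_natCast, ← ENNReal.rpow_mul,
          ← ENNReal.rpow_mul]
        norm_num

lemma avg_sq {F : ℝ × ℝ → ℂ} (hF : Continuous F) {a : ℝ} (ha : 0 < a) (t u : ℝ) :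
    ENNReal.ofReal (‖avg a F t u‖ ^ 2) ≤ ENNReal.ofReal (4 * a ^ 2) *
      ∫⁻ p in Icc (t - a) (t + a) ×ˢ Icc (u - a) (u + a), ENNReal.ofReal (‖F p‖ ^ 2) := by
  have h0 : -a ≤ a := by linarith
  have hc : Continuous fun q : ℝ × ℝ => F (t + q.1, u + q.2) := by fun_prop
  have h1 : ‖avg a F t u‖ₑ ≤ ∫⁻ q in Ioc (-a) a ×ˢ Ioc (-a) a, ‖F (t + q.1, u + q.2)‖ₑ := by
    unfold avg
    rw [intervalIntegral.integral_of_le h0]
    refine (enorm_integral_le_lintegral_enorm _).trans ?_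
    rw [Measure.volume_eq_prod, ← Measure.prod_restrict,
      lintegral_prod _ hc.enorm.measurable.aemeasurable]
    refine lintegral_mono fun τ => ?_
    rw [intervalIntegral.integral_of_le h0]
    exact enorm_integral_le_lintegral_enorm _
  have h2 : ENNReal.ofReal (‖avg a F t u‖ ^ 2) = ‖avg a F t u‖ₑ ^ 2 := by
    rw [ENNReal.ofReal_pow (norm_nonneg _), ofReal_norm]
  have h3 : volume (Ioc (-a) a ×ˢ Ioc (-a) a : Set (ℝ × ℝ)) = ENNReal.ofReal (4 * a ^ 2) := by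
    rw [Measure.volume_eq_prod, Measure.prod_prod, Real.volume_Ioc,
      ← ENNReal.ofReal_mul (by linarith)]
    congr 1
    ring
  have h4 := cs (volume.restrict (Ioc (-a) a ×ˢ Ioc (-a) a : Set (ℝ × ℝ)))
    (fun q => ‖F (t + q.1, u + q.2)‖ₑ) hc.enorm.measurable.aemeasurable
  rw [Measure.restrict_apply_univ, h3] at h4
  rw [h2]
  refine (pow_le_pow_left' h1 2).trans (h4.trans (mul_le_mul_right ?_ _))
  rw [← lintegral_indicator (measurableSet_Ioc.prod measurableSet_Ioc),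
    ← lintegral_indicator (measurableSet_Icc.prod measurableSet_Icc)]
  have h5 := lintegral_add_left_eq_self (μ := (volume : Measure (ℝ × ℝ)))
    ((Icc (t - a) (t + a) ×ˢ Icc (u - a) (u + a)).indicator
      fun p => ENNReal.ofReal (‖F p‖ ^ 2)) (t, u)
  rw [← h5]
  refine lintegral_mono fun q => ?_
  by_cases hq : q ∈ Ioc (-a) a ×ˢ Ioc (-a) a
  · have hq' : (t, u) + q ∈ Icc (t - a) (t + a) ×ˢ Icc (u - a) (u + a) := by
      obtain ⟨⟨h5, h6⟩, h7, h8⟩ := hq
      refine ⟨⟨?_, ?_⟩, ?_, ?_⟩ <;> simp <;> linarith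
    rw [indicator_of_mem hq, indicator_of_mem hq', ENNReal.ofReal_pow (norm_nonneg _),
      ofReal_norm]
    rfl
  · rw [indicator_of_notMem hq]
    exact zero_le

/-- the integral of `|F|^2` over a strip around the line of slope `lam` -/
noncomputable def strip (F : ℝ × ℝ → ℂ) (T lam ρ : ℝ) : ℝ≥0∞ :=
  ∫⁻ p in {p : ℝ × ℝ | T / 2 ≤ p.1 ∧ p.1 ≤ 3 * T ∧ |p.2 - lam * p.1| ≤ ρ},
    ENNReal.ofReal (‖F p‖ ^ 2)

lemma meas_strip (T lam ρ : ℝ) :
    MeasurableSet {p : ℝ × ℝ | T / 2 ≤ p.1 ∧ p.1 ≤ 3 * T ∧ |p.2 - lam * p.1| ≤ ρ} := by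
  simp only [ofPred_and]
  exact (measurableSet_le (by fun_prop) (by fun_prop)).inter
    ((measurableSet_le (by fun_prop) (by fun_prop)).inter
      (measurableSet_le (by fun_prop) (by fun_prop)))

lemma D_le {F : ℝ × ℝ → ℂ} (hF : Continuous F) {a : ℝ} (ha : 0 < a) {L T lam : ℝ}
    (hT : 2 * a ≤ T) (h0 : 0 ≤ lam) (hL : lam ≤ L) :
    ∫⁻ t in Ico T (2 * T), ENNReal.ofReal (‖avg a F t (lam * t)‖ ^ 2) ≤
      ENNReal.ofReal (4 * a ^ 2) * (ENNReal.ofReal (2 * a) * strip F T lam (a + L * a)) := by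
  classical
  set h : ℝ × ℝ → ℝ≥0∞ := fun p => ENNReal.ofReal (‖F p‖ ^ 2) with hh
  have hm : Measurable h := by
    rw [hh]; fun_prop
  set G : ℝ → ℝ × ℝ → ℝ≥0∞ := fun t p =>
    if (t - a ≤ p.1 ∧ p.1 ≤ t + a) ∧ (lam * t - a ≤ p.2 ∧ p.2 ≤ lam * t + a) then h p else 0
    with hG
  have hGm : Measurable (Function.uncurry G) := by
    have hs : MeasurableSet {q : ℝ × (ℝ × ℝ) | (q.1 - a ≤ q.2.1 ∧ q.2.1 ≤ q.1 + a) ∧
        (lam * q.1 - a ≤ q.2.2 ∧ q.2.2 ≤ lam * q.1 + a)} := by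
      simp only [ofPred_and]
      exact ((measurableSet_le (by fun_prop) (by fun_prop)).inter
        (measurableSet_le (by fun_prop) (by fun_prop))).inter
        ((measurableSet_le (by fun_prop) (by fun_prop)).inter
          (measurableSet_le (by fun_prop) (by fun_prop)))
    exact Measurable.ite hs (hm.comp measurable_snd) measurable_const
  have h1 : ∀ t, ENNReal.ofReal (‖avg a F t (lam * t)‖ ^ 2) ≤
      ENNReal.ofReal (4 * a ^ 2) * ∫⁻ p, G t p := by
    intro t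
    refine (avg_sq hF ha t (lam * t)).trans (mul_le_mul_right (le_of_eq ?_) _)
    rw [← lintegral_indicator (measurableSet_Icc.prod measurableSet_Icc)]
    refine lintegral_congr fun p => ?_
    simp only [indicator_apply, mem_prod, mem_Icc, hG]
    rfl
  have h2 : ∀ p, ∫⁻ t in Ico T (2 * T), G t p ≤
      ({p : ℝ × ℝ | T / 2 ≤ p.1 ∧ p.1 ≤ 3 * T ∧ |p.2 - lam * p.1| ≤ a + L * a}).indicator
        (fun p => ENNReal.ofReal (2 * a) * h p) p := by
    intro p
    by_cases hp : p ∈ {p : ℝ × ℝ | T / 2 ≤ p.1 ∧ p.1 ≤ 3 * T ∧ |p.2 - lam * p.1| ≤ a + L * a}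
    · rw [indicator_of_mem hp]
      calc ∫⁻ t in Ico T (2 * T), G t p ≤ ∫⁻ t, G t p := setLIntegral_le_lintegral _ _
        _ ≤ ∫⁻ t, (Icc (p.1 - a) (p.1 + a)).indicator (fun _ => h p) t := by
            refine lintegral_mono fun t => ?_
            simp only [hG]
            split_ifs with h3
            · rw [indicator_of_mem (show t ∈ Icc (p.1 - a) (p.1 + a) from
                ⟨by linarith [h3.1.2], by linarith [h3.1.1]⟩)]
            · exact zero_le
        _ = ENNReal.ofReal (2 * a) * h p := by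
            rw [lintegral_indicator measurableSet_Icc, setLIntegral_const, Real.volume_Icc,
              mul_comm]
            congr 2
            ring
    · rw [indicator_of_notMem hp]
      refine le_of_eq ?_
      rw [setLIntegral_congr_fun measurableSet_Ico (g := fun _ => 0)]
      · simp
      · intro t ht
        simp only [hG]
        rw [if_neg]
        rintro ⟨⟨h3, h4⟩, h5, h6⟩
        refine hp ⟨by linarith [ht.1], by linarith [ht.2], ?_⟩
        have h7 : |lam * (t - p.1)| ≤ L * a := by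
          rw [abs_mul, abs_of_nonneg h0]
          refine mul_le_mul hL ?_ (abs_nonneg _) (h0.trans hL)
          rw [abs_le]; constructor <;> linarith
        have h8 : |p.2 - lam * t| ≤ a := by rw [abs_le]; constructor <;> linarith
        calc |p.2 - lam * p.1| = |(p.2 - lam * t) + lam * (t - p.1)| := by congr 1; ring
          _ ≤ |p.2 - lam * t| + |lam * (t - p.1)| := abs_add_le _ _
          _ ≤ a + L * a := add_le_add h8 h7
  calc ∫⁻ t in Ico T (2 * T), ENNReal.ofReal (‖avg a F t (lam * t)‖ ^ 2)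
      ≤ ∫⁻ t in Ico T (2 * T), ENNReal.ofReal (4 * a ^ 2) * ∫⁻ p, G t p :=
        lintegral_mono fun t => h1 t
    _ = ENNReal.ofReal (4 * a ^ 2) * ∫⁻ t in Ico T (2 * T), ∫⁻ p, G t p := by
        rw [lintegral_const_mul' _ _ ENNReal.ofReal_ne_top]
    _ = ENNReal.ofReal (4 * a ^ 2) * ∫⁻ p, ∫⁻ t in Ico T (2 * T), G t p := by
        rw [lintegral_lintegral_swap hGm.aemeasurable]
    _ ≤ ENNReal.ofReal (4 * a ^ 2) * (ENNReal.ofReal (2 * a) * strip F T lam (a + L * a)) := by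
        refine mul_le_mul_right ?_ _
        refine (lintegral_mono h2).trans (le_of_eq ?_)
        rw [lintegral_indicator (meas_strip _ _ _), lintegral_const_mul' _ _ ENNReal.ofReal_ne_top]
        rfl

lemma strip_mono (F : ℝ × ℝ → ℂ) {T lam lam' ρ : ℝ} (hT : 0 < T) (h : |lam - lam'| ≤ 1 / T) :
    strip F T lam ρ ≤ strip F T lam' (ρ + 3) := by
  refine lintegral_mono_set ?_
  rintro p ⟨h1, h2, h3⟩
  refine ⟨h1, h2, ?_⟩
  have h4 : |(lam - lam') * p.1| ≤ 3 := by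
    rw [abs_mul, abs_of_nonneg (show 0 ≤ p.1 by linarith)]
    calc |lam - lam'| * p.1 ≤ 1 / T * (3 * T) :=
          mul_le_mul h h2 (by linarith) (by positivity)
      _ = 3 := by field_simp
  calc |p.2 - lam' * p.1| = |(p.2 - lam * p.1) + (lam - lam') * p.1| := by congr 1; ring
    _ ≤ |p.2 - lam * p.1| + |(lam - lam') * p.1| := abs_add_le _ _
    _ ≤ ρ + 3 := add_le_add h3 h4

lemma strip_int {F : ℝ × ℝ → ℂ} (hF : Continuous F) {L T ρ : ℝ} (hL : 1 ≤ L) (hρ : 0 ≤ ρ)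
    (hT : 0 < T) (hT1 : 8 * L * ρ ≤ T) :
    ∫⁻ lam in Icc (1 / (2 * L)) (2 * L), strip F T lam ρ ≤
      ENNReal.ofReal (4 * ρ / T) *
        ∫⁻ p in Icc (T / (8 * L)) (56 * L ^ 2 * (T / (8 * L))) ×ˢ
          Icc (T / (8 * L)) (56 * L ^ 2 * (T / (8 * L))), ENNReal.ofReal (‖F p‖ ^ 2) := by
  classical
  have hL0 : 0 < L := by linarith
  set B : Set (ℝ × ℝ) := Icc (T / (8 * L)) (56 * L ^ 2 * (T / (8 * L))) ×ˢ
          Icc (T / (8 * L)) (56 * L ^ 2 * (T / (8 * L))) with hB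
  have hBm : MeasurableSet B := measurableSet_Icc.prod measurableSet_Icc
  set h : ℝ × ℝ → ℝ≥0∞ := fun p => ENNReal.ofReal (‖F p‖ ^ 2) with hh
  have hm : Measurable h := by
    rw [hh]; fun_prop
  set G : ℝ → ℝ × ℝ → ℝ≥0∞ := fun lam p =>
    if T / 2 ≤ p.1 ∧ p.1 ≤ 3 * T ∧ |p.2 - lam * p.1| ≤ ρ then h p else 0 with hG
  have hGm : Measurable (Function.uncurry G) := by
    have hs : MeasurableSet {q : ℝ × (ℝ × ℝ) | T / 2 ≤ q.2.1 ∧ q.2.1 ≤ 3 * T ∧
        |q.2.2 - q.1 * q.2.1| ≤ ρ} := by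
      simp only [ofPred_and]
      exact (measurableSet_le (by fun_prop) (by fun_prop)).inter
        ((measurableSet_le (by fun_prop) (by fun_prop)).inter
          (measurableSet_le (by fun_prop) (by fun_prop)))
    exact Measurable.ite hs (hm.comp measurable_snd) measurable_const
  have h1 : ∀ lam, strip F T lam ρ = ∫⁻ p, G lam p := by
    intro lam
    rw [strip, ← lintegral_indicator (meas_strip _ _ _)]
    refine lintegral_congr fun p => ?_
    simp only [indicator_apply, mem_ofPred_eq, hG]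
    rfl
  have h2 : ∀ p, ∫⁻ lam in Icc (1 / (2 * L)) (2 * L), G lam p ≤
      B.indicator (fun p => ENNReal.ofReal (4 * ρ / T) * h p) p := by
    intro p
    by_cases hp : p ∈ B ∧ T / 2 ≤ p.1
    · have hx : 0 < p.1 := by linarith [hp.2]
      rw [indicator_of_mem hp.1]
      calc ∫⁻ lam in Icc (1 / (2 * L)) (2 * L), G lam p ≤ ∫⁻ lam, G lam p :=
            setLIntegral_le_lintegral _ _
        _ ≤ ∫⁻ lam, (Icc ((p.2 - ρ) / p.1) ((p.2 + ρ) / p.1)).indicator (fun _ => h p) lam := by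
            refine lintegral_mono fun lam => ?_
            simp only [hG]
            split_ifs with h3
            · obtain ⟨h4, h5⟩ := abs_le.1 h3.2.2
              rw [indicator_of_mem (show lam ∈ Icc ((p.2 - ρ) / p.1) ((p.2 + ρ) / p.1) from
                ⟨by rw [div_le_iff₀ hx]; linarith, by rw [le_div_iff₀ hx]; linarith⟩)]
            · exact zero_le
        _ = ENNReal.ofReal (2 * ρ / p.1) * h p := by
            rw [lintegral_indicator measurableSet_Icc, setLIntegral_const, Real.volume_Icc,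
              mul_comm]
            congr 2
            ring
        _ ≤ ENNReal.ofReal (4 * ρ / T) * h p := by
            refine mul_le_mul_left (ENNReal.ofReal_le_ofReal ?_) _
            rw [div_le_div_iff₀ hx hT]
            nlinarith [hp.2]
    · refine le_trans (le_of_eq ?_) zero_le
      rw [setLIntegral_congr_fun measurableSet_Icc (g := fun _ => 0)]
      · simp
      · intro lam hlam
        simp only [hG]
        rw [if_neg]
        rintro ⟨h3, h4, h5⟩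
        obtain ⟨h6, h7⟩ := abs_le.1 h5
        have hx : 0 < p.1 := by linarith
        have h8 : 1 / (2 * L) * p.1 ≤ lam * p.1 := mul_le_mul_of_nonneg_right hlam.1 hx.le
        have h9 : lam * p.1 ≤ 2 * L * p.1 := mul_le_mul_of_nonneg_right hlam.2 hx.le
        have hT8 : T / (8 * L) ≤ T / 2 := by
          apply div_le_div_of_nonneg_left hT.le (by norm_num) (by linarith)
        have e1 : 56 * L ^ 2 * (T / (8 * L)) = 7 * L * T := by field_simp; ring
        have h10 : 1 / (2 * L) * (T / 2) ≤ 1 / (2 * L) * p.1 :=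
          mul_le_mul_of_nonneg_left h3 (by positivity)
        have e2 : 1 / (2 * L) * (T / 2) = 2 * (T / (8 * L)) := by field_simp; ring
        have h11 : ρ ≤ T / (8 * L) := by
          rw [le_div_iff₀ (by positivity)]; linarith
        have h12 : T / (8 * L) ≤ T := div_le_self hT.le (by linarith)
        have h13 : T ≤ L * T := le_mul_of_one_le_left hT.le hL
        have h14 : 2 * L * p.1 ≤ 2 * L * (3 * T) := mul_le_mul_of_nonneg_left h4 (by positivity)
        refine hp ⟨⟨⟨by linarith, ?_⟩, by linarith, ?_⟩, h3⟩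
        · rw [e1]; linarith
        · rw [e1]; linarith
  calc ∫⁻ lam in Icc (1 / (2 * L)) (2 * L), strip F T lam ρ
      = ∫⁻ lam in Icc (1 / (2 * L)) (2 * L), ∫⁻ p, G lam p := lintegral_congr fun lam => h1 lam
    _ = ∫⁻ p, ∫⁻ lam in Icc (1 / (2 * L)) (2 * L), G lam p := by
        rw [lintegral_lintegral_swap hGm.aemeasurable]
    _ ≤ ENNReal.ofReal (4 * ρ / T) * ∫⁻ p in B, ENNReal.ofReal (‖F p‖ ^ 2) := by
        refine (lintegral_mono h2).trans (le_of_eq ?_)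
        rw [lintegral_indicator hBm, lintegral_const_mul' _ _ ENNReal.ofReal_ne_top]

lemma avg_le {F : ℝ × ℝ → ℂ} {M a : ℝ} (hM : ∀ p, ‖F p‖ ≤ M) (t u : ℝ) :
    ‖avg a F t u‖ ≤ M * |a - -a| * |a - -a| :=
  intervalIntegral.norm_integral_le_of_norm_le_const fun _ _ =>
    intervalIntegral.norm_integral_le_of_norm_le_const fun _ _ => hM _

/-- infinitely many dyadic pieces are large -/
lemma exists_large {F : ℝ × ℝ → ℂ} {M a κ lam : ℝ} (hM : ∀ p, ‖F p‖ ≤ M) (hκ : 0 < κ)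
    (h : ∫⁻ t in Ioi (0 : ℝ), ENNReal.ofReal (‖avg a F t (lam * t)‖ ^ 2) = ⊤) (J : ℕ) :
    ∃ k : ℕ, ENNReal.ofReal (((2 : ℝ) ^ (k + J)) ^ (-κ)) <
      ∫⁻ t in Ico ((2 : ℝ) ^ (k + J)) (2 * 2 ^ (k + J)),
        ENNReal.ofReal (‖avg a F t (lam * t)‖ ^ 2) := by
  by_contra hcon
  push Not at hcon
  have hsub : Ioi (0 : ℝ) ⊆ Ioc 0 (2 ^ J) ∪
      ⋃ k : ℕ, Ico ((2 : ℝ) ^ (k + J)) (2 * 2 ^ (k + J)) := by
    intro t ht
    rcases le_or_gt t (2 ^ J) with h1 | h1
    · exact Or.inl ⟨ht, h1⟩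
    · right
      have h2 : (1 : ℝ) ≤ t / 2 ^ J := by rw [one_le_div (by positivity)]; exact h1.le
      obtain ⟨n, h3, h4⟩ := exists_nat_pow_near h2 (one_lt_two)
      refine mem_iUnion.2 ⟨n, ?_, ?_⟩
      · rw [le_div_iff₀ (by positivity)] at h3
        rw [pow_add]; exact h3
      · rw [div_lt_iff₀ (by positivity)] at h4
        rw [pow_add]
        calc t < 2 ^ (n + 1) * 2 ^ J := h4
          _ = 2 * (2 ^ n * 2 ^ J) := by ring
  have h1 : ∫⁻ t in Ioc (0 : ℝ) (2 ^ J), ENNReal.ofReal (‖avg a F t (lam * t)‖ ^ 2) < ⊤ := by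
    calc ∫⁻ t in Ioc (0 : ℝ) (2 ^ J), ENNReal.ofReal (‖avg a F t (lam * t)‖ ^ 2)
        ≤ ∫⁻ _t in Ioc (0 : ℝ) (2 ^ J), ENNReal.ofReal ((M * |a - -a| * |a - -a|) ^ 2) :=
          lintegral_mono fun t => ENNReal.ofReal_le_ofReal
            (pow_le_pow_left₀ (norm_nonneg _) (avg_le hM t (lam * t)) 2)
      _ < ⊤ := by
          rw [setLIntegral_const, Real.volume_Ioc]
          exact ENNReal.mul_lt_top ENNReal.ofReal_lt_top ENNReal.ofReal_lt_top
  have hsm : Summable fun k : ℕ => ((2 : ℝ) ^ (k + J)) ^ (-κ) := by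
    have e : (fun k : ℕ => ((2 : ℝ) ^ (k + J)) ^ (-κ)) =
        fun k : ℕ => ((2 : ℝ) ^ J) ^ (-κ) * ((2 : ℝ) ^ (-κ)) ^ k := by
      funext k
      rw [pow_add, Real.mul_rpow (by positivity) (by positivity), mul_comm,
        ← Real.rpow_natCast ((2 : ℝ) ^ (-κ)) k, ← Real.rpow_mul (by norm_num),
        ← Real.rpow_natCast 2 k, ← Real.rpow_mul (by norm_num), mul_comm (k : ℝ) (-κ)]
    rw [e]
    exact (summable_geometric_of_lt_one (by positivity)
      (Real.rpow_lt_one_of_one_lt_of_neg (by norm_num) (by linarith))).mul_left _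
  have h2 : ∫⁻ t in ⋃ k : ℕ, Ico ((2 : ℝ) ^ (k + J)) (2 * 2 ^ (k + J)),
      ENNReal.ofReal (‖avg a F t (lam * t)‖ ^ 2) < ⊤ :=
    ((lintegral_iUnion_le _ _).trans (ENNReal.tsum_le_tsum hcon)).trans_lt
      (lt_top_iff_ne_top.2 hsm.tsum_ofReal_ne_top)
  have h3 := (lintegral_mono_set (μ := volume)
    (f := fun t => ENNReal.ofReal (‖avg a F t (lam * t)‖ ^ 2)) hsub).trans
    (lintegral_union_le _ _ _)
  rw [h] at h3
  exact absurd (h3.trans_lt (ENNReal.add_lt_top.2 ⟨h1, h2⟩)) (lt_irrefl _)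

/-- the number of large dyadic intervals -/
lemma card_bound {F : ℝ × ℝ → ℂ} (hF : Continuous F) {a θ κ L T C ρ : ℝ} (ha : 0 < a)
    (hL : 2 ≤ L) (hρ : ρ = a + L * a + 3) (hT : 0 < T) (h1 : 2 * a ≤ T) (h2 : 8 * L * ρ ≤ T)
    (h3 : 2 * L ≤ T) (hC0 : 0 ≤ C)
    (hC : ∫⁻ p in Icc (T / (8 * L)) (56 * L ^ 2 * (T / (8 * L))) ×ˢ
          Icc (T / (8 * L)) (56 * L ^ 2 * (T / (8 * L))), ENNReal.ofReal (‖F p‖ ^ 2) ≤
          ENNReal.ofReal (C * (T / (8 * L)) ^ θ))
    (E : Finset ℕ) (hE : ∀ i ∈ E, ∃ lam : ℝ, 1 / L ≤ lam ∧ lam ≤ L ∧ (i : ℝ) / T ≤ lam ∧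
      lam < (i + 1) / T ∧ ENNReal.ofReal (T ^ (-κ)) <
        ∫⁻ t in Ico T (2 * T), ENNReal.ofReal (‖avg a F t (lam * t)‖ ^ 2)) :
    (E.card : ℝ) ≤ 32 * a ^ 3 * ρ * C * (8 * L) ^ (-θ) * T ^ (θ + κ) := by
  have hL0 : 0 < L := by linarith
  have hρ0 : 0 ≤ ρ := by rw [hρ]; positivity
  set c0 : ℝ≥0∞ := ENNReal.ofReal (4 * a ^ 2) * ENNReal.ofReal (2 * a) with hc0
  have hc0' : c0 ≠ ⊤ := ENNReal.mul_ne_top ENNReal.ofReal_ne_top ENNReal.ofReal_ne_top
  have hpt : ∀ i ∈ E, ∀ lam' ∈ Ico ((i : ℝ) / T) ((i + 1) / T),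
      ENNReal.ofReal (T ^ (-κ)) ≤ c0 * strip F T lam' ρ := by
    intro i hi lam' hlam'
    obtain ⟨lam, h4, h5, h6, h7, h8⟩ := hE i hi
    have h9 : |lam - lam'| ≤ 1 / T := by
      have e : ((i : ℝ) + 1) / T = i / T + 1 / T := by ring
      rw [e] at h7
      have h10 := hlam'.2
      rw [e] at h10
      rw [abs_le]
      constructor <;> linarith [hlam'.1]
    have h10 : 0 ≤ lam := le_trans (by positivity) h4
    calc ENNReal.ofReal (T ^ (-κ)) ≤ _ := h8.le
      _ ≤ _ := D_le hF ha h1 h10 h5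
      _ = c0 * strip F T lam (a + L * a) := by rw [hc0, mul_assoc]
      _ ≤ c0 * strip F T lam' ρ := by
          rw [hρ]
          exact mul_le_mul_right (strip_mono F hT h9) _
  have hsub : (⋃ i ∈ E, Ico ((i : ℝ) / T) ((i + 1) / T)) ⊆ Icc (1 / (2 * L)) (2 * L) := by
    intro x hx
    simp only [mem_iUnion] at hx
    obtain ⟨i, hi, hx⟩ := hx
    obtain ⟨lam, h4, h5, h6, h7, h8⟩ := hE i hi
    have e : ((i : ℝ) + 1) / T = i / T + 1 / T := by ring
    rw [e] at h7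
    have h10 := hx.2
    rw [e] at h10
    have h11 : 1 / T ≤ 1 / (2 * L) := one_div_le_one_div_of_le (by positivity) h3
    have h12 : 1 / L = 1 / (2 * L) + 1 / (2 * L) := by field_simp; norm_num
    have h13 : 1 / (2 * L) ≤ 1 := by
      rw [div_le_one (by positivity)]; linarith
    exact ⟨by linarith [hx.1], by linarith⟩
  have hdis : (↑E : Set ℕ).PairwiseDisjoint fun i : ℕ => Ico ((i : ℝ) / T) ((i + 1) / T) := by
    intro i _ j _ hij
    refine Set.disjoint_left.2 fun x hx hy => hij ?_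
    have hfl : ∀ n : ℕ, x ∈ Ico ((n : ℝ) / T) ((n + 1) / T) → ⌊x * T⌋₊ = n := by
      intro n hn
      obtain ⟨h4, h5⟩ := hn
      rw [div_le_iff₀ hT] at h4
      rw [lt_div_iff₀ hT] at h5
      exact (Nat.floor_eq_iff (le_trans (Nat.cast_nonneg n) h4)).2 ⟨h4, h5⟩
    rw [← hfl i hx, hfl j hy]
  have hkey : (E.card : ℝ≥0∞) * (ENNReal.ofReal (T ^ (-κ)) * ENNReal.ofReal (1 / T)) ≤
      c0 * (ENNReal.ofReal (4 * ρ / T) * ENNReal.ofReal (C * (T / (8 * L)) ^ θ)) := by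
    calc (E.card : ℝ≥0∞) * (ENNReal.ofReal (T ^ (-κ)) * ENNReal.ofReal (1 / T))
        = ∑ i ∈ E, ∫⁻ _x in Ico ((i : ℝ) / T) ((i + 1) / T), ENNReal.ofReal (T ^ (-κ)) := by
          rw [← nsmul_eq_mul, ← Finset.sum_const]
          refine Finset.sum_congr rfl fun i _ => ?_
          rw [setLIntegral_const, Real.volume_Ico]
          congr 2
          ring
      _ ≤ ∑ i ∈ E, ∫⁻ x in Ico ((i : ℝ) / T) ((i + 1) / T), c0 * strip F T x ρ :=
          Finset.sum_le_sum fun i hi => setLIntegral_mono' measurableSet_Ico (hpt i hi)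
      _ = ∫⁻ x in ⋃ i ∈ E, Ico ((i : ℝ) / T) ((i + 1) / T), c0 * strip F T x ρ :=
          (lintegral_biUnion_finset hdis (fun _ _ => measurableSet_Ico) _).symm
      _ ≤ ∫⁻ x in Icc (1 / (2 * L)) (2 * L), c0 * strip F T x ρ := lintegral_mono_set hsub
      _ = c0 * ∫⁻ x in Icc (1 / (2 * L)) (2 * L), strip F T x ρ :=
          lintegral_const_mul' _ _ hc0'
      _ ≤ _ := mul_le_mul_right ((strip_int hF (by linarith) hρ0 hT h2).trans
          (mul_le_mul_right hC _)) _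
  have hreal : (E.card : ℝ) * (T ^ (-κ) * (1 / T)) ≤
      4 * a ^ 2 * (2 * a) * (4 * ρ / T * (C * (T / (8 * L)) ^ θ)) := by
    rw [hc0, ← ENNReal.ofReal_natCast, ← ENNReal.ofReal_mul (by positivity),
      ← ENNReal.ofReal_mul (by positivity), ← ENNReal.ofReal_mul (by positivity),
      ← ENNReal.ofReal_mul (by positivity), ← ENNReal.ofReal_mul (by positivity)] at hkey
    exact (ENNReal.ofReal_le_ofReal_iff (by positivity)).1 hkey
  have e1 : (T / (8 * L)) ^ θ = T ^ θ * (8 * L) ^ (-θ) := by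
    rw [Real.div_rpow hT.le (by positivity), Real.rpow_neg (by positivity)]
    rfl
  have e2 : T ^ (θ + κ) = T ^ θ * T ^ κ := Real.rpow_add hT _ _
  have e3 : T ^ (-κ) * T ^ κ = 1 := by
    rw [← Real.rpow_add hT]; simp
  calc (E.card : ℝ) = (E.card : ℝ) * (T ^ (-κ) * (1 / T)) * (T ^ κ * T) := by
        have : (E.card : ℝ) * (T ^ (-κ) * (1 / T)) * (T ^ κ * T) =
          (E.card : ℝ) * (T ^ (-κ) * T ^ κ) * (1 / T * T) := by ring
        rw [this, e3, one_div_mul_cancel hT.ne', mul_one, mul_one]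
    _ ≤ 4 * a ^ 2 * (2 * a) * (4 * ρ / T * (C * (T / (8 * L)) ^ θ)) * (T ^ κ * T) :=
        mul_le_mul_of_nonneg_right hreal (by positivity)
    _ = 32 * a ^ 3 * ρ * C * (8 * L) ^ (-θ) * T ^ (θ + κ) := by
        rw [e1, e2]
        field_simp
        ring

/-- the exceptional slopes in `[1/L, L]` -/
def S (F : ℝ × ℝ → ℂ) (a L : ℝ) : Set ℝ :=
  {lam | 1 / L ≤ lam ∧ lam ≤ L ∧
    ∫⁻ t in Ioi (0 : ℝ), ENNReal.ofReal (‖avg a F t (lam * t)‖ ^ 2) = ⊤}

lemma S_null {F : ℝ × ℝ → ℂ} {M a θ : ℝ} (hF : Continuous F) (hM : ∀ p, ‖F p‖ ≤ M) (ha : 0 < a)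
    (hθ : ∀ K : ℝ, 1 ≤ K → ∃ C : ℝ, ∀ T : ℝ, 2 ≤ T →
      ∫⁻ p in Icc T (K * T) ×ˢ Icc T (K * T), ENNReal.ofReal (‖F p‖ ^ 2) ≤
        ENNReal.ofReal (C * T ^ θ))
    (L : ℕ) (hL : 2 ≤ L) {τ : ℝ} (hτ : max θ 0 < τ) : μH[τ] (S F a L) = 0 := by
  classical
  have hL2 : (2 : ℝ) ≤ L := by exact_mod_cast hL
  have hL0 : (0 : ℝ) < L := by linarith
  have hτ0 : 0 < τ := (le_max_right θ 0).trans_lt hτ
  have hτθ : θ < τ := (le_max_left θ 0).trans_lt hτ
  obtain ⟨κ, hκ, hκθ⟩ : ∃ κ : ℝ, 0 < κ ∧ θ + κ ≤ τ - κ :=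
    ⟨(τ - θ) / 2, by linarith, by linarith⟩
  obtain ⟨C, hC⟩ := hθ (56 * (L : ℝ) ^ 2) (by nlinarith)
  set C' : ℝ := max C 0 with hC'
  set ρ : ℝ := a + L * a + 3 with hρ
  have hρ0 : 0 ≤ ρ := by rw [hρ]; positivity
  set C2 : ℝ := 32 * a ^ 3 * ρ * C' * (8 * L) ^ (-θ) with hC2
  have hC20 : 0 ≤ C2 := by
    have : 0 ≤ C' := le_max_right _ _
    positivity
  obtain ⟨j0, hj0⟩ := pow_unbounded_of_one_lt (2 * a + 8 * L * ρ + 16 * L) (one_lt_two (α := ℝ))
  have hbig : ∀ j, j0 ≤ j → 2 * a + 8 * L * ρ + 16 * L ≤ (2 : ℝ) ^ j := fun j hj =>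
    hj0.le.trans (pow_le_pow_right₀ (by norm_num) hj)
  set E : ℕ → Finset ℕ := fun j => (Finset.range (L * 2 ^ j + 1)).filter fun i : ℕ =>
    ∃ lam : ℝ, 1 / (L : ℝ) ≤ lam ∧ lam ≤ L ∧ (i : ℝ) / 2 ^ j ≤ lam ∧
      lam < (i + 1) / 2 ^ j ∧ ENNReal.ofReal (((2 : ℝ) ^ j) ^ (-κ)) <
        ∫⁻ t in Ico ((2 : ℝ) ^ j) (2 * 2 ^ j), ENNReal.ofReal (‖avg a F t (lam * t)‖ ^ 2) with hE
  have hcard : ∀ j, j0 ≤ j → ((E j).card : ℝ) ≤ C2 * ((2 : ℝ) ^ j) ^ (θ + κ) := by
    intro j hj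
    have h1 := hbig j hj
    have h2 : 0 ≤ 8 * (L : ℝ) * ρ := by positivity
    have h3 : (2 : ℝ) ≤ 2 ^ j / (8 * L) := by
      rw [le_div_iff₀ (by positivity)]; linarith
    refine card_bound hF ha hL2 hρ (by positivity) (by linarith) (by linarith) (by linarith)
      (le_max_right C 0) ((hC _ h3).trans (ENNReal.ofReal_le_ofReal
        (mul_le_mul_of_nonneg_right (le_max_left C 0) (by positivity)))) (E j) ?_
    intro i hi
    exact (Finset.mem_filter.1 hi).2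
  set t : ℕ → ℕ × ℕ → Set ℝ := fun n p =>
    if p.2 ∈ E (p.1 + n) then Icc ((p.2 : ℝ) / 2 ^ (p.1 + n)) ((p.2 + 1) / 2 ^ (p.1 + n)) else ∅
    with ht
  have hdiam : ∀ n p, ediam (t n p) ≤
      if p.2 ∈ E (p.1 + n) then ENNReal.ofReal (1 / 2 ^ (p.1 + n)) else 0 := by
    intro n p
    simp only [ht]
    split_ifs with h1
    · rw [Real.ediam_Icc]
      refine le_of_eq ?_
      congr 1
      ring
    · simp
  have hr : Tendsto (fun n : ℕ => ENNReal.ofReal (1 / 2 ^ n)) atTop (𝓝 0) := by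
    rw [← ENNReal.ofReal_zero]
    refine ENNReal.tendsto_ofReal ?_
    have := tendsto_pow_atTop_nhds_zero_of_lt_one (r := (1 / 2 : ℝ)) (by norm_num) (by norm_num)
    simpa [one_div] using this
  have hle := Measure.hausdorffMeasure_le_liminf_tsum (β := ℕ) (ι := fun _ => ℕ × ℕ) τ (S F a L)
    (l := atTop) (fun n : ℕ => ENNReal.ofReal (1 / 2 ^ n)) hr t
    (Eventually.of_forall fun n p => (hdiam n p).trans (by
      split_ifs with h1
      · refine ENNReal.ofReal_le_ofReal (one_div_le_one_div_of_le (by positivity) ?_)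
        exact pow_le_pow_right₀ (by norm_num) (by omega)
      · exact zero_le))
    (Eventually.of_forall fun n lam hlam => by
      obtain ⟨k, hk⟩ := exists_large hM hκ hlam.2.2 n
      have hlam0 : 0 ≤ lam := le_trans (by positivity) hlam.1
      set i := ⌊lam * 2 ^ (k + n)⌋₊ with hi
      have h1 : (i : ℝ) ≤ lam * 2 ^ (k + n) := Nat.floor_le (by positivity)
      have h2 : lam * 2 ^ (k + n) < i + 1 := Nat.lt_floor_add_one _
      have h3 : (i : ℝ) / 2 ^ (k + n) ≤ lam := by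
        rw [div_le_iff₀ (by positivity)]; exact h1
      have h4 : lam < (i + 1) / 2 ^ (k + n) := by
        rw [lt_div_iff₀ (by positivity)]; exact h2
      have h5 : i ∈ E (k + n) := by
        refine Finset.mem_filter.2 ⟨Finset.mem_range.2 ?_, lam, hlam.1, hlam.2.1, h3, h4, hk⟩
        have h6 : (i : ℝ) ≤ (L : ℝ) * 2 ^ (k + n) :=
          h1.trans (mul_le_mul_of_nonneg_right hlam.2.1 (by positivity))
        have h7 : i ≤ L * 2 ^ (k + n) := by exact_mod_cast h6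
        omega
      refine mem_iUnion.2 ⟨(k, i), ?_⟩
      simp only [ht]
      rw [if_pos h5]
      exact ⟨h3, h4.le⟩)
  set f : ℕ → ℝ≥0∞ := fun j => ENNReal.ofReal (C2 * ((2 : ℝ) ^ (-κ)) ^ j) with hf
  have hfs : ∑' j, f j ≠ ⊤ :=
    ((summable_geometric_of_lt_one (by positivity)
      (Real.rpow_lt_one_of_one_lt_of_neg (by norm_num) (by linarith))).mul_left C2).tsum_ofReal_ne_top
  have hsum : ∀ n, j0 ≤ n → ∑' p, ediam (t n p) ^ τ ≤ ∑' k, f (k + n) := by
    intro n hn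
    calc ∑' p : ℕ × ℕ, ediam (t n p) ^ τ
        ≤ ∑' p : ℕ × ℕ, (if p.2 ∈ E (p.1 + n) then ENNReal.ofReal (1 / 2 ^ (p.1 + n)) else 0) ^ τ :=
          ENNReal.tsum_le_tsum fun p => ENNReal.rpow_le_rpow (hdiam n p) hτ0.le
      _ = ∑' k : ℕ, ∑' i : ℕ,
          (if i ∈ E (k + n) then ENNReal.ofReal (1 / 2 ^ (k + n)) else 0) ^ τ :=
          ENNReal.tsum_prod (f := fun k i =>
            (if i ∈ E (k + n) then ENNReal.ofReal (1 / 2 ^ (k + n)) else 0) ^ τ)
      _ ≤ ∑' k, f (k + n) := by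
          refine ENNReal.tsum_le_tsum fun k => ?_
          rw [tsum_eq_sum (s := E (k + n)) (fun i hi => by
            rw [if_neg hi, ENNReal.zero_rpow_of_pos hτ0])]
          rw [Finset.sum_congr rfl (g := fun _ => ENNReal.ofReal ((1 / 2 ^ (k + n)) ^ τ))
            (fun i hi => by
              rw [if_pos hi, ENNReal.ofReal_rpow_of_nonneg (by positivity) hτ0.le])]
          rw [Finset.sum_const, nsmul_eq_mul, ← ENNReal.ofReal_natCast,
            ← ENNReal.ofReal_mul (by positivity)]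
          refine ENNReal.ofReal_le_ofReal ?_
          have h1 := hcard (k + n) (by omega)
          calc ((E (k + n)).card : ℝ) * (1 / 2 ^ (k + n)) ^ τ
              ≤ C2 * ((2 : ℝ) ^ (k + n)) ^ (θ + κ) * (1 / 2 ^ (k + n)) ^ τ :=
                mul_le_mul_of_nonneg_right h1 (by positivity)
            _ = C2 * ((2 : ℝ) ^ (k + n)) ^ (θ + κ - τ) := by
                rw [mul_assoc, one_div, Real.inv_rpow (by positivity),
                  ← Real.rpow_neg (by positivity), ← Real.rpow_add (by positivity)]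
                rfl
            _ ≤ C2 * ((2 : ℝ) ^ (k + n)) ^ (-κ) := by
                refine mul_le_mul_of_nonneg_left (Real.rpow_le_rpow_of_exponent_le ?_ ?_) hC20
                · exact one_le_pow₀ (by norm_num)
                · linarith
            _ = C2 * ((2 : ℝ) ^ (-κ)) ^ (k + n) := by
                rw [← Real.rpow_natCast ((2 : ℝ) ^ (-κ)) (k + n), ← Real.rpow_mul (by norm_num),
                  ← Real.rpow_natCast 2 (k + n), ← Real.rpow_mul (by norm_num),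
                  mul_comm ((k + n : ℕ) : ℝ) (-κ)]
  rw [← nonpos_iff_eq_zero]
  refine hle.trans ?_
  rw [← (ENNReal.tendsto_sum_nat_add f hfs).liminf_eq]
  exact liminf_le_liminf ((eventually_ge_atTop j0).mono hsum)

theorem proj : PROJ := by
  intro F M a θ hF hM ha hθ
  have hcov : {lam : ℝ | 0 < lam ∧
      ∫⁻ t in Ioi (0 : ℝ), ENNReal.ofReal (‖avg a F t (lam * t)‖ ^ 2) = ⊤} ⊆
      ⋃ n : ℕ, S F a ((n + 2 : ℕ) : ℝ) := by
    rintro lam ⟨h0, h1⟩
    obtain ⟨n, hn⟩ := exists_nat_ge (max lam (1 / lam))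
    have hn1 : lam ≤ ((n + 2 : ℕ) : ℝ) := by
      push_cast; linarith [(le_max_left lam (1 / lam)).trans hn]
    have hn2 : 1 / lam ≤ ((n + 2 : ℕ) : ℝ) := by
      push_cast; linarith [(le_max_right lam (1 / lam)).trans hn]
    refine mem_iUnion.2 ⟨n, ?_, hn1, h1⟩
    rw [one_div_le (by positivity) h0]
    exact hn2
  have hmain : ∀ n : ℕ, dimH (S F a ((n + 2 : ℕ) : ℝ)) ≤ ENNReal.ofReal θ := by
    intro n
    refine le_of_forall_gt_imp_ge_of_dense fun x hx => ?_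
    rcases eq_or_ne x ⊤ with rfl | hxt
    · exact le_top
    lift x to NNReal using hxt
    have hx' : max θ 0 < (x : ℝ) := by
      rw [ENNReal.ofReal, ENNReal.coe_lt_coe] at hx
      have := NNReal.coe_lt_coe.2 hx
      rwa [Real.coe_toNNReal'] at this
    refine dimH_le_of_hausdorffMeasure_ne_top ?_
    rw [S_null hF hM ha hθ (n + 2) (by omega) hx']
    simp
  calc _ ≤ dimH (⋃ n : ℕ, S F a ((n + 2 : ℕ) : ℝ)) := dimH_mono hcov
    _ = ⨆ n : ℕ, dimH (S F a ((n + 2 : ℕ) : ℝ)) := dimH_iUnion _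
    _ ≤ ENNReal.ofReal θ := iSup_le hmain

end Pool.Agent.TH126.FD_PROJ
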