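import Pool.Agent.TH563.V.Defs
import Pool.Agent.TH563.UV.StepU

/-!
# The last step at a large vertex without circle
-/

set_option autoImplicit false
set_option maxHeartbeats 1000000

namespace Pool.Agent.TH126.J1741

open Filter Finset Topology Metric
open Pool.Agent.W711.HT hiding XX
open Pool.Agent.W293.HT (GH)
open Pool.Agent.W719.AX
open Pool.Agent.W85.HT
open Pool.Agent.W688.AX hiding gx_step last_step
open Pool.Agent.TH563.UV
open Pool.Agent.TH563.V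
open scoped Real

/-- a critical point of a function with the bounds of `GH` -/
theorem cp_last {ρ τ c C : ℝ} (hρ1 : ρ ≤ 1 / 4) (hτ0 : 0 < τ) (hτρ : τ ≤ ρ) (hc : 0 < c)
    (hC : 1 ≤ C) {r₀ κ : ℝ} (hr₀ : 0 < r₀) (hκ : 0 < κ) : ∃ K : ℝ, 0 < K ∧
    ∀ (t : ℕ) (F : ℂ → ℂ), 1 ≤ t → GH ρ τ (c * t) (C * t) F → ∀ a : ℤ,
      K ^ 2 ≤ (t : ℝ) ^ 2 + (a : ℝ) ^ 2 → ∃ z : ℂ, CPu ρ τ r₀ z ∧ SAD a F ρ z ∧
        Complex.I * a * z / (2 * π) + Complex.I + deriv F z = 0 ∧ ‖qq a F z - F 0‖ ≤ κ / 16 := by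
  have hρ0 : 0 < ρ := hτ0.trans_le hτρ
  have hpi := Real.pi_pos
  have hU := Pool.Agent.W293.HT.isOpen_Rc (3 * ρ) (3 * τ)
  have h0 : (0 : ℂ) ∈ Rc (3 * ρ) (3 * τ) :=
    Pool.Agent.W293.HT.zero_mem_Rc (by linarith) (by linarith)
  obtain ⟨R, hR, L₀, hL₀, hex⟩ := exU Pool.Agent.W19.HTFix.task hτ0 hτρ hc hC hU
  obtain ⟨R', hR'⟩ : ∃ R' : ℝ, R' = R ^ 2 / 2 + R + C * R ^ 2 := ⟨_, rfl⟩
  have hR'0 : 0 < R' := by rw [hR']; positivity
  obtain ⟨S, hS⟩ : ∃ S : ℝ, S = 2 * (C * R ^ 2 / 4 + C ^ 2 * R ^ 2 + R') := ⟨_, rfl⟩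
  have hS0 : 0 < S := by rw [hS]; positivity
  obtain ⟨L₁, hL₁⟩ : ∃ L₁ : ℝ, L₁ = L₀ + (R / τ + 1) + (S / (c * ρ ^ 2) + 1) + 16 * R' / κ +
    R / r₀ := ⟨_, rfl⟩
  have v1 : 0 < R / τ := by positivity
  have v2 : 0 < S / (c * ρ ^ 2) := by positivity
  have v3 : 0 < 16 * R' / κ := by positivity
  have v5 : 0 < R / r₀ := by positivity
  have hL₁0 : 0 < L₁ := by linarith
  refine ⟨2 * π * L₁, by positivity, ?_⟩
  intro t F ht1 gh a hbg
  obtain ⟨A, hA⟩ : ∃ A : ℝ, A = a / (2 * π) := ⟨_, rfl⟩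
  have hL : L₁ ≤ |A| + t := by
    have h1 : (2 * π * L₁) ^ 2 ≤ ((t : ℝ) + |(a : ℝ)|) ^ 2 := by
      have : (a : ℝ) ^ 2 = |(a : ℝ)| ^ 2 := (sq_abs _).symm
      rw [this] at hbg
      have : 0 ≤ (t : ℝ) * |(a : ℝ)| := by positivity
      nlinarith
    have h2 : 2 * π * L₁ ≤ (t : ℝ) + |(a : ℝ)| := by
      apply le_of_sq_le_sq h1
      positivity
    have h3 : |A| = |(a : ℝ)| / (2 * π) := by
      rw [hA, abs_div, abs_of_pos (by positivity : (0 : ℝ) < 2 * π)]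
    have h4 : (t : ℝ) ≤ 2 * π * t := by
      have : (1 : ℝ) ≤ 2 * π := by linarith [Real.pi_gt_three]
      have h5 : (0 : ℝ) ≤ t := Nat.cast_nonneg t
      nlinarith
    have h5 : 2 * π * (|A| + t) = |(a : ℝ)| + 2 * π * t := by
      rw [h3]; field_simp
    have h6 : 2 * π * L₁ ≤ 2 * π * (|A| + t) := by linarith
    exact le_of_mul_le_mul_left h6 (by positivity)
  obtain ⟨L, hLe⟩ : ∃ L : ℝ, L = |A| + (t : ℝ) := ⟨_, rfl⟩
  rw [← hLe] at hL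
  have hLp : 0 < L := by linarith
  have k0 : L₀ ≤ L := by linarith
  have k1 : R / L < τ := by
    have h1 : R / τ < L := by linarith
    rw [div_lt_iff₀ hτ0] at h1
    rw [div_lt_iff₀ hLp]
    linarith
  have k2 : 2 * (C * R ^ 2 / 4 + C ^ 2 * R ^ 2 + (R ^ 2 / 2 + R + C * R ^ 2)) / L < c * ρ ^ 2 := by
    rw [← hR', ← hS]
    have h1 : S / (c * ρ ^ 2) < L := by linarith
    rw [div_lt_iff₀ (by positivity)] at h1
    rw [div_lt_iff₀ hLp]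
    linarith
  have k3 : R' / L ≤ κ / 16 := by
    have h1 : 16 * R' / κ ≤ L := by linarith
    rw [div_le_iff₀ hκ] at h1
    rw [div_le_iff₀ hLp]
    linarith
  have k5 : R / L ≤ r₀ := by
    have h1 : R / r₀ ≤ L := by linarith
    rw [div_le_iff₀ hr₀] at h1
    rw [div_le_iff₀ hLp]
    linarith
  have hballsub : ball (0 : ℂ) τ ⊆ Rc (3 * ρ) (3 * τ) := fun w hw =>
    Rc_mono (by linarith) (by linarith)
      (Pool.Agent.W293.HT.mem_Rc_of_norm hτρ (by rwa [mem_ball_zero_iff] at hw))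
  have ht1' : (1 : ℝ) ≤ (t : ℝ) := by exact_mod_cast ht1
  obtain ⟨zs, hzd, hz⟩ := hex (t : ℝ) (fun _ w => F w) ht1' (fun ψ _ => gh)
    ((gh.an.deriv hU).comp differentiableOn_fst (fun p hp => hballsub hp.1))
    (differentiableOn_const _) A (by rw [← hLe]; exact k0)
  rw [← hLe] at hz
  obtain ⟨hz1, hz2, -⟩ := hz 0 h0
  obtain ⟨p1, p2, p3, p4⟩ := crit_propsU ht1' gh hτ0 hτρ hρ1 hc hC a A hA hR
    (by rw [← hLe]; exact k1) (by rw [← hLe]; exact k2) (zs 0) (by rw [← hLe]; exact hz1) hz2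
  rw [← hLe, ← hR'] at p4
  refine ⟨zs 0, ⟨p1, p2, hz1.trans k5⟩, p3, ?_, p4.trans k3⟩
  refine Eq.trans ?_ hz2
  rw [hA]
  push_cast
  ring

/-- job V-L: the last step at a large vertex without circle -/
theorem vl_last : Pool.Agent.TH563.V.S_VL := by
  intro ρ τ κ c C hρ0 hρ1 hτ0 hτρ hκ hc hC ρ₂ τ₂ hρ20 hρ₂ hτ20 hτ₂ r₀ hr₀
  have hmin : 0 < min ρ₂ τ₂ := lt_min hρ20 hτ20
  obtain ⟨K, hK0, hcp⟩ := cp_last (C := max C 1) hρ1 hτ0 hτρ hc (le_max_right _ _)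
    (r₀ := min r₀ (min ρ₂ τ₂ / 8)) (lt_min hr₀ (by positivity)) hκ
  refine ⟨K, hK0, ?_⟩
  intro t m X F A ht1 hX hA a ha
  have ht0 : (0 : ℝ) ≤ t := Nat.cast_nonneg t
  have gh : GH ρ τ (c * t) (max C 1 * t) F := ⟨hX.gh.an, hX.gh.ev, hX.gh.d2, fun w hw =>
    (hX.gh.d2b w hw).trans (mul_le_mul_of_nonneg_right (le_max_left _ _) ht0)⟩
  obtain ⟨z, hz1, hz2, hz3, hz4⟩ := hcp t F ht1 gh a ha
  have hzn : ‖z‖ < min ρ₂ τ₂ / 4 := by
    have := hz1.sm.trans (min_le_right _ _)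
    linarith
  obtain ⟨y, hy0, hy⟩ := last_step (locu Pool.Agent.W711.HT.upb)
    (Pool.Agent.W21.AX.locx f_LX Pool.Agent.W303.AX.uxmul) hρ0 hρ1 hτ0 hρ20 hτ20 hρ₂ hτ₂ hX.an
    hX.gh.an hX.mw hA hz1 hz2 hzn
    ⟨κ / 4, by positivity, by
      filter_upwards [hX.gl1] with N h1 x y hx1 hx2 hy
      refine (h1 x y hx1 hx2 hy).trans (Real.exp_le_exp.2 ?_)
      apply mul_le_mul_of_nonneg_left _ (Nat.cast_nonneg N)
      have k1 := (Complex.abs_re_le_norm _).trans hz4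
      rw [Complex.sub_re] at k1
      have k2 : κ / 2 ≤ (t : ℝ) * (κ / 2) := by
        have : (1 : ℝ) ≤ t := by exact_mod_cast ht1
        have h0 : 0 ≤ κ / 2 := by positivity
        nlinarith
      linarith [(abs_le.1 k1).1]⟩
  refine ⟨z, y, ⟨hz1.mem, hz1.im, hz1.sm.trans (min_le_left _ _)⟩, hz3, hy0, ?_⟩
  simp only [Eb_false]
  exact hy

end Pool.Agent.TH126.J1741

/-- job V-L: the last step at a large vertex without circle -/
theorem vl_last : Pool.Agent.TH563.V.S_VL := Pool.Agent.TH126.J1741.vl_last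

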