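import Mathlib
set_option autoImplicit false

/-!
Job 350 (KAC-3, helper185): zeta function bookkeeping.
-/

namespace Pool.Agent.TH185

namespace J350

open PowerSeries Finset

/-- solutions of a linear recursion over `ZMod m` with invertible last coefficient are periodic -/
lemma periodic_of_rec (m : ℕ) [NeZero m] (G : ℕ) (l : ℕ → ZMod m)
    (hlG : IsUnit (l (G + 1))) (p : ℕ → ZMod m)
    (hrec : ∀ i, p (i + (G + 1)) = -∑ t : Fin (G + 1), l (G + 1 - t) * p (i + t)) :
    ∃ T, 0 < T ∧ ∀ i, p (i + T) = p i := by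
  classical
  set f : (Fin (G + 1) → ZMod m) → (Fin (G + 1) → ZMod m) := fun v t =>
    if h : t.1 + 1 < G + 1 then v ⟨t.1 + 1, h⟩ else -∑ k : Fin (G + 1), l (G + 1 - k) * v k with hf
  have hinj : Function.Injective f := by
    intro v w hvw
    have h1 : ∀ k : Fin G, v k.succ = w k.succ := by
      intro k
      have := congrFun hvw k.castSucc
      simp only [hf] at this
      have hk : (k.castSucc : Fin (G + 1)).1 + 1 < G + 1 := by
        simp only [Fin.val_castSucc]
        omega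
      rw [dif_pos hk, dif_pos hk] at this
      exact this
    have h2 := congrFun hvw (Fin.last G)
    simp only [hf] at h2
    have hk : ¬ ((Fin.last G).1 + 1 < G + 1) := by simp
    rw [dif_neg hk, dif_neg hk, neg_inj, Fin.sum_univ_succ, Fin.sum_univ_succ] at h2
    simp only [h1, add_left_inj, Fin.val_zero, Nat.sub_zero] at h2
    have h3 : v 0 = w 0 := hlG.mul_left_cancel h2
    funext t
    refine Fin.cases h3 (fun k => h1 k) t
  set σ := Equiv.ofBijective f (Finite.injective_iff_bijective.mp hinj) with hσ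
  set st : ℕ → Fin (G + 1) → ZMod m := fun i t => p (i + t) with hst
  have hstep : ∀ i, f (st i) = st (i + 1) := by
    intro i
    funext t
    simp only [hf, hst]
    by_cases h : t.1 + 1 < G + 1
    · rw [dif_pos h]
      congr 1
      ring
    · rw [dif_neg h, ← hrec]
      congr 1
      have := t.2
      omega
  have hit : ∀ k i, f^[k] (st i) = st (i + k) := by
    intro k
    induction k with
    | zero => intro i; rfl
    | succ k ih =>
      intro i
      rw [Function.iterate_succ_apply, hstep, ih]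
      congr 1
      ring
  refine ⟨orderOf σ, orderOf_pos σ, fun i => ?_⟩
  have h4 : f^[orderOf σ] (st i) = st i := by
    have : (σ ^ (orderOf σ)) (st i) = st i := by rw [pow_orderOf_eq_one]; rfl
    rw [← Equiv.Perm.iterate_eq_pow] at this
    exact this
  rw [hit] at h4
  have := congrFun h4 0
  simpa [hst] using this

/-- coefficients of `(1 - t) ^ M` -/
def gam (M j : ℕ) : ℤ := (-1) ^ j * (M.choose j : ℤ)

lemma gam_rec (M j : ℕ) : (j : ℤ) * gam M j = -(M : ℤ) * ∑ i ∈ range j, gam M i := by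
  induction j with
  | zero => simp
  | succ j ih =>
    rw [sum_range_succ, mul_add, ← ih]
    unfold gam
    have h := Nat.choose_succ_right_eq M j
    by_cases hj : j ≤ M
    · have h2 : ((M.choose (j + 1) : ℤ)) * ((j : ℤ) + 1) = (M.choose j : ℤ) * ((M : ℤ) - j) := by
        have := congrArg (fun x : ℕ => (x : ℤ)) h
        push_cast [Nat.cast_sub hj] at this
        exact this
      push_cast
      rw [pow_succ]
      linear_combination (-1) * (-1) ^ j * h2
    · rw [Nat.choose_eq_zero_of_lt (by omega : M < j), Nat.choose_eq_zero_of_lt (by omega : M < j + 1)]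
      simp

/-- the zeta function -/
noncomputable def Z (N1 : ℕ → ℕ) : ℤ⟦X⟧ := PowerSeries.mk fun j => (N1 j : ℤ)

/-- the number of points -/
noncomputable def A (a : ℕ → ℕ) : ℤ⟦X⟧ := PowerSeries.mk fun r => if r = 0 then 0 else (a r : ℤ)

/-- `∑ q ^ r t ^ r`, `r ≥ 1` -/
noncomputable def Gq (q : ℤ) : ℤ⟦X⟧ := PowerSeries.mk fun r => if r = 0 then 0 else q ^ r

/-- the numbers `p r` -/
def pp (a : ℕ → ℕ) (g q : ℕ) (r : ℕ) : ℤ := if r = 0 then 2 * g else 1 + (q : ℤ) ^ r - a r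

/-- the numerator of the zeta function -/
noncomputable def L (N1 : ℕ → ℕ) (q : ℤ) : ℤ⟦X⟧ := (1 - X) * (1 - C q * X) * Z N1

/-- `t d/dt` -/
noncomputable def D (f : ℤ⟦X⟧) : ℤ⟦X⟧ := X * d⁄dX ℤ f

lemma coeff_D (f : ℤ⟦X⟧) (n : ℕ) : coeff n (D f) = n * coeff n f := by
  unfold D
  cases n with
  | zero => simp
  | succ n =>
    rw [PowerSeries.coeff_succ_X_mul, PowerSeries.coeff_derivative]
    push_cast
    ring

lemma D_mul (f g : ℤ⟦X⟧) : D (f * g) = D f * g + f * D g := by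
  unfold D
  rw [Derivation.leibniz, smul_eq_mul, smul_eq_mul]
  ring

lemma Gq_mul (q : ℤ) : (1 - C q * X) * Gq q = C q * X := by
  ext n
  unfold Gq
  rw [sub_mul, one_mul, mul_assoc]
  cases n with
  | zero => simp
  | succ n =>
    rw [map_sub, PowerSeries.coeff_C_mul, PowerSeries.coeff_succ_X_mul, PowerSeries.coeff_C_mul,
      PowerSeries.coeff_mk, PowerSeries.coeff_mk, PowerSeries.coeff_X]
    rcases Nat.eq_zero_or_pos n with rfl | hn
    · simp
    · rw [if_neg (by omega), if_neg (by omega), if_neg (by omega)]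
      ring

lemma D_Z (a : ℕ → ℕ) (N1 : ℕ → ℕ)
    (hrec : ∀ j, j * N1 j = ∑ r ∈ Finset.Icc 1 j, a r * N1 (j - r)) : D (Z N1) = A a * Z N1 := by
  ext n
  rw [coeff_D, PowerSeries.coeff_mul, Finset.Nat.sum_antidiagonal_eq_sum_range_succ
    (fun i j => coeff i (A a) * coeff j (Z N1)), Finset.range_eq_Ico,
    Finset.sum_eq_sum_Ico_succ_bot (by omega)]
  have h0 : coeff 0 (A a) = 0 := by simp [A]
  rw [h0, zero_mul, zero_add]
  have h1 := congrArg (fun x : ℕ => (x : ℤ)) (hrec n)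
  simp only [Nat.cast_mul, Nat.cast_sum] at h1
  rw [Z, PowerSeries.coeff_mk, h1]
  refine Finset.sum_congr (by ext; simp) fun r hr => ?_
  have : r ≠ 0 := by
    have := (Finset.mem_Icc.mp hr).1
    omega
  rw [PowerSeries.coeff_mk, A, PowerSeries.coeff_mk, if_neg this]

lemma newton (a : ℕ → ℕ) (N1 : ℕ → ℕ) (g q : ℕ)
    (hrec : ∀ j, j * N1 j = ∑ r ∈ Finset.Icc 1 j, a r * N1 (j - r)) :
    L N1 q * PowerSeries.mk (pp a g q) = C (2 * (g : ℤ)) * L N1 q - D (L N1 q) := by
  have h1 : PowerSeries.mk (pp a g q) = C (2 * (g : ℤ)) + Gq 1 + Gq q - A a := by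
    ext n
    unfold pp Gq A
    simp only [map_add, map_sub, PowerSeries.coeff_mk, PowerSeries.coeff_C]
    by_cases h : n = 0
    · simp [h]
    · simp [h]
  have hX : D (X : ℤ⟦X⟧) = X := by
    ext n
    rw [coeff_D, PowerSeries.coeff_X]
    by_cases h : n = 1
    · simp [h]
    · simp [h]
  have hC : ∀ c : ℤ, D (C c : ℤ⟦X⟧) = 0 := by
    intro c
    ext n
    rw [coeff_D, PowerSeries.coeff_C]
    by_cases h : n = 0
    · simp [h]
    · simp [h]
  have hsub : ∀ f g : ℤ⟦X⟧, D (f - g) = D f - D g := by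
    intro f g
    unfold D
    rw [map_sub, mul_sub]
  have h1C : D (1 : ℤ⟦X⟧) = 0 := by
    have := hC 1
    rwa [map_one] at this
  have hD : D (L N1 q) = (-X * (1 - C (q : ℤ) * X) - (1 - X) * (C (q : ℤ) * X)) * Z N1 +
      (1 - X) * (1 - C (q : ℤ) * X) * (A a * Z N1) := by
    unfold L
    rw [D_mul, D_mul, D_Z a N1 hrec, hsub, hsub, D_mul, hC, hX, h1C]
    ring
  have hG1 : (1 - X) * Gq 1 = X := by
    have := Gq_mul 1
    rwa [map_one, one_mul] at this
  have hG2 := Gq_mul (q : ℤ)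
  rw [hD, h1]
  unfold L
  linear_combination (1 - C (q : ℤ) * X) * Z N1 * hG1 + (1 - X) * Z N1 * hG2

lemma coeff_L (N1 : ℕ → ℕ) (q : ℤ) (i : ℕ) :
    coeff (i + 2) (L N1 q) = N1 (i + 2) - (1 + q) * N1 (i + 1) + q * N1 i := by
  have : L N1 q = Z N1 - C (1 + q) * (X * Z N1) + C q * (X * (X * Z N1)) := by
    unfold L
    rw [map_add, map_one]
    ring
  rw [this, map_add, map_sub, PowerSeries.coeff_C_mul, PowerSeries.coeff_C_mul,
    PowerSeries.coeff_succ_X_mul, PowerSeries.coeff_succ_X_mul, PowerSeries.coeff_succ_X_mul]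
  simp [Z]

lemma coeff_L_zero (N1 : ℕ → ℕ) (h : N1 0 = 1) (q : ℤ) : coeff 0 (L N1 q) = 1 := by
  simp [L, Z, h]

lemma L_high (N1 : ℕ → ℕ) (g q : ℕ) (hq : 2 ≤ q) (h : ℚ) (h0 : N1 0 = 1)
    (hRR : ∀ i : ℕ, (N1 (g + i) : ℚ) - (if i ≤ g then (q : ℚ) ^ i * N1 (g - i) else 0) =
      h * ((q : ℚ) ^ i - 1) / ((q : ℚ) - 1)) :
    (∀ i, 2 * (g + 1) < i → coeff i (L N1 q) = 0) ∧
      coeff (2 * (g + 1)) (L N1 q) = (q : ℤ) ^ (g + 1) := by
  have hq1 : (q : ℚ) - 1 ≠ 0 := by
    have : (2 : ℚ) ≤ q := by exact_mod_cast hq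
    intro h
    linarith
  have hN : ∀ k : ℕ, (N1 (2 * g + 1 + k) : ℚ) = h * ((q : ℚ) ^ (g + 1 + k) - 1) / ((q : ℚ) - 1) := by
    intro k
    have := hRR (g + 1 + k)
    rw [if_neg (by omega), sub_zero] at this
    rw [← this]
    congr 2
    ring
  have hN2 : (N1 (2 * g) : ℚ) = (q : ℚ) ^ g + h * ((q : ℚ) ^ g - 1) / ((q : ℚ) - 1) := by
    have := hRR g
    rw [if_pos le_rfl, Nat.sub_self, h0, ← two_mul] at this
    rw [← this]
    push_cast
    ring
  refine ⟨fun i hi => ?_, ?_⟩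
  · obtain ⟨k, rfl⟩ : ∃ k, i = (2 * g + 1 + k) + 2 := ⟨i - (2 * g + 3), by omega⟩
    rw [coeff_L]
    have h1 := hN k
    have h2 := hN (k + 1)
    have h3 := hN (k + 2)
    have h4 : ((N1 (2 * g + 1 + k + 2) - (1 + q) * N1 (2 * g + 1 + k + 1) +
        q * N1 (2 * g + 1 + k) : ℤ) : ℚ) = 0 := by
      push_cast
      rw [show 2 * g + 1 + k + 2 = 2 * g + 1 + (k + 2) by ring,
        show 2 * g + 1 + k + 1 = 2 * g + 1 + (k + 1) by ring, h1, h2, h3]
      field_simp
      ring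
    exact_mod_cast h4
  · rw [show 2 * (g + 1) = 2 * g + 2 by ring, coeff_L]
    have h1 := hN 0
    have h2 := hN 1
    have h4 : ((N1 (2 * g + 2) - (1 + q) * N1 (2 * g + 1) + q * N1 (2 * g) : ℤ) : ℚ) =
        (((q : ℤ) ^ (g + 1) : ℤ) : ℚ) := by
      push_cast
      rw [show 2 * g + 2 = 2 * g + 1 + 1 by ring, h2, show 2 * g + 1 = 2 * g + 1 + 0 by ring, h1,
        hN2]
      field_simp
      ring
    exact_mod_cast h4

lemma pp_rec (a : ℕ → ℕ) (N1 : ℕ → ℕ) (g q : ℕ) (h0 : N1 0 = 1)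
    (hrec : ∀ j, j * N1 j = ∑ r ∈ Finset.Icc 1 j, a r * N1 (j - r)) (G : ℕ)
    (hG : G + 1 = 2 * g) (hL : ∀ i, 2 * g < i → coeff i (L N1 q) = 0) (i : ℕ) :
    pp a g q (i + (G + 1)) = -∑ t : Fin (G + 1), coeff (G + 1 - t) (L N1 q) * pp a g q (i + t) := by
  have h1 := congrArg (coeff (i + (G + 1))) (newton a N1 g q hrec)
  rw [PowerSeries.coeff_mul, Finset.Nat.sum_antidiagonal_eq_sum_range_succ
    (fun i j => coeff i (L N1 q) * coeff j (PowerSeries.mk (pp a g q))), map_sub,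
    PowerSeries.coeff_C_mul, coeff_D] at h1
  have h2 : 2 * (g : ℤ) * coeff (i + (G + 1)) (L N1 q) -
      ((i + (G + 1) : ℕ) : ℤ) * coeff (i + (G + 1)) (L N1 q) = 0 := by
    rcases Nat.eq_zero_or_pos i with rfl | hi
    · rw [zero_add, hG]
      push_cast
      ring
    · rw [hL _ (by omega)]
      ring
  rw [h2] at h1
  have h3 : ∑ k ∈ range (G + 2), coeff k (L N1 q) *
      coeff (i + (G + 1) - k) (PowerSeries.mk (pp a g q)) = 0 := by
    rw [← h1]
    refine Finset.sum_subset ?_ ?_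
    · intro k hk
      simp only [mem_range] at hk ⊢
      omega
    · intro k _ hk
      simp only [mem_range] at hk
      rw [hL k (by omega), zero_mul]
  rw [Finset.sum_range_succ'] at h3
  simp only [PowerSeries.coeff_mk, Nat.sub_zero] at h3
  rw [coeff_L_zero N1 h0, one_mul] at h3
  have h4 : ∑ t : Fin (G + 1), coeff (G + 1 - t) (L N1 q) * pp a g q (i + t) =
      ∑ k ∈ range (G + 1), coeff (k + 1) (L N1 q) * pp a g q (i + (G + 1) - (k + 1)) := by
    rw [Fin.sum_univ_eq_sum_range (fun t => coeff (G + 1 - t) (L N1 q) * pp a g q (i + t)),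
      ← Finset.sum_range_reflect]
    refine Finset.sum_congr rfl fun k hk => ?_
    have := mem_range.mp hk
    congr 2
    · congr 1
      omega
    · omega
  rw [h4]
  linarith

lemma dvd_of_fac (ℓ : ℕ) [Fact ℓ.Prime] (j s : ℕ) :
    ∃ S, ∀ x : ℤ, ((ℓ ^ S : ℕ) : ℤ) ∣ (j.factorial : ℤ) * x → ((ℓ ^ s : ℕ) : ℤ) ∣ x := by
  have hℓ : ℓ.Prime := Fact.out
  obtain ⟨v, u, hu, hju⟩ := Nat.exists_eq_pow_mul_and_not_dvd (Nat.factorial_ne_zero j) ℓ
    hℓ.ne_one
  refine ⟨v + s, fun x hx => ?_⟩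
  rw [hju] at hx
  push_cast at hx ⊢
  rw [pow_add, mul_assoc] at hx
  have hne : (ℓ : ℤ) ^ v ≠ 0 := pow_ne_zero _ (by exact_mod_cast hℓ.ne_zero)
  have h1 : (ℓ : ℤ) ^ s ∣ (u : ℤ) * x := (mul_dvd_mul_iff_left hne).mp hx
  have h2 : IsCoprime ((ℓ : ℤ) ^ s) (u : ℤ) := by
    apply IsCoprime.pow_left
    rw [Nat.isCoprime_iff_coprime]
    exact (Nat.Prime.coprime_iff_not_dvd hℓ).mpr hu
  exact h2.dvd_of_dvd_mul_left h1

end J350

open J350 Finset in
theorem zeta_periodic (a : ℕ → ℕ) (N : ℕ → ℕ → ℕ) (hN0 : ∀ n, N n 0 = 1)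
    (hrec : ∀ n, 0 < n → ∀ j, j * N n j = ∑ r ∈ Finset.Icc 1 j, a (n * r) * N n (j - r))
    (g q : ℕ) (hg : 1 ≤ g) (hq : 2 ≤ q) (h : ℚ)
    (hRR : ∀ i : ℕ, (N 1 (g - 1 + i) : ℚ) - (if i ≤ g - 1 then (q : ℚ) ^ i * N 1 (g - 1 - i) else 0) =
      h * ((q : ℚ) ^ i - 1) / ((q : ℚ) - 1))
    (ℓ : ℕ) [Fact ℓ.Prime] (hℓ : ¬ ℓ ∣ q) (j : ℕ) (hj : 2 * g - 2 < j) (s : ℕ) :
    ∃ T : ℕ, 0 < T ∧ ∀ n, 0 < n → T ∣ n → ℓ ^ s ∣ N n j := by
  obtain ⟨g, rfl⟩ : ∃ g', g = g' + 1 := ⟨g - 1, by omega⟩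
  simp only [Nat.add_sub_cancel] at hRR
  have hℓp : ℓ.Prime := Fact.out
  obtain ⟨S, hS⟩ := dvd_of_fac ℓ j s
  have hcop : Nat.Coprime q (ℓ ^ S) :=
    Nat.Coprime.pow_right _ ((Nat.Prime.coprime_iff_not_dvd hℓp).mpr hℓ).symm
  set m := ℓ ^ S with hm
  have hmpos : 0 < m := pow_pos hℓp.pos _
  have : NeZero m := ⟨hmpos.ne'⟩
  have hrec1 : ∀ j, j * N 1 j = ∑ r ∈ Finset.Icc 1 j, a r * N 1 (j - r) := by
    intro j
    have := hrec 1 one_pos j
    simpa only [one_mul] using this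
  obtain ⟨hL1, hL2⟩ := L_high (N 1) g q hq h (hN0 1) hRR
  -- periodicity
  obtain ⟨T1, hT1, hper⟩ := periodic_of_rec m (2 * g + 1)
    (fun k => ((PowerSeries.coeff k (L (N 1) q) : ℤ) : ZMod m)) (by
      rw [show 2 * g + 1 + 1 = 2 * (g + 1) by ring, hL2]
      push_cast
      exact ((ZMod.isUnit_iff_coprime q m).mpr hcop).pow _)
    (fun i => ((pp a (g + 1) q i : ℤ) : ZMod m)) (by
      intro i
      rw [pp_rec a (N 1) (g + 1) q (hN0 1) hrec1 (2 * g + 1) (by ring) hL1 i]
      push_cast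
      rfl)
  have hper' : ∀ k i, ((pp a (g + 1) q (i + T1 * k) : ℤ) : ZMod m) = (pp a (g + 1) q i : ℤ) := by
    intro k
    induction k with
    | zero => intro i; simp
    | succ k ih =>
      intro i
      rw [mul_add, mul_one, ← add_assoc, hper, ih]
  refine ⟨T1 * Nat.totient m, Nat.mul_pos hT1 (Nat.totient_pos.mpr hmpos), fun n hn hTn => ?_⟩
  have ha : ∀ r, 1 ≤ r → (m : ℤ) ∣ (a (n * r) : ℤ) - (2 - 2 * (g + 1 : ℕ)) := by
    intro r hr
    have hnr : n * r ≠ 0 := Nat.mul_ne_zero hn.ne' (by omega)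
    have h1 : T1 ∣ n * r := (Dvd.intro _ rfl).trans (hTn.trans (Dvd.intro _ rfl))
    have h2 : Nat.totient m ∣ n * r := (Dvd.intro_left _ rfl).trans (hTn.trans (Dvd.intro _ rfl))
    obtain ⟨k, hk⟩ := h1
    obtain ⟨k2, hk2⟩ := h2
    have h3 := hper' k 0
    rw [zero_add, ← hk] at h3
    unfold pp at h3
    rw [if_neg hnr, if_pos rfl] at h3
    have h4 : ((q : ZMod m)) ^ (n * r) = 1 := by
      rw [hk2, pow_mul]
      have h5 : (q : ZMod m) ^ Nat.totient m = 1 := by
        have := (ZMod.natCast_eq_natCast_iff _ _ m).mpr (Nat.ModEq.pow_totient hcop)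
        simpa using this
      rw [h5, one_pow]
    rw [← ZMod.intCast_zmod_eq_zero_iff_dvd]
    push_cast at h3 ⊢
    rw [h4] at h3
    linear_combination -h3
  have hmain : ∀ i, (m : ℤ) ∣ (i.factorial : ℤ) * ((N n i : ℤ) - gam (2 * g) i) := by
    intro i
    induction i using Nat.strong_induction_on with
    | _ i ih =>
      rcases Nat.eq_zero_or_pos i with rfl | hi
      · simp [hN0, gam]
      · obtain ⟨i, rfl⟩ : ∃ i', i = i' + 1 := ⟨i - 1, by omega⟩
        have h1 := congrArg (fun x : ℕ => (x : ℤ)) (hrec n hn (i + 1))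
        simp only [Nat.cast_mul, Nat.cast_sum] at h1
        have h2 := gam_rec (2 * g) (i + 1)
        have h3 : ∑ r ∈ Finset.Icc 1 (i + 1), gam (2 * g) (i + 1 - r) =
            ∑ k ∈ range (i + 1), gam (2 * g) k := by
          refine Finset.sum_nbij' (fun r => i + 1 - r) (fun k => i + 1 - k) ?_ ?_ ?_ ?_ ?_
          · intro r hr
            have := Finset.mem_Icc.mp hr
            simp only [mem_range]
            omega
          · intro r hr
            have := Finset.mem_range.mp hr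
            simp only [Finset.mem_Icc]
            omega
          · intro r hr
            have := Finset.mem_Icc.mp hr
            omega
          · intro r hr
            have := Finset.mem_range.mp hr
            omega
          · intro r hr
            rfl
        rw [Nat.factorial_succ]
        have h4 : (((i + 1) * i.factorial : ℕ) : ℤ) * ((N n (i + 1) : ℤ) - gam (2 * g) (i + 1)) =
            ∑ r ∈ Finset.Icc 1 (i + 1), ((i.factorial : ℤ) * (((a (n * r) : ℤ) -
              (2 - 2 * (g + 1 : ℕ))) * (N n (i + 1 - r) : ℤ)) +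
              (2 - 2 * (g + 1 : ℕ)) * ((i.factorial : ℤ) * ((N n (i + 1 - r) : ℤ) -
                gam (2 * g) (i + 1 - r)))) := by
          rw [← h3] at h2
          have h5 : ∑ r ∈ Finset.Icc 1 (i + 1), ((i.factorial : ℤ) * (((a (n * r) : ℤ) -
              (2 - 2 * (g + 1 : ℕ))) * (N n (i + 1 - r) : ℤ)) +
              (2 - 2 * (g + 1 : ℕ)) * ((i.factorial : ℤ) * ((N n (i + 1 - r) : ℤ) -
                gam (2 * g) (i + 1 - r)))) = (i.factorial : ℤ) *
              ∑ r ∈ Finset.Icc 1 (i + 1), (a (n * r) : ℤ) * (N n (i + 1 - r) : ℤ) -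
              (i.factorial : ℤ) * ((2 - 2 * (g + 1 : ℕ)) *
                ∑ r ∈ Finset.Icc 1 (i + 1), gam (2 * g) (i + 1 - r)) := by
            rw [Finset.mul_sum, Finset.mul_sum, Finset.mul_sum, ← Finset.sum_sub_distrib]
            refine Finset.sum_congr rfl fun r _ => ?_
            ring
          rw [h5, ← h1]
          push_cast at h2 ⊢
          linear_combination (-(i.factorial : ℤ)) * h2
        rw [h4]
        refine Finset.dvd_sum fun r hr => ?_
        have hr1 := (Finset.mem_Icc.mp hr).1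
        have hr2 := (Finset.mem_Icc.mp hr).2
        refine dvd_add ?_ ?_
        · exact ((ha r hr1).mul_right _).mul_left _
        · refine Dvd.dvd.mul_left ?_ _
          have h5 := ih (i + 1 - r) (by omega)
          have h6 : (i + 1 - r).factorial ∣ i.factorial := Nat.factorial_dvd_factorial (by omega)
          obtain ⟨c, hc⟩ := h6
          rw [hc]
          push_cast
          rw [mul_comm ((i + 1 - r).factorial : ℤ) (c : ℤ), mul_assoc]
          exact h5.mul_left _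
  have h7 := hmain j
  have h8 : gam (2 * g) j = 0 := by
    unfold gam
    rw [Nat.choose_eq_zero_of_lt (by omega)]
    simp
  rw [h8, sub_zero] at h7
  have := hS _ h7
  exact_mod_cast this

end Pool.Agent.TH185
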