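import Mathlib
set_option autoImplicit false

/-!
Job 351 (KAC-4, helper185): Frobenius-semilinear descent.
-/

namespace Pool.Agent.TH185

namespace J351

open Polynomial

/-- the roots of `X ^ (p ^ m) - X` in an algebraically closed field of characteristic `p` -/
lemma card_fix {𝕜 : Type*} [Field 𝕜] [IsAlgClosed 𝕜] (p : ℕ) [Fact p.Prime] [CharP 𝕜 p]
    (m : ℕ) (hm : 0 < m) :
    ∃ R : Finset 𝕜, R.card = p ^ m ∧ ∀ c : 𝕜, c ∈ R ↔ c ^ (p ^ m) = c := by
  classical
  have hp : 1 < p := (Fact.out : p.Prime).one_lt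
  have hpm : 1 < p ^ m := Nat.one_lt_pow hm.ne' hp
  have hsep : (X ^ (p ^ m) - X : 𝕜[X]).Separable :=
    galois_poly_separable p (p ^ m) (dvd_pow_self p hm.ne')
  have hne : (X ^ (p ^ m) - X : 𝕜[X]) ≠ 0 := FiniteField.X_pow_card_sub_X_ne_zero 𝕜 hpm
  have hdeg : (X ^ (p ^ m) - X : 𝕜[X]).natDegree = p ^ m :=
    FiniteField.X_pow_card_sub_X_natDegree_eq 𝕜 hpm
  refine ⟨(X ^ (p ^ m) - X : 𝕜[X]).roots.toFinset, ?_, fun c => ?_⟩
  · rw [Multiset.toFinset_card_of_nodup (nodup_roots hsep)]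
    have := (IsAlgClosed.splits (X ^ (p ^ m) - X : 𝕜[X]))
    exact (splits_iff_card_roots.mp this).trans hdeg
  · rw [Multiset.mem_toFinset, mem_roots hne, IsRoot.def, eval_sub, eval_pow, eval_X, sub_eq_zero]

lemma iterate_smul {𝕜 V : Type*} [Field 𝕜] (q : ℕ) [AddCommGroup V] [Module 𝕜 V] (σ : V →+ V)
    (hσ : ∀ (c : 𝕜) (v : V), σ (c • v) = c ^ q • σ v) (i : ℕ) (c : 𝕜) (v : V) :
    σ^[i] (c • v) = c ^ (q ^ i) • σ^[i] v := by
  induction i with
  | zero => simp
  | succ i ih =>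
    rw [Function.iterate_succ_apply', Function.iterate_succ_apply', ih, hσ, ← pow_mul, pow_succ]

lemma mem_span {𝕜 V : Type*} [Field 𝕜] [IsAlgClosed 𝕜] (p : ℕ) [Fact p.Prime] [CharP 𝕜 p]
    [AddCommGroup V] [Module 𝕜 V] [FiniteDimensional 𝕜 V] (e : ℕ) (he : 0 < e) (σ : V →+ V)
    (hσ : ∀ (c : 𝕜) (v : V), σ (c • v) = c ^ (p ^ e) • σ v)
    (hfin : ∀ v, ∃ n : ℕ, 0 < n ∧ σ^[n] v = v) (v : V) :
    v ∈ Submodule.span 𝕜 {v | σ v = v} := by
  classical
  obtain ⟨n, hn, hv⟩ := hfin v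
  set W := Submodule.span 𝕜 {v | σ v = v} with hW
  by_contra hvW
  have h1 : W.mkQ v ≠ 0 := by
    simpa [Submodule.Quotient.mk_eq_zero] using hvW
  obtain ⟨f, hf⟩ : ∃ f : Module.Dual 𝕜 (V ⧸ W), f (W.mkQ v) ≠ 0 := by
    by_contra hcon
    push Not at hcon
    exact h1 ((Module.forall_dual_apply_eq_zero_iff 𝕜 (W.mkQ v)).mp hcon)
  have hp : 1 < p := (Fact.out : p.Prime).one_lt
  have hpe : 1 < p ^ e := Nat.one_lt_pow he.ne' hp
  obtain ⟨R, hR, hRm⟩ := card_fix (𝕜 := 𝕜) p (e * n) (Nat.mul_pos he hn)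
  set P : 𝕜[X] := ∑ i ∈ Finset.range n, C (f (W.mkQ (σ^[i] v))) * X ^ ((p ^ e) ^ i) with hP
  have hP0 : P ≠ 0 := by
    intro h
    have h2 := congrArg (fun g : 𝕜[X] => g.coeff 1) h
    simp only [hP, finsetSum_coeff, coeff_C_mul, coeff_X_pow, coeff_zero] at h2
    rw [Finset.sum_eq_single 0] at h2
    · simp only [Function.iterate_zero, id_eq, pow_zero, if_true, mul_one] at h2
      exact hf h2
    · intro i _ hi
      have : 1 ≠ (p ^ e) ^ i := (Nat.one_lt_pow hi hpe).ne
      simp [this]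
    · intro h
      exact absurd (Finset.mem_range.mpr hn) h
  have hroot : ∀ c ∈ R, P.IsRoot c := by
    intro c hc
    have hc' := (hRm c).mp hc
    set t : V := ∑ i ∈ Finset.range n, σ^[i] (c • v) with ht
    have ht1 : σ t = t := by
      rw [ht, map_sum]
      have h3 : ∀ i, σ (σ^[i] (c • v)) = σ^[i + 1] (c • v) := fun i =>
        (Function.iterate_succ_apply' σ i (c • v)).symm
      simp_rw [h3]
      have h4 := Finset.sum_range_succ (fun i => σ^[i] (c • v)) n
      have h5 := Finset.sum_range_succ' (fun i => σ^[i] (c • v)) n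
      have h6 : σ^[n] (c • v) = σ^[0] (c • v) := by
        rw [iterate_smul _ σ hσ, hv, ← pow_mul, hc']
        rfl
      rw [h6] at h4
      have := h4.symm.trans h5
      exact (add_right_cancel this).symm
    have ht2 : f (W.mkQ t) = 0 := by
      have : W.mkQ t = 0 := by
        rw [Submodule.mkQ_apply, Submodule.Quotient.mk_eq_zero]
        exact Submodule.subset_span ht1
      rw [this, map_zero]
    rw [IsRoot.def, hP, eval_finsetSum]
    rw [← ht2, ht, map_sum, map_sum]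
    refine Finset.sum_congr rfl fun i _ => ?_
    rw [iterate_smul _ σ hσ, map_smul, map_smul, eval_mul, eval_C, eval_pow, eval_X, smul_eq_mul,
      mul_comm]
  have hcard : R.card ≤ P.natDegree := by
    have h7 : R.val ≤ P.roots := by
      rw [Finset.val_le_iff_val_subset]
      intro c hc
      exact (mem_roots hP0).mpr (hroot c hc)
    exact (Multiset.card_le_card h7).trans (card_roots' P)
  have hdeg : P.natDegree ≤ (p ^ e) ^ (n - 1) := by
    rw [hP]
    refine natDegree_sum_le_of_forall_le _ _ fun i hi => ?_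
    refine (natDegree_C_mul_X_pow_le _ _).trans ?_
    exact Nat.pow_le_pow_right (by omega) (by have := Finset.mem_range.mp hi; omega)
  have hlt : (p ^ e) ^ (n - 1) < (p ^ e) ^ n := Nat.pow_lt_pow_right hpe (by omega)
  rw [hR, pow_mul] at hcard
  omega

end J351

open Polynomial in
theorem semilinear {𝕜 V : Type*} [Field 𝕜] [IsAlgClosed 𝕜] (p : ℕ) [Fact p.Prime] [CharP 𝕜 p]
    [AddCommGroup V] [Module 𝕜 V] [FiniteDimensional 𝕜 V] (e : ℕ) (he : 0 < e) (σ : V →+ V)
    (hσ : ∀ (c : 𝕜) (v : V), σ (c • v) = c ^ (p ^ e) • σ v)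
    (hfin : ∀ v, ∃ n : ℕ, 0 < n ∧ σ^[n] v = v) :
    {v | σ v = v}.Finite ∧ {v | σ v = v}.ncard = (p ^ e) ^ Module.finrank 𝕜 V ∧
      Submodule.span 𝕜 {v | σ v = v} = ⊤ := by
  classical
  have htop : Submodule.span 𝕜 {v | σ v = v} = ⊤ :=
    Submodule.eq_top_iff'.mpr (J351.mem_span p e he σ hσ hfin)
  obtain ⟨b, hbF, hbs, hbl⟩ := exists_linearIndependent 𝕜 {v | σ v = v}
  have hbtop : ⊤ ≤ Submodule.span 𝕜 (Set.range (Subtype.val : b → V)) := by
    rw [Subtype.range_coe, hbs, htop]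
  set B := Module.Basis.mk hbl hbtop with hB
  have : Fintype b := FiniteDimensional.fintypeBasisIndex B
  obtain ⟨R, hR, hRm⟩ := J351.card_fix (𝕜 := 𝕜) p e he
  have hBσ : ∀ i : b, σ (B i) = B i := by
    intro i
    rw [hB, Module.Basis.mk_apply]
    exact hbF i.2
  have hfix : ∀ v : V, σ v = v ↔ ∀ i, B.equivFun v i ∈ R := by
    intro v
    have h1 : σ v = ∑ i, (B.equivFun v i) ^ (p ^ e) • B i := by
      conv_lhs => rw [← B.sum_equivFun v]
      rw [map_sum]
      exact Finset.sum_congr rfl fun i _ => by rw [hσ, hBσ]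
    have h2 : B.equivFun (σ v) = fun i => (B.equivFun v i) ^ (p ^ e) := by
      rw [h1]
      exact B.equivFun_symm_apply _ ▸ B.equivFun.apply_symm_apply _
    rw [← B.equivFun.injective.eq_iff, h2, funext_iff]
    exact forall_congr' fun i => (hRm _).symm
  have himg : {v | σ v = v} = B.equivFun.symm '' (Fintype.piFinset (fun _ : b => R) : Set (b → 𝕜)) := by
    ext v
    constructor
    · intro hv
      refine ⟨B.equivFun v, ?_, B.equivFun.symm_apply_apply v⟩
      simp only [Finset.mem_coe, Fintype.mem_piFinset]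
      exact (hfix v).mp hv
    · rintro ⟨g, hg, rfl⟩
      simp only [Finset.mem_coe, Fintype.mem_piFinset] at hg
      refine (hfix _).mpr fun i => ?_
      rw [LinearEquiv.apply_symm_apply]
      exact hg i
  refine ⟨?_, ?_, htop⟩
  · rw [himg]
    exact (Finset.finite_toSet _).image _
  · rw [himg, Set.ncard_image_of_injective _ B.equivFun.symm.injective, Set.ncard_coe_finset,
      Fintype.card_piFinset, Finset.prod_const, hR, Module.finrank_eq_card_basis B,
      Finset.card_univ]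

end Pool.Agent.TH185
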