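import Pool.Agent.TH563.Z.Kx
import Pool.Agent.W125.AX.KXR
import Pool.Agent.TH67.J364
import Pool.Agent.TH126.ZK.RealPt

/-!
# Job 766 (Z-KXR): the lower part of the kernel at real points, to all orders

Adapted from `Pool.Agent.W125.AX.KXR` (starting file).
-/

set_option autoImplicit false

namespace Pool.Agent.TH126.ZK

open Finset Filter Topology Metric
open Pool.Agent.W711.HT hiding XX
open Pool.Agent.TH563.Z
open Pool.Agent.W719.AX (UX Rl)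
open Pool.Agent.W125.AX (T_eq Th cauchy2 pow_exp open_Rc real_of_Rl)
open Pool.Agent.TH67.J364 (D1 D2 Lam Lam_pos near hasDerivAt_D1 dz_pos dz_lt)
open scoped Real

lemma cut_le {ε : ℝ} (h : ε < 1 / 4) (N : ℕ) : cut ε N ≤ N := by
  unfold cut
  apply Nat.ceil_le.2
  have : (0 : ℝ) ≤ N := Nat.cast_nonneg N
  nlinarith

lemma cut_ge {ε : ℝ} (h : 0 < ε) {N d : ℕ} (hN : 0 < N) (hd : (d : ℝ) / N < 1 / 2) :
    d < cut ε N ∧ d < N := by
  have hN0 : (0 : ℝ) < N := by exact_mod_cast hN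
  rw [div_lt_iff₀ hN0] at hd
  constructor
  · unfold cut
    apply Nat.lt_ceil.2
    nlinarith
  · have : (d : ℝ) < N := by linarith
    exact_mod_cast this

lemma im_of_Il {η r : ℝ} {z : ℂ} (h : z ∈ Il η r) : z = ((z.im : ℝ) : ℂ) * Complex.I ∧
    |z.im - η| < r ∧ ‖z - η * Complex.I‖ < r := by
  have h1 : z.re = 0 := h.1
  have h2 : |z.im - η| < r := h.2
  have h3 : z = ((z.im : ℝ) : ℂ) * Complex.I := by
    apply Complex.ext
    · simp [h1]
    · simp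
  refine ⟨h3, h2, ?_⟩
  have h4 : z - η * Complex.I = ((z.im - η : ℝ) : ℂ) * Complex.I := by
    conv_lhs => rw [h3]
    push_cast
    ring
  rw [h4, norm_mul, Complex.norm_real, Complex.norm_I, mul_one]
  exact h2

/-- continuity at the base point -/
lemma cont_base {η r c C : ℝ} {s dl : ℂ → ℂ → ℂ} (H : SDZ η r c C s dl) {ε : ℝ} (hε : 0 < ε) :
    ∃ r' : ℝ, 0 < r' ∧ r' ≤ r ∧ ∀ a y : ℝ, |a| < r' → |y - η| < r' →
      ‖dl a (y * Complex.I) - ((dz η : ℝ) : ℂ)‖ < ε ∧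
      ‖s a (y * Complex.I) - ((AA η : ℝ) : ℂ)‖ < ε := by
  have hC := H.hC
  refine ⟨min r (ε / (2 * C)), lt_min H.hr.1 (by positivity), min_le_left _ _, fun a y ha hy => ?_⟩
  have ha1 := ha.trans_le (min_le_left _ _)
  have ha2 := ha.trans_le (min_le_right _ _)
  have hy1 := hy.trans_le (min_le_left _ _)
  have hy2 := hy.trans_le (min_le_right _ _)
  have e1 : ‖(a : ℂ)‖ = |a| := by rw [Complex.norm_real, Real.norm_eq_abs]
  have e2 : ‖(y * Complex.I : ℂ) - η * Complex.I‖ = |y - η| := by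
    have : (y * Complex.I : ℂ) - η * Complex.I = ((y - η : ℝ) : ℂ) * Complex.I := by
      push_cast; ring
    rw [this, norm_mul, Complex.norm_real, Complex.norm_I, mul_one, Real.norm_eq_abs]
  have k1 := H.dlip a (mem_Rc ha1) _ (mem_Rz hy1)
  have k2 := H.lip a (mem_Rc ha1) _ (mem_Rz hy1)
  rw [e1, e2] at k1 k2
  have k3 : C * (|a| + |y - η|) < ε := by
    have : |a| + |y - η| < ε / C := by
      calc |a| + |y - η| < ε / (2 * C) + ε / (2 * C) := add_lt_add ha2 hy2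
        _ = ε / C := by field_simp; ring
    calc C * (|a| + |y - η|) < C * (ε / C) := mul_lt_mul_of_pos_left this hC
      _ = ε := by field_simp
  exact ⟨k1.trans_lt k3, k2.trans_lt k3⟩

/-- the far part -/
lemma far_part {η ε : ℝ} (hε : ε < 1 / 4) (h5 : FDZ η ε) {r : ℝ} (hr : 0 < r) :
    ∃ κ : ℝ, 0 < κ ∧ ∃ τ : ℝ, 0 < τ ∧ ∀ᶠ N : ℕ in atTop,
    ∀ a y : ℝ, |a| ≤ π → |y - η| ≤ τ → ∀ d : ℕ, d < cut ε N → ¬ |(d : ℝ) / N - dz η| < r →
    ‖Rp N d a * Rp N d (y * Complex.I) / (Sd N d : ℂ) ^ 4‖ ≤ Real.exp (N * (AA η - 2 * κ)) := by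
  obtain ⟨κ, hκ, τ, hτ, h⟩ := h5 r hr
  refine ⟨κ / 2, by positivity, τ, hτ, ?_⟩
  filter_upwards [h] with N hN a y ha hy d hd hdr
  have hpi := Real.pi_pos
  have k1 := hN d hd (not_lt.1 hdr) a 0 0 y ha (by rw [abs_zero]; exact hτ.le)
    (by rw [abs_zero]; exact hpi.le) hy
  simp only [Complex.ofReal_zero, zero_mul, add_zero, zero_add] at k1
  have hdN : d < N := hd.trans_le (cut_le hε N)
  have := Pool.Agent.TH67.J364.term_le hdN k1
  rw [show AA η - 2 * (κ / 2) = AA η - κ by ring]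
  exact this

/-- the decomposition of the kernel -/
lemma kx_split (s : ℂ → ℂ → ℂ) {ε : ℝ} (hε : 0 < ε) {N : ℕ} (hN : 1 ≤ N) (p : ℂ × ℂ) (q : ℂ)
    (hq : s p.1 p.2 = q) {r y₀ : ℝ} (hr : y₀ + r ≤ 1 / 2) : kxz ε s N p =
    ((Real.sqrt N : ℝ) : ℂ)⁻¹ * Complex.exp (-(N * q)) *
      ∑ d ∈ (range N).filter (fun d : ℕ => |(d : ℝ) / N - y₀| < r),
        (N : ℂ) ^ 2 * (Rp N d p.1 * Rp N d p.2 / (Sd N d : ℂ) ^ 4) +
    ((Real.sqrt N) ^ 3 : ℝ) * Complex.exp (-(N * q)) *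
      ∑ d ∈ (range (cut ε N)).filter (fun d : ℕ => ¬ |(d : ℝ) / N - y₀| < r),
        Rp N d p.1 * Rp N d p.2 / (Sd N d : ℂ) ^ 4 := by
  have hN0 : (0 : ℝ) < N := by exact_mod_cast hN
  unfold kxz kerL
  rw [hq, ← sum_filter_add_sum_filter_not (range (cut ε N))
    (fun d : ℕ => |(d : ℝ) / N - y₀| < r), mul_add]
  congr 1
  have hset : (range (cut ε N)).filter (fun d : ℕ => |(d : ℝ) / N - y₀| < r) =
      (range N).filter (fun d : ℕ => |(d : ℝ) / N - y₀| < r) := by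
    ext d
    rw [mem_filter, mem_filter, mem_range, mem_range]
    constructor
    · rintro ⟨-, h⟩
      exact ⟨(cut_ge hε hN (by linarith [(abs_lt.1 h).2])).2, h⟩
    · rintro ⟨-, h⟩
      exact ⟨(cut_ge hε hN (by linarith [(abs_lt.1 h).2])).1, h⟩
  rw [hset, ← mul_sum]
  have e1 : (((Real.sqrt N) ^ 3 : ℝ) : ℂ) = ((Real.sqrt N : ℝ) : ℂ)⁻¹ * (N : ℂ) ^ 2 := by
    have h1 : (Real.sqrt N) ^ 3 = (Real.sqrt N)⁻¹ * (N : ℝ) ^ 2 := by
      have h2 := Real.sq_sqrt hN0.le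
      have h3 : 0 < Real.sqrt N := Real.sqrt_pos.2 hN0
      rw [eq_inv_mul_iff_mul_eq₀ h3.ne']
      calc Real.sqrt N * Real.sqrt N ^ 3 = (Real.sqrt N ^ 2) ^ 2 := by ring
        _ = (N : ℝ) ^ 2 := by rw [h2]
    rw [h1]
    push_cast
    rfl
  rw [e1]
  ring

/-- bound of the far part of the kernel -/
lemma kx_far {A κ : ℝ} {N n : ℕ} (hN : 1 ≤ N) (hn : n ≤ N) {q : ℂ} (hq : A - κ ≤ q.re)
    {P : ℕ → Prop} [DecidablePred P]
    (f : ℕ → ℂ) (hf : ∀ d : ℕ, d < n → P d → ‖f d‖ ≤ Real.exp (N * (A - 2 * κ))) :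
    ‖((Real.sqrt N) ^ 3 : ℝ) * Complex.exp (-(N * q)) *
      ∑ d ∈ (range n).filter P, f d‖ ≤ (N : ℝ) ^ 3 * Real.exp (-(N * κ)) := by
  have hN0 : (0 : ℝ) < N := by exact_mod_cast hN
  have hN1 : (1 : ℝ) ≤ N := by exact_mod_cast hN
  have h1 : ‖∑ d ∈ (range n).filter P, f d‖ ≤ N * Real.exp (N * (A - 2 * κ)) := by
    refine (norm_sum_le _ _).trans ?_
    have h2 : ∑ d ∈ (range n).filter P, ‖f d‖ ≤
        (((range n).filter P).card : ℝ) * Real.exp (N * (A - 2 * κ)) := by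
      rw [← nsmul_eq_mul]
      refine sum_le_card_nsmul _ _ _ fun d hd => ?_
      rw [mem_filter, mem_range] at hd
      exact hf d hd.1 hd.2
    refine h2.trans (mul_le_mul_of_nonneg_right ?_ (Real.exp_pos _).le)
    have : ((range n).filter P).card ≤ N := by
      refine (card_filter_le _ _).trans ?_
      rw [card_range]
      exact hn
    exact_mod_cast this
  have h3 : (Real.sqrt N) ^ 3 ≤ (N : ℝ) ^ 2 := by
    have h4 := Real.sq_sqrt hN0.le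
    have h5 : 1 ≤ Real.sqrt N := by
      rw [show (1 : ℝ) = Real.sqrt 1 by simp]
      exact Real.sqrt_le_sqrt hN1
    calc (Real.sqrt N) ^ 3 ≤ (Real.sqrt N) ^ 4 := pow_le_pow_right₀ h5 (by norm_num)
      _ = (Real.sqrt N ^ 2) ^ 2 := by ring
      _ = (N : ℝ) ^ 2 := by rw [h4]
  have h6 : ‖Complex.exp (-(N * q))‖ ≤ Real.exp (-(N * (A - κ))) := by
    rw [Complex.norm_exp]
    apply Real.exp_le_exp.2
    have : (-(N * q) : ℂ).re = -(N * q.re) := by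
      rw [Complex.neg_re, ← Complex.ofReal_natCast, Complex.re_ofReal_mul]
    rw [this]
    have := mul_le_mul_of_nonneg_left hq hN0.le
    linarith
  rw [norm_mul, norm_mul, Complex.norm_real, Real.norm_eq_abs, abs_of_nonneg (by positivity)]
  calc (Real.sqrt N) ^ 3 * ‖Complex.exp (-(N * q))‖ * _ ≤
      (N : ℝ) ^ 2 * Real.exp (-(N * (A - κ))) * (N * Real.exp (N * (A - 2 * κ))) := by
        gcongr
    _ = (N : ℝ) ^ 3 * (Real.exp (-(N * (A - κ))) * Real.exp (N * (A - 2 * κ))) := by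
        ring
    _ = _ := by
        rw [← Real.exp_add]
        congr 2
        ring

/-- `2 q + 2 cos (2 π x t) ≥ 0` for `x ≤ 7 / 16` and `q` close to `1` -/
lemma arg_near {x q t : ℝ} (h0 : 0 ≤ x) (h1 : x ≤ 7 / 16) (hq : Real.cos (π / 8) ≤ q)
    (ht : 0 ≤ t) (ht' : t ≤ 1) : 0 ≤ 2 * q + 2 * Real.cos (2 * π * x * t) := by
  have hpi := Real.pi_pos
  have h2 : Real.cos (7 * π / 8) ≤ Real.cos (2 * π * x * t) := by
    apply Real.cos_le_cos_of_nonneg_of_le_pi (by positivity) (by linarith)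
    have : x * t ≤ 7 / 16 := by nlinarith
    nlinarith
  have h3 : Real.cos (7 * π / 8) = -Real.cos (π / 8) := by
    rw [show 7 * π / 8 = π - π / 8 by ring, Real.cos_pi_sub]
  linarith

lemma cos_near {a : ℝ} (h : |a| < 1 / 16) : Real.cos (π / 8) ≤ Real.cos a := by
  have hpi := Real.pi_gt_three
  rw [← Real.cos_abs a]
  exact Real.cos_le_cos_of_nonneg_of_le_pi (abs_nonneg a) (by linarith) (by linarith)

lemma ofReal_sub_norm (x y : ℝ) : ‖(x : ℂ) - (y : ℂ)‖ = |x - y| := by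
  rw [← Complex.ofReal_sub, Complex.norm_real, Real.norm_eq_abs]

end Pool.Agent.TH126.ZK

namespace Pool.Agent.TH563.Z

open Finset Filter Topology Metric
open Pool.Agent.W711.HT hiding XX
open Pool.Agent.W719.AX (UX Rl)
open Pool.Agent.W125.AX (T_eq Th cauchy2 pow_exp open_Rc real_of_Rl)
open Pool.Agent.TH67.J364 (D1 D2 Lam Lam_pos near hasDerivAt_D1 dz_pos dz_lt)
open Pool.Agent.TH126.ZK
open scoped Real

theorem kxrz : S_EMRZ → S_EMSZ → S_WINZ → S_RRDZ → S_KXRZ := by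
  intro h1 h2 h3 h4 η ε ρ τ ρ' τ' κ c s dl hη hF H
  obtain ⟨ρR, hρR, hρR', u, u1, u2, u3⟩ := h1 η hη
  obtain ⟨ρS, hρS, hρS', v, v1, v2, v3⟩ := h2 (dz η) dz_ge (dz_le hη)
  obtain ⟨ρD, hρD, dR, dR', dS, dd, -⟩ := h4 η hη
  obtain ⟨Rn, hRn, hnear⟩ := near η
  obtain ⟨rz, Cz, Hz, hz1, hz2⟩ := H.sdz
  have hρ := H.hρ
  have hτ := H.hτ
  have hρ' := H.hρ'
  have hτ' := H.hτ'
  have hε := H.hε
  have hpi := Real.pi_gt_three
  have hL := Lam_pos η
  have hd1 : 1 / 4 ≤ dz η := dz_ge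
  have hd2 : dz η ≤ 3 / 8 := dz_le hη
  obtain ⟨r0, hr0, r16, rR, rS, rD, rN⟩ : ∃ r0 : ℝ, 0 < r0 ∧ r0 ≤ 1 / 16 ∧ r0 ≤ ρR ∧ r0 ≤ ρS ∧
      r0 ≤ ρD / 2 ∧ r0 ≤ Rn :=
    ⟨min (min ρR ρS) (min (ρD / 2) (min (1 / 16) Rn)), by positivity,
      (min_le_right _ _).trans ((min_le_right _ _).trans (min_le_left _ _)),
      (min_le_left _ _).trans (min_le_left _ _),
      (min_le_left _ _).trans (min_le_right _ _), (min_le_right _ _).trans (min_le_left _ _),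
      (min_le_right _ _).trans ((min_le_right _ _).trans (min_le_right _ _))⟩
  obtain ⟨rc, hrc, hrcz, hcont⟩ := cont_base Hz (show 0 < r0 / 4 by positivity)
  obtain ⟨ρ1, hρ1, g1, g2, g3, g4⟩ : ∃ ρ1 : ℝ, 0 < ρ1 ∧ ρ1 ≤ ρ ∧ ρ1 ≤ r0 ∧ ρ1 ≤ rc ∧ ρ1 ≤ τ' :=
    ⟨min (min ρ τ') (min r0 rc), lt_min (lt_min hρ.1 hτ'.1) (lt_min hr0 hrc),
      (min_le_left _ _).trans (min_le_left _ _),
      (min_le_right _ _).trans (min_le_left _ _), (min_le_right _ _).trans (min_le_right _ _),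
      (min_le_left _ _).trans (min_le_right _ _)⟩
  -- bounds of the phase
  obtain ⟨BR, hBR⟩ := ((isCompact_closedBall (dz η : ℂ) (ρD / 2)).prod
    (isCompact_closedBall (0 : ℂ) (ρD / 2))).exists_bound_of_continuousOn
    (dR.continuousOn.mono (Set.prod_mono (closedBall_subset_ball (by linarith))
      (closedBall_subset_ball (by linarith))))
  obtain ⟨BR', hBR'⟩ := ((isCompact_closedBall (dz η : ℂ) (ρD / 2)).prod
    (isCompact_closedBall (η * Complex.I : ℂ) (ρD / 2))).exists_bound_of_continuousOn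
    (dR'.continuousOn.mono (Set.prod_mono (closedBall_subset_ball (by linarith))
      (closedBall_subset_ball (by linarith))))
  obtain ⟨BS, hBS⟩ := (isCompact_closedBall (dz η : ℂ) (ρD / 2)).exists_bound_of_continuousOn
    (dS.continuousOn.mono (closedBall_subset_ball (by linarith)))
  obtain ⟨S, hS⟩ : ∃ S : Set (ℂ × ℂ), S = Rl ρ1 ×ˢ Il η ρ1 := ⟨_, rfl⟩
  have hmem : ∀ p ∈ S, (p.1 = ((p.1.re : ℝ) : ℂ) ∧ |p.1.re| < ρ1 ∧ ‖p.1‖ < ρ1) ∧
      (p.2 = ((p.2.im : ℝ) : ℂ) * Complex.I ∧ |p.2.im - η| < ρ1 ∧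
        ‖p.2 - η * Complex.I‖ < ρ1) := by
    intro p hp
    rw [hS] at hp
    exact ⟨real_of_Rl hp.1, im_of_Il hp.2⟩
  have hball : ∀ (r : ℝ), r0 ≤ r → ∀ z : ℂ, ‖z‖ < ρ1 → z ∈ ball (0 : ℂ) r := by
    intro r hr z hz
    rw [mem_ball_zero_iff]
    linarith
  have hball' : ∀ (r : ℝ), r0 ≤ r → ∀ z : ℂ, ‖z - η * Complex.I‖ < ρ1 →
      z ∈ ball (η * Complex.I : ℂ) r := by
    intro r hr z hz
    rw [mem_ball, dist_eq_norm]
    linarith
  have hder : ∀ p ∈ S, ∀ δ ∈ ball (dz η : ℂ) ρD, HasDerivAt (Th p) (D1 p.1 p.2 δ) δ := by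
    intro p hp δ hδ
    obtain ⟨⟨a1, a2, a3⟩, b1, b2, b3⟩ := hmem p hp
    have k1 := ((dd δ hδ).1 p.1 (Or.inl (hball ρD (by linarith) _ a3))).1
    have k2 := ((dd δ hδ).1 p.2 (Or.inr (hball' ρD (by linarith) _ b3))).1
    have k3 := (dd δ hδ).2
    exact (k1.add k2).sub (k3.const_mul 4)
  have hrb : ball (dz η : ℂ) r0 ⊆ ball (dz η : ℂ) ρD := ball_subset_ball (by linarith)
  have hThd : ∀ p ∈ S, DifferentiableOn ℂ (Th p) (ball (dz η : ℂ) r0) := fun p hp δ hδ =>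
    ((hder p hp δ (hrb hδ)).differentiableAt).differentiableWithinAt
  have hThB : ∀ p ∈ S, ∀ δ ∈ ball (dz η : ℂ) r0, ‖Th p δ‖ ≤ BR + BR' + 4 * BS := by
    intro p hp δ hδ
    obtain ⟨⟨a1, a2, a3⟩, b1, b2, b3⟩ := hmem p hp
    have hδ' : δ ∈ closedBall (dz η : ℂ) (ρD / 2) :=
      closedBall_subset_closedBall rD (ball_subset_closedBall hδ)
    have m1 : p.1 ∈ closedBall (0 : ℂ) (ρD / 2) := by
      rw [mem_closedBall_zero_iff]; linarith
    have m2 : p.2 ∈ closedBall (η * Complex.I : ℂ) (ρD / 2) := by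
      rw [mem_closedBall, dist_eq_norm]; linarith
    have k1 := hBR (δ, p.1) ⟨hδ', m1⟩
    have k2 := hBR' (δ, p.2) ⟨hδ', m2⟩
    have k3 := hBS δ hδ'
    simp only at k1 k2
    unfold Th
    calc ‖rrF δ p.1 + rrF δ p.2 - 4 * ssF δ‖ ≤ ‖rrF δ p.1 + rrF δ p.2‖ + ‖4 * ssF δ‖ :=
          norm_sub_le _ _
      _ ≤ ‖rrF δ p.1‖ + ‖rrF δ p.2‖ + 4 * ‖ssF δ‖ := by
          refine add_le_add (norm_add_le _ _) ?_
          rw [norm_mul]
          norm_num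
      _ ≤ _ := by linarith
  -- the critical point
  obtain ⟨δs, hδs⟩ : ∃ δs : ℂ × ℂ → ℝ, δs = fun p => (dl p.1 p.2).re := ⟨_, rfl⟩
  have hRcz : ∀ p ∈ S, p.1 ∈ Rc rz rz ∧ p.2 ∈ Rz η rz rz := by
    intro p hp
    obtain ⟨⟨a1, a2, a3⟩, b1, b2, b3⟩ := hmem p hp
    rw [a1, b1]
    exact ⟨mem_Rc (by linarith), mem_Rz (by linarith)⟩
  have hcrit : ∀ p ∈ S, dl p.1 p.2 = (δs p : ℂ) ∧ |δs p - dz η| ≤ r0 / 4 ∧
      D1 p.1 p.2 (δs p) = 0 := by
    intro p hp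
    obtain ⟨⟨a1, a2, a3⟩, b1, b2, b3⟩ := hmem p hp
    obtain ⟨x, x1, x2, x3, x4⟩ := dl_re Hz dz_pos dz_lt (a := p.1.re) (y := p.2.im)
      (by linarith) (by linarith)
    have k := (hcont p.1.re p.2.im (by linarith) (by linarith)).1
    rw [← a1, ← b1] at x1 k
    have hx : δs p = x := by
      rw [hδs]
      simp only
      rw [x1, Complex.ofReal_re]
    rw [hx]
    refine ⟨x1, ?_, ?_⟩
    · rw [x1, ofReal_sub_norm] at k
      exact k.le
    · have k2 := Hz.dcrit p.1 (hRcz p hp).1 p.2 (hRcz p hp).2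
      rw [x1] at k2
      unfold D1
      rw [k2, sub_self]
  have hreal_ball : ∀ x : ℝ, |x - dz η| < r0 → (x : ℂ) ∈ ball (dz η : ℂ) r0 := by
    intro x hx
    rw [mem_ball, dist_eq_norm, ofReal_sub_norm]
    exact hx
  have hdd : ∀ p ∈ S, ∀ x : ℝ, |x - dz η| < r0 →
      (deriv (deriv (Th p)) (x : ℂ)).re ≤ -Lam η := by
    intro p hp x hx
    obtain ⟨⟨a1, a2, a3⟩, b1, b2, b3⟩ := hmem p hp
    have hxb : (x : ℂ) ∈ ball (dz η : ℂ) ρD := hrb (hreal_ball x hx)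
    have e1 : deriv (Th p) =ᶠ[𝓝 (x : ℂ)] D1 p.1 p.2 :=
      Filter.eventuallyEq_of_mem (isOpen_ball.mem_nhds hxb) fun y hy => (hder p hp y hy).deriv
    rw [e1.deriv_eq]
    obtain ⟨n1, n2, n3, n4⟩ := hnear (x : ℂ) p.1 p.2 (by
      rw [ofReal_sub_norm]; linarith) (by linarith) (by linarith)
    rw [(hasDerivAt_D1 n1 n2 n3).deriv]
    have n5 := (Complex.re_le_norm _).trans n4
    rw [Complex.add_re] at n5
    have e2 : ((2 : ℂ) * (Lam η : ℂ)).re = 2 * Lam η := by simp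
    rw [e2] at n5
    linarith
  -- the window
  obtain ⟨w, hw⟩ : ∃ w : ℕ → (ℂ × ℂ) × ℂ → ℂ, w = fun k x =>
    u k x.2 x.1.1 + u k x.2 x.1.2 - 2 * v k x.2 := ⟨_, rfl⟩
  obtain ⟨T, hT⟩ : ∃ T : ℕ → ℕ → ℂ × ℂ → ℂ, T = fun (N d : ℕ) (p : ℂ × ℂ) =>
    (N : ℂ) ^ 2 * (Rp N d p.1 * Rp N d p.2 / (Sd N d : ℂ) ^ 4) := ⟨_, rfl⟩
  have hwB : ∀ k, ∃ B' : ℝ, ∀ p ∈ S, ∀ δ ∈ ball (dz η : ℂ) r0, ‖w k (p, δ)‖ ≤ B' := by
    intro k
    obtain ⟨B1, hB1⟩ := u2 k
    obtain ⟨B2, hB2⟩ := v2 k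
    refine ⟨B1 + B1 + 2 * B2, fun p hp δ hδ => ?_⟩
    obtain ⟨⟨a1, a2, a3⟩, b1, b2, b3⟩ := hmem p hp
    have k1 := hB1 δ (ball_subset_ball rR hδ) p.1 (Or.inl (hball _ rR _ a3))
    have k2 := hB1 δ (ball_subset_ball rR hδ) p.2 (Or.inr (hball' _ rR _ b3))
    have k3 := hB2 δ (ball_subset_ball rS hδ)
    rw [hw]
    simp only
    calc ‖u k δ p.1 + u k δ p.2 - 2 * v k δ‖ ≤ ‖u k δ p.1 + u k δ p.2‖ + ‖2 * v k δ‖ :=
          norm_sub_le _ _
      _ ≤ ‖u k δ p.1‖ + ‖u k δ p.2‖ + 2 * ‖v k δ‖ := by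
          refine add_le_add (norm_add_le _ _) ?_
          rw [norm_mul]
          norm_num
      _ ≤ _ := by linarith
  obtain ⟨r, hr, hrr, A, hA, hA0⟩ := h3 (dz η) hd1 hd2 r0 (Lam η) (BR + BR' + 4 * BS) hr0 r16 hL
    (ℂ × ℂ) S Th δs w T
    (by
      intro p hp
      obtain ⟨⟨a1, a2, a3⟩, b1, b2, b3⟩ := hmem p hp
      obtain ⟨c1, c2, c3⟩ := hcrit p hp
      refine ⟨hThd p hp, hThB p hp, c2, ?_, ?_, hdd p hp⟩
      · rw [(hder p hp _ (hrb (hreal_ball _ (by linarith)))).deriv]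
        exact c3
      · intro x hx
        obtain ⟨x1, x2⟩ := abs_lt.1 hx
        unfold Th
        have k1 : (rrF (x : ℂ) (p.1.re : ℂ)).im = 0 := rr_re (q := Real.cos p.1.re)
          (by push_cast; rfl) fun t ht ht' => arg_near (by linarith) (by linarith)
            (cos_near (by linarith)) ht ht'
        have k2 : (rrF (x : ℂ) (p.2.im * Complex.I)).im = 0 := rr_re (q := Real.cosh p.2.im)
          (cos_yI _) fun t ht ht' => arg_near (by linarith) (by linarith)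
            ((Real.cos_le_one _).trans (Real.one_le_cosh _)) ht ht'
        have k3 : (ssF (x : ℂ)).im = 0 := ss_re (by linarith) (by linarith)
        rw [← a1] at k1
        rw [← b1] at k2
        rw [Complex.sub_im, Complex.add_im, k1, k2, Complex.mul_im, k3]
        simp)
    (by
      intro k p hp
      obtain ⟨⟨a1, a2, a3⟩, b1, b2, b3⟩ := hmem p hp
      rw [hw]
      exact (((u1 k p.1 (Or.inl (hball _ rR _ a3))).mono (ball_subset_ball rR)).add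
        ((u1 k p.2 (Or.inr (hball' _ rR _ b3))).mono (ball_subset_ball rR))).sub
        (((v1 k).mono (ball_subset_ball rS)).const_mul 2))
    hwB
    (by
      intro K
      obtain ⟨Cu, hu⟩ := u3 K
      obtain ⟨Cv, hv⟩ := v3 K
      refine ⟨2 * Cu + 2 * Cv, ?_⟩
      filter_upwards [hu, hv, eventually_ge_atTop 1] with N hu hv hN d hd p hp
      obtain ⟨⟨a1, a2, a3⟩, b1, b2, b3⟩ := hmem p hp
      obtain ⟨e1, f1, k1⟩ := hu d (hd.trans_le rR) p.1 (Or.inl (hball _ rR _ a3))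
      obtain ⟨e2, f2, k2⟩ := hu d (hd.trans_le rR) p.2 (Or.inr (hball' _ rR _ b3))
      obtain ⟨e3, f3, k3⟩ := hv d (hd.trans_le rS)
      refine ⟨e1 + e2 - 2 * e3, ?_, ?_⟩
      · calc ‖e1 + e2 - 2 * e3‖ ≤ ‖e1 + e2‖ + ‖2 * e3‖ := norm_sub_le _ _
          _ ≤ ‖e1‖ + ‖e2‖ + 2 * ‖e3‖ := by
              refine add_le_add (norm_add_le _ _) ?_
              rw [norm_mul]
              norm_num
          _ ≤ Cu / (N : ℝ) ^ K + Cu / (N : ℝ) ^ K + 2 * (Cv / (N : ℝ) ^ K) := by linarith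
          _ = _ := by ring
      · rw [hT]
        simp only
        rw [T_eq hN k1 k2 k3, hw]
        unfold Th
        congr 2
        congr 1
        simp only [sub_div, add_div, sum_sub_distrib, sum_add_distrib, mul_div_assoc, mul_sum])
  obtain ⟨κf, hκf, τf, hτf, hfar⟩ := far_part hε.2 hF hr
  obtain ⟨rc2, hrc2, -, hcont2⟩ := cont_base Hz hκf
  obtain ⟨ρ2, hρ2, l1, l2, l3⟩ : ∃ ρ2 : ℝ, 0 < ρ2 ∧ ρ2 ≤ ρ1 ∧ ρ2 ≤ rc2 ∧ ρ2 ≤ τf :=
    ⟨min ρ1 (min rc2 τf), lt_min hρ1 (lt_min hrc2 hτf), min_le_left _ _,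
      (min_le_right _ _).trans (min_le_left _ _), (min_le_right _ _).trans (min_le_right _ _)⟩
  have hSS : Rl ρ2 ×ˢ Il η ρ2 ⊆ S := by
    rw [hS]
    intro p hp
    exact ⟨⟨lt_of_lt_of_le hp.1.1 l1, hp.1.2⟩, ⟨hp.2.1, lt_of_lt_of_le hp.2.2 l1⟩⟩
  obtain ⟨B', hB'⟩ := hwB 0
  obtain ⟨M, hM, hM0⟩ : ∃ M : ℝ, 32 * (BR + BR' + 4 * BS) / r0 ^ 2 ≤ M ∧ 0 < M :=
    ⟨max (32 * (BR + BR' + 4 * BS) / r0 ^ 2) 1, le_max_left _ _,
      lt_of_lt_of_le one_pos (le_max_right _ _)⟩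
  refine ⟨ρ2, hρ2, l1.trans g1, l1.trans g4, A, Real.exp (-B') * (2 * π / M) ^ (1 / 2 : ℝ),
    by positivity, ?_, ?_⟩
  · intro K
    obtain ⟨C, hC⟩ := hA K
    refine ⟨C + 1, ?_⟩
    filter_upwards [hC, hfar, pow_exp hκf K, eventually_ge_atTop 1] with N n1 n2 n3 n4 p hp
    have hpS := hSS hp
    obtain ⟨⟨a1, a2, a3⟩, b1, b2, b3⟩ := hmem p hpS
    have a4 := (real_of_Rl hp.1).2.1
    have b4 := (im_of_Il hp.2).2.1
    obtain ⟨c1, c2, c3⟩ := hcrit p hpS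
    have hq : s p.1 p.2 = Th p (δs p) := by
      rw [Hz.scrit p.1 (hRcz p hpS).1 p.2 (hRcz p hpS).2, c1]
      rfl
    rw [kx_split s hε.1 n4 p _ hq (r := r) (y₀ := dz η) (by linarith)]
    have k1 := n1 p hpS
    rw [hT] at k1
    simp only at k1
    have hre : AA η - κf ≤ (Th p (δs p)).re := by
      rw [← hq]
      have k := (hcont2 p.1.re p.2.im (a4.trans_le l2) (b4.trans_le l2)).2
      rw [← a1, ← b1] at k
      have k2 := (Complex.abs_re_le_norm (s p.1 p.2 - ((AA η : ℝ) : ℂ))).trans k.le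
      rw [Complex.sub_re, Complex.ofReal_re] at k2
      linarith [(abs_le.1 k2).1]
    have k2 := kx_far (κ := κf) (A := AA η) n4 (cut_le hε.2 N) hre
      (P := fun d : ℕ => ¬ |(d : ℝ) / N - dz η| < r)
      (fun d => Rp N d p.1 * Rp N d p.2 / (Sd N d : ℂ) ^ 4) (by
        intro d hd hdr
        have := n2 p.1.re p.2.im (by linarith) (by linarith) d hd hdr
        rw [← a1, ← b1] at this
        exact this)
    have hN0 : (0 : ℝ) < N := by exact_mod_cast n4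
    have e : (C + 1) / (N : ℝ) ^ K = C / (N : ℝ) ^ K + 1 / (N : ℝ) ^ K := by ring
    rw [e]
    rw [add_sub_right_comm]
    refine (norm_add_le _ _).trans (add_le_add k1 (k2.trans n3))
  · intro p hp
    have hpS := hSS hp
    obtain ⟨c1, c2, c3⟩ := hcrit p hpS
    rw [hA0 p hpS, norm_mul]
    have hδb : ((δs p : ℝ) : ℂ) ∈ ball (dz η : ℂ) r0 := hreal_ball _ (by linarith)
    have k1 : Real.exp (-B') ≤ ‖Complex.exp (w 0 (p, (δs p : ℂ)))‖ := by
      rw [Complex.norm_exp]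
      apply Real.exp_le_exp.2
      have := (Complex.abs_re_le_norm _).trans (hB' p hpS _ hδb)
      linarith [(abs_le.1 this).1]
    have k2 := cauchy2 (z := ((δs p : ℝ) : ℂ)) hr0 (hThd p hpS) (hThB p hpS) (by
      rw [ofReal_sub_norm]
      exact c2)
    have k3 := hdd p hpS (δs p) (by linarith)
    set D := deriv (deriv (Th p)) ((δs p : ℝ) : ℂ) with hD
    have hD0 : 0 < ‖D‖ := by
      have := (Complex.abs_re_le_norm D)
      have h6 : Lam η ≤ |D.re| := by rw [le_abs]; right; linarith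
      linarith
    have k4 : (2 * π / M) ^ (1 / 2 : ℝ) ≤ ‖(2 * (π : ℂ) / (-D)) ^ (1 / 2 : ℂ)‖ := by
      have e : (1 / 2 : ℂ) = (((1 / 2 : ℝ)) : ℂ) := by push_cast; rfl
      rw [e, Complex.norm_cpow_real, norm_div, norm_neg, norm_mul, Complex.norm_real]
      have e2 : ‖(2 : ℂ)‖ * ‖π‖ = 2 * π := by
        rw [Real.norm_eq_abs, abs_of_pos (by linarith)]
        norm_num
      rw [e2]
      apply Real.rpow_le_rpow (by positivity) _ (by norm_num)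
      apply div_le_div_of_nonneg_left (by positivity) hD0 (k2.trans hM)
    exact mul_le_mul k1 k4 (by positivity) (norm_nonneg _)

end Pool.Agent.TH563.Z
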