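import Pool.Agent.TH126.ZK.KLogZ
import Pool.Agent.W701.AX.Kxc
import Pool.Agent.W414.AX.Ext
import Pool.Agent.W637.AX.TC
import Pool.Agent.W67.AX.UX2
import Pool.Agent.W303.AX.UX1

/-!
# Job 767 (Z-KXC): the lower part of the kernel at complex points, to all orders

Adapted from `Pool.Agent.W701.AX.Kxc` (starting file).
-/

set_option autoImplicit false

namespace Pool.Agent.TH563.Z

open Pool.Agent Finset Filter Topology Metric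
open Pool.Agent.W711.HT hiding XX
open Pool.Agent.W719.AX (UX Rl S_EXT S_UXLOG S_UXEXP S_UXAN)
open Pool.Agent.TH126.ZK
open Pool.Agent.W701.AX (Rc_open)
open scoped Real

/-- the inverse of the coordinate at `i η` -/
noncomputable def J767.gi (η : ℝ) (φ : ℂ) : ℂ := -(φ * Complex.I) - η

theorem J767.gt_gi (η : ℝ) (φ : ℂ) : gt η (J767.gi η φ) = φ := by
  unfold gt J767.gi
  linear_combination (-φ) * Complex.I_mul_I

theorem J767.gi_gt (η : ℝ) (t : ℂ) : J767.gi η (gt η t) = t := by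
  unfold gt J767.gi
  linear_combination (-(η + t)) * Complex.I_mul_I

theorem J767.gi_mem {η a b : ℝ} {φ : ℂ} (h : φ ∈ Rz η a b) : J767.gi η φ ∈ Rc b a := by
  have h1 : (J767.gi η φ).re = φ.im - η := by simp [J767.gi]
  have h2 : (J767.gi η φ).im = -φ.re := by simp [J767.gi]
  refine ⟨?_, ?_⟩
  · rw [h1]; exact h.2
  · rw [h2, abs_neg]; exact h.1

theorem J767.Rz_open (η ρ τ : ℝ) : IsOpen (Rz η ρ τ) := by
  have h1 : Continuous fun z : ℂ => |z.re| := Complex.continuous_re.abs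
  have h2 : Continuous fun z : ℂ => |z.im - η| := (Complex.continuous_im.sub continuous_const).abs
  exact (isOpen_lt h1 continuous_const).inter (isOpen_lt h2 continuous_const)

theorem kxcz_aux : S_KXRZ → S_EXT → S_UXLOG → S_UXEXP → S_UXAN → S_KXCZ := by
  intro hR hE hUL hUE hUA η ε ρ τ ρ' τ' κ c s dl hη hF H
  obtain ⟨ρ₁, hρ₁, hρ₁ρ, hρ₁τ', a, c₁, hc₁, hux, hnz⟩ := hR η ε ρ τ ρ' τ' κ c s dl hη hF H
  obtain ⟨C₀, L, hL⟩ := klogz H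
  have hτ := H.hτ.1
  have hρ' := H.hρ'.1
  have hτ' := H.hτ'.1
  obtain ⟨α, β, hα, hα1, hβ, hβ1, hExt⟩ := hE ρ₁ τ hρ₁ hτ
  obtain ⟨α', β', hα', hα'1, hβ', hβ'1, hExt'⟩ := hE ρ₁ ρ' hρ₁ hρ'
  have hRl : ∀ z ∈ Rl ρ₁, z ∈ Rc ρ τ := by
    rintro z ⟨h1, h2⟩
    refine ⟨h1.trans_le hρ₁ρ, ?_⟩
    rw [h2, abs_zero]
    exact hτ
  have hRl' : ∀ z ∈ Rl ρ₁, z ∈ Rc τ' ρ' := by
    rintro z ⟨h1, h2⟩
    refine ⟨h1.trans_le hρ₁τ', ?_⟩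
    rw [h2, abs_zero]
    exact hρ'
  have hRc1 : ∀ z ∈ Rc ρ₁ τ, z ∈ Rc ρ τ := fun z hz => ⟨hz.1.trans_le hρ₁ρ, hz.2⟩
  have hRc1' : ∀ z ∈ Rc ρ₁ ρ', z ∈ Rc τ' ρ' := fun z hz => ⟨hz.1.trans_le hρ₁τ', hz.2⟩
  have hRc' : ∀ z ∈ Rc α β, z ∈ Rc ρ τ := fun z hz =>
    ⟨hz.1.trans_le (hα1.trans hρ₁ρ), hz.2.trans_le hβ1⟩
  have hRc'' : ∀ z ∈ Rc α' β', z ∈ Rc τ' ρ' := fun z hz =>
    ⟨hz.1.trans_le (hα'1.trans hρ₁τ'), hz.2.trans_le hβ'1⟩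
  -- the kernel in the coordinates `ψ`, `t`
  have hux' : UX (kt η ε s) (fun k x => a k (x.1, gt η x.2)) (Rl ρ₁ ×ˢ Rl ρ₁) := by
    refine W701.AX.UX.comp hux (fun x : ℂ × ℂ => (x.1, gt η x.2)) (fun p hp => ⟨hp.1, ?_⟩)
    refine ⟨?_, ?_⟩
    · change (gt η p.2).re = 0
      rw [gt_re, hp.2.2, neg_zero]
    · change |(gt η p.2).im - η| < ρ₁
      rw [gt_im, add_sub_cancel_left]
      exact hp.2.1
  have hmemI : ∀ p ∈ Rl ρ₁ ×ˢ Rl ρ₁, ((p.1, gt η p.2) : ℂ × ℂ) ∈ Rl ρ₁ ×ˢ Il η ρ₁ := by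
    intro p hp
    refine ⟨hp.1, ?_, ?_⟩
    · change (gt η p.2).re = 0
      rw [gt_re, hp.2.2, neg_zero]
    · change |(gt η p.2).im - η| < ρ₁
      rw [gt_im, add_sub_cancel_left]
      exact hp.2.1
  -- the logarithm at real points
  obtain ⟨B, hB⟩ := hUL (ℂ × ℂ) (kt η ε s) (fun N p => L N p.1 p.2)
    (fun k x => a k (x.1, gt η x.2)) (Rl ρ₁ ×ˢ Rl ρ₁) c₁ hc₁ hux'
    (fun x hx => hnz _ (hmemI x hx))
    (hL.mono fun N hN p hp => by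
      obtain ⟨_, h2, h3⟩ := hN.2.2 p.1 (hRl _ hp.1) p.2 (hRl' _ hp.2)
      exact ⟨h3 hp.1.2 hp.2.2, h2⟩)
  -- first variable
  obtain ⟨A1, hA1⟩ := hExt ℂ (Rl ρ₁) (fun N z q => L N z q) B C₀
    (hL.mono fun N hN q hq =>
      ⟨(hN.1 q (hRl' _ hq)).mono hRc1, fun z hz => (hN.2.2 z (hRc1 _ hz) q (hRl' _ hq)).1⟩) hB
  -- second variable
  have hA1' := W701.AX.UX.comp hA1 (fun x : ℂ × ℂ => (x.2, x.1)) (S' := Rl ρ₁ ×ˢ Rc α β)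
    (fun p hp => ⟨hp.2, hp.1⟩)
  obtain ⟨A2, hA2⟩ := hExt' ℂ (Rc α β) (fun N z q => L N q z) (fun k x => A1 k (x.2, x.1)) C₀
    (hL.mono fun N hN q hq =>
      ⟨(hN.2.1 q (hRc' _ hq)).mono hRc1', fun z hz => (hN.2.2 q (hRc' _ hq) z (hRc1' _ hz)).1⟩)
    hA1'
  -- back to `φ`
  have hA3 := W701.AX.UX.comp hA2 (fun x : ℂ × ℂ => (J767.gi η x.2, x.1))
    (S' := Rc α β ×ˢ Rz η β' α') (fun p hp => ⟨J767.gi_mem hp.2, hp.1⟩)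
  obtain ⟨D, hD1, hD2⟩ := hUE _ _ _ _ hA3
  have hK : UX (kxz ε s) D (Rc α β ×ˢ Rz η β' α') := by
    refine W701.AX.UX.congr hD1 (hL.mono fun N hN p hp => ?_)
    have h1 := (hN.2.2 p.1 (hRc' _ hp.1) (J767.gi η p.2) (hRc'' _ (J767.gi_mem hp.2))).2.1
    rw [kt, J767.gt_gi] at h1
    exact h1
  have hsub1 : ∀ z ∈ Rc α β, z ∈ Rc (3 * ρ) (3 * τ) := by
    intro z hz
    have h1 := hRc' z hz
    exact ⟨by linarith [h1.1, H.hρ.1], by linarith [h1.2]⟩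
  have hsub2 : ∀ z ∈ Rz η β' α', z ∈ Rz η (3 * ρ') (3 * τ') := by
    intro z hz
    exact ⟨by linarith [hz.1], by linarith [hz.2]⟩
  refine ⟨α, β, β', α', hα1.trans hρ₁ρ, hβ1, hβ'1, hα'1.trans hρ₁τ', D, hα, hβ, hβ', hα', hK,
    ?_, ?_, ?_⟩
  · intro k φ hφ
    refine hUA (fun N ψ => kxz ε s N (ψ, φ)) (fun k ψ => D k (ψ, φ)) (Rc α β) (Rc_open _ _) ?_
      (W701.AX.UX.comp hK (fun ψ => (ψ, φ)) fun ψ hψ => ⟨hψ, hφ⟩) k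
    refine Eventually.of_forall fun N => ?_
    have e1 : DifferentiableOn ℂ (fun ψ : ℂ => (ψ, φ)) (Rc α β) := by fun_prop
    exact (kxz_diff H N).comp e1 fun ψ hψ => ⟨hsub1 _ hψ, hsub2 _ hφ⟩
  · intro k ψ hψ
    refine hUA (fun N φ => kxz ε s N (ψ, φ)) (fun k φ => D k (ψ, φ)) (Rz η β' α')
      (J767.Rz_open _ _ _) ?_
      (W701.AX.UX.comp hK (fun φ => (ψ, φ)) fun φ hφ => ⟨hψ, hφ⟩) k
    refine Eventually.of_forall fun N => ?_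
    have e1 : DifferentiableOn ℂ (fun φ : ℂ => (ψ, φ)) (Rz η β' α') := by fun_prop
    exact (kxz_diff H N).comp e1 fun φ hφ => ⟨hsub1 _ hψ, hsub2 _ hφ⟩
  · intro x _
    rw [hD2]
    exact Complex.exp_ne_zero _

theorem kxcz : S_KXRZ → S_KXCZ := fun h =>
  kxcz_aux h (W414.AX.ext W637.AX.tc) (W67.AX.uxlog W303.AX.uxbd W303.AX.uxmul)
    (W67.AX.uxexp W303.AX.uxbd W303.AX.uxmul) W303.AX.uxan

end Pool.Agent.TH563.Z
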