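import Pool.Agent.TH806.LK.Defs

set_option autoImplicit false

/-!
# LK project (helper806): job PT (helper126)
-/

namespace Pool.Agent.TH126.LK_PT

open Finset Filter Topology MeasureTheory Complex
open Pool.Agent.W184.NZ
open Pool.Agent.TH806.LK

theorem NC_eq (K : ℕ) (a z : ℂ) :
    NC K a z = ∑ k ∈ range (K + 1), (a * z) ^ k / (k.factorial : ℂ) := by
  unfold NC
  refine Finset.sum_congr rfl fun k _ => ?_
  rw [mul_pow]
  ring

theorem NC_le (K : ℕ) (a z : ℂ) : ‖NC K a z‖ ≤ Real.exp (‖a‖ * ‖z‖) := by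
  rw [NC_eq]
  refine (norm_sum_le _ _).trans ?_
  refine le_trans (le_of_eq ?_) (Real.sum_le_exp_of_nonneg (by positivity) (K + 1))
  refine Finset.sum_congr rfl fun k _ => ?_
  rw [norm_div, norm_pow, norm_mul, Complex.norm_natCast]

/-- the truncated exponential is close to the exponential, relative error `exp (-4R)` -/
theorem NC_close (n R : ℕ) (hn : 1 ≤ n) (hR : 1 ≤ R) (α z : ℂ) (hα : ‖α‖ ≤ n) (hz : ‖z‖ ≤ R) :
    ‖NC (20 * n * R) α z - Complex.exp (α * z)‖ ≤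
      Real.exp (-(4 * (R : ℝ))) * ‖Complex.exp (α * z)‖ := by
  obtain ⟨w, hw⟩ : ∃ w : ℂ, w = α * z := ⟨_, rfl⟩
  obtain ⟨x, hx⟩ : ∃ x : ℝ, x = (n : ℝ) * R := ⟨_, rfl⟩
  have hn1 : (1 : ℝ) ≤ n := by exact_mod_cast hn
  have hR1 : (1 : ℝ) ≤ R := by exact_mod_cast hR
  have hx1 : 1 ≤ x := by rw [hx]; nlinarith
  have hxR : (R : ℝ) ≤ x := by rw [hx]; nlinarith
  have hwx : ‖w‖ ≤ x := by
    rw [hw, norm_mul, hx]
    exact mul_le_mul hα hz (norm_nonneg _) (by linarith)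
  have hK : (((20 * n * R : ℕ) + 1 : ℕ) : ℝ) = 20 * x + 1 := by
    push_cast
    rw [hx]
    ring
  rw [NC_eq, ← hw, norm_sub_rev]
  have h1 : ‖w‖ / ((20 * n * R + 1).succ : ℝ) ≤ 1 / 2 := by
    rw [div_le_iff₀ (by positivity)]
    rw [Nat.cast_succ, hK]
    linarith
  refine (Complex.exp_bound' h1).trans ?_
  have h2 : ‖w‖ ^ (20 * n * R + 1) / ((20 * n * R + 1).factorial : ℝ) ≤
      x ^ (20 * n * R + 1) / ((20 * n * R + 1).factorial : ℝ) := by
    apply div_le_div_of_nonneg_right (pow_le_pow_left₀ (norm_nonneg _) hwx _) (by positivity)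
  have h3 := Real.pow_div_factorial_le_exp (20 * x) (by linarith) (20 * n * R + 1)
  have h4 : Real.exp (2 * (20 * x + 1)) ≤ 20 ^ (20 * n * R + 1) := by
    rw [← hK, mul_comm, Real.exp_nat_mul]
    apply pow_le_pow_left₀ (Real.exp_pos _).le
    have h5 : Real.exp 2 = Real.exp 1 * Real.exp 1 := by
      rw [← Real.exp_add]
      norm_num
    have h6 := Real.exp_one_lt_d9
    have h7 := Real.exp_pos 1
    rw [h5]
    nlinarith
  have h5 : x ^ (20 * n * R + 1) / ((20 * n * R + 1).factorial : ℝ) ≤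
      Real.exp (-(20 * x)) * Real.exp (-2) := by
    have h6 : x ^ (20 * n * R + 1) / ((20 * n * R + 1).factorial : ℝ) * Real.exp (2 * (20 * x + 1)) ≤
        Real.exp (20 * x) := by
      calc x ^ (20 * n * R + 1) / ((20 * n * R + 1).factorial : ℝ) * Real.exp (2 * (20 * x + 1)) ≤
          x ^ (20 * n * R + 1) / ((20 * n * R + 1).factorial : ℝ) * 20 ^ (20 * n * R + 1) :=
            mul_le_mul_of_nonneg_left h4 (by positivity)
        _ = (20 * x) ^ (20 * n * R + 1) / ((20 * n * R + 1).factorial : ℝ) := by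
            rw [mul_pow]
            ring
        _ ≤ _ := h3
    have h7 : Real.exp (-(20 * x)) * Real.exp (-2) =
        Real.exp (20 * x) / Real.exp (2 * (20 * x + 1)) := by
      rw [← Real.exp_add, ← Real.exp_sub]
      congr 1
      ring
    rw [h7, le_div_iff₀ (Real.exp_pos _)]
    exact h6
  have h8 : Real.exp (-2) ≤ 1 / 2 := by
    rw [Real.exp_neg, ← one_div]
    apply one_div_le_one_div_of_le (by norm_num)
    have := Real.add_one_le_exp (2 : ℝ)
    linarith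
  have h9 : ‖w‖ ^ (20 * n * R + 1) / ((20 * n * R + 1).factorial : ℝ) * 2 ≤
      Real.exp (-(20 * x)) := by
    have h10 := Real.exp_pos (-(20 * x))
    nlinarith
  refine h9.trans ?_
  rw [Complex.norm_exp, ← Real.exp_add]
  apply Real.exp_le_exp.2
  have h11 : -‖w‖ ≤ w.re := by
    have := Complex.abs_re_le_norm w
    exact (abs_le.1 this).1
  linarith

theorem one_sub_prod (J : ℕ) (δ : ℕ → ℝ) (h0 : ∀ i, 0 ≤ δ i) (h1 : ∀ i, δ i ≤ 1) :
    1 - ∑ i ∈ range J, δ i ≤ ∏ i ∈ range J, (1 - δ i) ∧ ∏ i ∈ range J, (1 - δ i) ≤ 1 := by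
  induction J with
  | zero => simp
  | succ J ih =>
    rw [Finset.sum_range_succ, Finset.prod_range_succ]
    have h2 : 0 ≤ ∏ i ∈ range J, (1 - δ i) :=
      Finset.prod_nonneg fun i _ => by linarith [h1 i]
    have h3 := h0 J
    have h4 := h1 J
    obtain ⟨i1, i2⟩ := ih
    constructor
    · nlinarith
    · nlinarith

theorem geo (J : ℕ) : ∑ i ∈ range J, ((1 : ℝ) / 8) ^ (i + 1) ≤ 1 / 7 := by
  have : ∑ i ∈ range J, ((1 : ℝ) / 8) ^ (i + 1) = (1 - (1 / 8) ^ J) / 7 := by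
    induction J with
    | zero => simp
    | succ J ih =>
      rw [Finset.sum_range_succ, ih, pow_succ]
      ring
  rw [this]
  have h : (0 : ℝ) ≤ (1 / 8) ^ J := by positivity
  linarith

/-- the relative errors -/
noncomputable def dl (Rs i : ℕ) : ℝ := Real.exp (-(4 * (RR Rs i : ℝ)))

theorem dl_nonneg (Rs i : ℕ) : 0 ≤ dl Rs i := (Real.exp_pos _).le

theorem dl_le (Rs i : ℕ) (hRs : 1 ≤ Rs) : dl Rs i ≤ (1 / 8) ^ (i + 1) := by
  have h1 : (2 : ℝ) * ((i : ℝ) + 1) ≤ RR Rs i := by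
    have : 2 * (i + 1) ≤ RR Rs i := by
      unfold RR
      omega
    exact_mod_cast this
  have h2 : Real.exp (-8) ≤ 1 / 8 := by
    rw [Real.exp_neg, ← one_div]
    apply one_div_le_one_div_of_le (by norm_num)
    have := Real.add_one_le_exp (8 : ℝ)
    linarith
  calc dl Rs i ≤ Real.exp (((i + 1 : ℕ) : ℝ) * (-8)) := by
        apply Real.exp_le_exp.2
        push_cast
        linarith
    _ = Real.exp (-8) ^ (i + 1) := Real.exp_nat_mul _ _
    _ ≤ _ := pow_le_pow_left₀ (Real.exp_pos _).le h2 _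

theorem dl_le_one (Rs i : ℕ) : dl Rs i ≤ 1 := by
  unfold dl
  rw [Real.exp_le_one_iff]
  have : (0 : ℝ) ≤ RR Rs i := Nat.cast_nonneg _
  linarith

theorem dl_sum (Rs J : ℕ) (hRs : 1 ≤ Rs) : ∑ i ∈ range J, dl Rs i ≤ 1 / 7 :=
  (Finset.sum_le_sum fun i _ => dl_le Rs i hRs).trans (geo J)

theorem dl_prod_lower (Rs J : ℕ) (hRs : 1 ≤ Rs) : 6 / 7 ≤ ∏ i ∈ range J, (1 - dl Rs i) := by
  have := (one_sub_prod J (dl Rs) (dl_nonneg Rs) (dl_le_one Rs)).1
  have h2 := dl_sum Rs J hRs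
  linarith

theorem dl_prod_upper (Rs J : ℕ) (hRs : 1 ≤ Rs) : ∏ i ∈ range J, (1 + dl Rs i) ≤ 7 / 6 := by
  have h1 := dl_prod_lower Rs J hRs
  have h2 : (∏ i ∈ range J, (1 + dl Rs i)) * ∏ i ∈ range J, (1 - dl Rs i) ≤ 1 := by
    rw [← Finset.prod_mul_distrib]
    refine Finset.prod_le_one (fun i _ => ?_) (fun i _ => ?_)
    · have := dl_nonneg Rs i
      have := dl_le_one Rs i
      nlinarith
    · have := dl_nonneg Rs i
      nlinarith
  have h3 : 0 ≤ ∏ i ∈ range J, (1 + dl Rs i) :=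
    Finset.prod_nonneg fun i _ => by linarith [dl_nonneg Rs i]
  nlinarith

/-- bounds for one factor -/
theorem NC_two (n Rs i : ℕ) (hn : 1 ≤ n) (hRs : 1 ≤ Rs) (α z : ℂ) (hα : ‖α‖ ≤ n)
    (hz : ‖z‖ ≤ RR Rs i) :
    (1 - dl Rs i) * Real.exp (α * z).re ≤ ‖NC (KK n Rs i) α z‖ ∧
      ‖NC (KK n Rs i) α z‖ ≤ (1 + dl Rs i) * Real.exp (α * z).re := by
  have hR : 1 ≤ RR Rs i := by
    unfold RR
    omega
  have h1 := NC_close n (RR Rs i) hn hR α z hα hz
  rw [Complex.norm_exp] at h1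
  have h2 : ‖NC (KK n Rs i) α z‖ ≤ ‖NC (KK n Rs i) α z - Complex.exp (α * z)‖ +
      ‖Complex.exp (α * z)‖ := by
    have := norm_add_le (NC (KK n Rs i) α z - Complex.exp (α * z)) (Complex.exp (α * z))
    rwa [sub_add_cancel] at this
  have h3 : ‖Complex.exp (α * z)‖ ≤ ‖NC (KK n Rs i) α z - Complex.exp (α * z)‖ +
      ‖NC (KK n Rs i) α z‖ := by
    have := norm_sub_le (NC (KK n Rs i) α z) (NC (KK n Rs i) α z - Complex.exp (α * z))
    rw [sub_sub_cancel] at this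
    linarith
  rw [Complex.norm_exp] at h2 h3
  have h4 : ‖NC (KK n Rs i) α z - Complex.exp (α * z)‖ ≤ dl Rs i * Real.exp (α * z).re := h1
  constructor
  · linarith
  · linarith

theorem AZ_two (n Rs J : ℕ) (z : ℕ → ℂ) (hn : 1 ≤ n) (hRs : 1 ≤ Rs)
    (hz : ∀ i < J, ‖z i‖ ≤ RR Rs i) (a : ℝ) (ha : |a| ≤ n) :
    Real.exp (a * ∑ i ∈ range J, (z i).re) / 2 ≤ ‖AZ n Rs J a z‖ ∧
      ‖AZ n Rs J a z‖ ≤ 2 * Real.exp (a * ∑ i ∈ range J, (z i).re) := by
  have hα : ‖(a : ℂ)‖ ≤ n := by rwa [Complex.norm_real, Real.norm_eq_abs]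
  have hre : ∀ i, ((a : ℂ) * z i).re = a * (z i).re := fun i => Complex.re_ofReal_mul _ _
  have hexp : Real.exp (a * ∑ i ∈ range J, (z i).re) = ∏ i ∈ range J, Real.exp (a * (z i).re) := by
    rw [Finset.mul_sum, Real.exp_sum]
  have hpos : 0 < ∏ i ∈ range J, Real.exp (a * (z i).re) :=
    Finset.prod_pos fun i _ => Real.exp_pos _
  unfold AZ
  rw [norm_prod, hexp]
  constructor
  · have h1 : ∏ i ∈ range J, ((1 - dl Rs i) * Real.exp (a * (z i).re)) ≤
        ∏ i ∈ range J, ‖NC (KK n Rs i) a (z i)‖ := by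
      refine Finset.prod_le_prod (fun i _ => ?_) (fun i hi => ?_)
      · have := dl_le_one Rs i
        have := Real.exp_pos (a * (z i).re)
        apply mul_nonneg
        · linarith
        · exact this.le
      · have := (NC_two n Rs i hn hRs a (z i) hα (hz i (Finset.mem_range.1 hi))).1
        rwa [hre] at this
    rw [Finset.prod_mul_distrib] at h1
    have h2 := dl_prod_lower Rs J hRs
    nlinarith
  · have h1 : ∏ i ∈ range J, ‖NC (KK n Rs i) a (z i)‖ ≤
        ∏ i ∈ range J, ((1 + dl Rs i) * Real.exp (a * (z i).re)) := by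
      refine Finset.prod_le_prod (fun i _ => norm_nonneg _) (fun i hi => ?_)
      have := (NC_two n Rs i hn hRs a (z i) hα (hz i (Finset.mem_range.1 hi))).2
      rwa [hre] at this
    rw [Finset.prod_mul_distrib] at h1
    have h2 := dl_prod_upper Rs J hRs
    nlinarith

theorem pf_le (n Rs i : ℕ) (hn : 1 ≤ n) (hRs : 1 ≤ Rs) (θ : ℝ) (hθ : |θ| ≤ 1) (z : ℂ)
    (hz : ‖z‖ ≤ RR Rs i) : ‖pf (KK n Rs i) θ z‖ ≤ (1 + dl Rs i) * (1 + dl Rs i) := by
  have hn1 : (1 : ℝ) ≤ n := by exact_mod_cast hn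
  have hα : ‖(θ / 2 * Complex.I : ℂ)‖ ≤ n := by
    rw [norm_mul, Complex.norm_I, mul_one, norm_div, Complex.norm_real, Real.norm_eq_abs]
    norm_num
    linarith [abs_nonneg θ]
  have hz' : ‖starRingEnd ℂ z‖ ≤ RR Rs i := by
    rw [RCLike.norm_conj]
    exact hz
  have h1 := (NC_two n Rs i hn hRs _ z hα hz).2
  have h2 := (NC_two n Rs i hn hRs _ (starRingEnd ℂ z) hα hz').2
  have h3 : (θ / 2 * Complex.I * z).re + (θ / 2 * Complex.I * starRingEnd ℂ z).re = 0 := by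
    simp
  have h4 : Real.exp (θ / 2 * Complex.I * z).re *
      Real.exp (θ / 2 * Complex.I * starRingEnd ℂ z).re = 1 := by
    rw [← Real.exp_add, h3, Real.exp_zero]
  have h5 := dl_nonneg Rs i
  unfold pf
  rw [norm_mul]
  calc ‖NC (KK n Rs i) (θ / 2 * Complex.I) z‖ * ‖NC (KK n Rs i) (θ / 2 * Complex.I) (starRingEnd ℂ z)‖
      ≤ ((1 + dl Rs i) * Real.exp (θ / 2 * Complex.I * z).re) *
        ((1 + dl Rs i) * Real.exp (θ / 2 * Complex.I * starRingEnd ℂ z).re) :=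
        mul_le_mul h1 h2 (norm_nonneg _) (by positivity)
    _ = (1 + dl Rs i) * (1 + dl Rs i) * (Real.exp (θ / 2 * Complex.I * z).re *
      Real.exp (θ / 2 * Complex.I * starRingEnd ℂ z).re) := by ring
    _ = _ := by rw [h4, mul_one]

theorem abs_of_uIoc {θ : ℝ} (h : θ ∈ Set.uIoc (-1 : ℝ) 1) : |θ| ≤ 1 := by
  rw [Set.uIoc_of_le (by norm_num)] at h
  exact abs_le.2 ⟨h.1.le, h.2⟩

theorem norm_cis (x : ℝ) : ‖Complex.exp (-((x : ℝ) : ℂ) * Complex.I)‖ = 1 := by
  have : -((x : ℝ) : ℂ) * Complex.I = ((-x : ℝ) : ℂ) * Complex.I := by push_cast; ring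
  rw [this, Complex.norm_exp_ofReal_mul_I]

theorem DK_le (n Rs J : ℕ) (z : ℕ → ℂ) (hn : 1 ≤ n) (hRs : 1 ≤ Rs)
    (hz : ∀ i < J, ‖z i‖ ≤ RR Rs i) (u : ℝ) : ‖DK n Rs J hh u z‖ ≤ 4 := by
  unfold DK
  refine (intervalIntegral.norm_integral_le_of_norm_le_const (C := 2) ?_).trans (by norm_num)
  intro θ hθ
  have hθ1 := abs_of_uIoc hθ
  have h1 : ∏ i ∈ range J, ‖pf (KK n Rs i) θ (z i)‖ ≤ 7 / 6 * (7 / 6) := by
    calc ∏ i ∈ range J, ‖pf (KK n Rs i) θ (z i)‖ ≤
        ∏ i ∈ range J, ((1 + dl Rs i) * (1 + dl Rs i)) :=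
          Finset.prod_le_prod (fun i _ => norm_nonneg _) fun i hi =>
            pf_le n Rs i hn hRs θ hθ1 (z i) (hz i (Finset.mem_range.1 hi))
      _ = (∏ i ∈ range J, (1 + dl Rs i)) * ∏ i ∈ range J, (1 + dl Rs i) :=
          Finset.prod_mul_distrib
      _ ≤ 7 / 6 * (7 / 6) := by
          have h2 := dl_prod_upper Rs J hRs
          have h3 : 0 ≤ ∏ i ∈ range J, (1 + dl Rs i) :=
            Finset.prod_nonneg fun i _ => by linarith [dl_nonneg Rs i]
          exact mul_le_mul h2 h2 h3 (by norm_num)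
  have h2 : ‖((hh θ : ℝ) : ℂ)‖ ≤ 1 := by
    rw [Complex.norm_real, Real.norm_eq_abs, hh]
    rw [abs_le]
    have h3 : θ ^ 2 ≤ 1 := by
      rw [← sq_abs]
      nlinarith [abs_nonneg θ]
    constructor
    · linarith
    · linarith [sq_nonneg θ]
  rw [norm_mul, norm_mul, norm_cis, one_mul, norm_prod]
  have h3 : 0 ≤ ∏ i ∈ range J, ‖pf (KK n Rs i) θ (z i)‖ :=
    Finset.prod_nonneg fun i _ => norm_nonneg _
  calc ‖((hh θ : ℝ) : ℂ)‖ * ∏ i ∈ range J, ‖pf (KK n Rs i) θ (z i)‖ ≤ 1 * (7 / 6 * (7 / 6)) :=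
        mul_le_mul h2 h1 h3 (by norm_num)
    _ ≤ 2 := by norm_num

/-! ### continuity and size -/

theorem zz_cont (I : ℕ → Finset ℕ) (hI : ∀ i, ∀ p ∈ I i, p.Prime) (i : ℕ) :
    Continuous fun t => zz I t i := by
  unfold zz Pool.Agent.W184.NZ.PI
  refine continuous_finsetSum _ fun p hp => ?_
  have hp0 : (p : ℂ) ≠ 0 := by exact_mod_cast (hI i p hp).ne_zero
  refine Continuous.const_cpow ?_ (Or.inl hp0)
  fun_prop

theorem zz_le (I : ℕ → Finset ℕ) (hI : ∀ i, ∀ p ∈ I i, p.Prime) (i : ℕ) (t : ℝ) :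
    ‖zz I t i‖ ≤ (I i).card := by
  unfold zz Pool.Agent.W184.NZ.PI
  refine (norm_sum_le _ _).trans ?_
  rw [← nsmul_one, ← Finset.sum_const]
  refine Finset.sum_le_sum fun p hp => ?_
  have hp1 : 1 ≤ p := (hI i p hp).one_le
  rw [Complex.norm_natCast_cpow_of_pos hp1]
  apply Real.rpow_le_one_of_one_le_of_nonpos
  · exact_mod_cast hp1
  · simp

theorem NC_cont {α : Type} [TopologicalSpace α] (K : ℕ) {f g : α → ℂ} (hf : Continuous f)
    (hg : Continuous g) : Continuous fun x => NC K (f x) (g x) := by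
  unfold NC
  exact continuous_finsetSum _ fun k _ => ((hf.pow k).div_const _).mul (hg.pow k)

theorem pf_cont {α : Type} [TopologicalSpace α] (K : ℕ) {f : α → ℝ} {g : α → ℂ}
    (hf : Continuous f) (hg : Continuous g) : Continuous fun x => pf K (f x) (g x) := by
  unfold pf
  have h0 : Continuous fun x => ((f x : ℝ) : ℂ) / 2 * Complex.I :=
    ((Complex.continuous_ofReal.comp hf).div_const _).mul continuous_const
  exact (NC_cont K h0 hg).mul (NC_cont K h0 (Complex.continuous_conj.comp hg))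

theorem pf_size (K : ℕ) (θ : ℝ) (hθ : |θ| ≤ 1) (z : ℂ) : ‖pf K θ z‖ ≤ Real.exp ‖z‖ := by
  have hα : ‖(θ / 2 * Complex.I : ℂ)‖ ≤ 1 / 2 := by
    rw [norm_mul, Complex.norm_I, mul_one, norm_div, Complex.norm_real, Real.norm_eq_abs]
    norm_num
    linarith
  have h1 := NC_le K (θ / 2 * Complex.I) z
  have h2 := NC_le K (θ / 2 * Complex.I) (starRingEnd ℂ z)
  rw [RCLike.norm_conj] at h2
  have h3 : Real.exp (‖(θ / 2 * Complex.I : ℂ)‖ * ‖z‖) ≤ Real.exp (‖z‖ / 2) := by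
    apply Real.exp_le_exp.2
    nlinarith [norm_nonneg z]
  unfold pf
  rw [norm_mul]
  calc _ ≤ Real.exp (‖z‖ / 2) * Real.exp (‖z‖ / 2) :=
        mul_le_mul (h1.trans h3) (h2.trans h3) (norm_nonneg _) (Real.exp_pos _).le
    _ = Real.exp ‖z‖ := by
        rw [← Real.exp_add]
        congr 1
        ring

theorem first (n Rs J : ℕ) (I : ℕ → Finset ℕ) (a u : ℝ) (h : ℝ → ℝ)
    (hI : ∀ i, ∀ p ∈ I i, p.Prime) (hh : Continuous h) :
    Continuous (fun t => AZ n Rs J a (zz I t)) ∧ Continuous (fun t => DK n Rs J h u (zz I t)) ∧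
    (∀ i, Continuous fun t => zz I t i) ∧
    ∃ B : ℝ, ∀ t, ‖AZ n Rs J a (zz I t)‖ ≤ B ∧ ‖DK n Rs J h u (zz I t)‖ ≤ B ∧
      ∀ i < J, ‖zz I t i‖ ≤ B := by
  have hz := zz_cont I hI
  have hzl := zz_le I hI
  refine ⟨?_, ?_, hz, ?_⟩
  · unfold AZ
    refine continuous_finsetProd _ fun i _ => ?_
    exact NC_cont (KK n Rs i) continuous_const (hz i)
  · unfold DK
    apply intervalIntegral.continuous_parametric_intervalIntegral_of_continuous'
    have e1 : Continuous fun q : ℝ × ℝ => ((h q.2 : ℝ) : ℂ) :=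
      Complex.continuous_ofReal.comp (hh.comp continuous_snd)
    have e2 : Continuous fun q : ℝ × ℝ => Complex.exp (-((q.2 * u : ℝ) : ℂ) * Complex.I) := by
      fun_prop
    have e3 : Continuous fun q : ℝ × ℝ => ∏ i ∈ range J, pf (KK n Rs i) q.2 (zz I q.1 i) :=
      continuous_finsetProd _ fun i _ =>
        pf_cont (KK n Rs i) continuous_snd ((hz i).comp continuous_fst)
    exact e1.mul (e2.mul e3)
  · obtain ⟨H, hH⟩ := (isCompact_Icc (a := (-1 : ℝ)) (b := 1)).exists_bound_of_continuousOn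
      hh.continuousOn
    obtain ⟨S, hS⟩ : ∃ S : ℝ, S = ∑ i ∈ range J, ((I i).card : ℝ) := ⟨_, rfl⟩
    have hS0 : 0 ≤ S := by rw [hS]; exact Finset.sum_nonneg fun i _ => Nat.cast_nonneg _
    have hH0 : 0 ≤ H := (norm_nonneg _).trans (hH 0 ⟨by norm_num, by norm_num⟩)
    refine ⟨Real.exp (|a| * S) + H * Real.exp S * 2 + S, fun t => ⟨?_, ?_, ?_⟩⟩
    · have h1 : ‖AZ n Rs J a (zz I t)‖ ≤ Real.exp (|a| * S) := by
        unfold AZ
        rw [norm_prod, hS, Finset.mul_sum, Real.exp_sum]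
        refine Finset.prod_le_prod (fun i _ => norm_nonneg _) fun i _ => ?_
        refine (NC_le _ _ _).trans ?_
        rw [Complex.norm_real, Real.norm_eq_abs]
        apply Real.exp_le_exp.2
        exact mul_le_mul_of_nonneg_left (hzl i t) (abs_nonneg a)
      have h2 : 0 ≤ H * Real.exp S * 2 := by positivity
      linarith
    · have h1 : ‖DK n Rs J h u (zz I t)‖ ≤ H * Real.exp S * 2 := by
        unfold DK
        refine (intervalIntegral.norm_integral_le_of_norm_le_const (C := H * Real.exp S) ?_).trans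
          (le_of_eq (by norm_num))
        intro θ hθ
        have hθ1 := abs_of_uIoc hθ
        rw [norm_mul, norm_mul, norm_cis, one_mul, norm_prod]
        have h2 : ‖((h θ : ℝ) : ℂ)‖ ≤ H := by
          rw [Complex.norm_real]
          exact hH θ (abs_le.1 hθ1)
        refine mul_le_mul h2 ?_ (Finset.prod_nonneg fun i _ => norm_nonneg _) hH0
        rw [hS, Real.exp_sum]
        refine Finset.prod_le_prod (fun i _ => norm_nonneg _) fun i _ => ?_
        exact (pf_size _ θ hθ1 _).trans (Real.exp_le_exp.2 (hzl i t))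
      have h2 : 0 ≤ Real.exp (|a| * S) := (Real.exp_pos _).le
      linarith
    · intro i hi
      have h1 : ((I i).card : ℝ) ≤ S := by
        rw [hS]
        exact Finset.single_le_sum (f := fun i => ((I i).card : ℝ)) (fun i _ => Nat.cast_nonneg _)
          (Finset.mem_range.2 hi)
      have h2 : 0 ≤ Real.exp (|a| * S) := (Real.exp_pos _).le
      have h3 : 0 ≤ H * Real.exp S * 2 := by positivity
      have := hzl i t
      linarith

theorem t_PT : P_PT :=
  ⟨fun n Rs J I a u h hI hh => first n Rs J I a u h hI hh,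
    fun n Rs J z hn hRs hz => ⟨fun a ha => AZ_two n Rs J z hn hRs hz a ha,
      fun u => DK_le n Rs J z hn hRs hz u⟩⟩

end Pool.Agent.TH126.LK_PT
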